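import Pool.Agent.Work.MP_a793bb_nt.RadK.DefsK
import Pool.Agent.Work.MP_a793bb_nt.ArchCells

/-!
# Classes at an infinite place

Proof. Let `φ : K → ℂ` be the embedding of `v` (`v x = ‖φ x‖`, `InfinitePlace.norm_embedding_eq`),
`cl x = (⌊log (v x) / η⌋, ⌊arg (φ x) / η⌋)`. The bounds are clear (`|arg| ≤ π < 4`), and equal
labels give `|log ‖φ x‖ - log ‖φ y‖| ≤ η`, `|arg (φ x) - arg (φ y)| ≤ η`
(`abs_sub_le_of_floor_eq`), hence `‖φ x / φ y - 1‖ ≤ 4 η` by `norm_div_sub_one_le`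
(`ArchCells.lean`).
-/

set_option autoImplicit false

namespace AbcRadK

open Finset AbcRad Pool.Agent.Work.MP_a793bb_nt Pool.Agent.Work.MP_a793bb_nt.BPlus NumberField
  IsDedekindDomain Height

variable {K : Type*} [Field K] [NumberField K]

private theorem abs_floor_le (a : ℝ) : |(⌊a⌋ : ℝ)| ≤ |a| + 1 := by
  have h1 := Int.floor_le a
  have h2 := Int.lt_floor_add_one a
  have h3 := le_abs_self a
  have h4 := neg_abs_le a
  rw [abs_le]
  constructor <;> linarith

theorem exists_color_inf (v : InfinitePlace K) (η : ℝ) (hη : 0 < η) (hη1 : η ≤ 1 / 2) :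
    ∃ cl : K → ℤ × ℤ, (∀ x, |((cl x).1 : ℝ)| ≤ |Real.log (v x)| / η + 1 ∧
      |((cl x).2 : ℝ)| ≤ 4 / η + 1) ∧
      ∀ x y : K, x ≠ 0 → y ≠ 0 → cl x = cl y → v (x / y - 1) ≤ 4 * η := by
  refine ⟨fun x => (⌊Real.log ‖v.embedding x‖ / η⌋, ⌊Complex.arg (v.embedding x) / η⌋),
    fun x => ⟨?_, ?_⟩, fun x y hx hy h => ?_⟩
  · have h1 := abs_floor_le (Real.log ‖v.embedding x‖ / η)
    rw [abs_div, abs_of_pos hη, InfinitePlace.norm_embedding_eq] at h1
    simp only [InfinitePlace.norm_embedding_eq]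
    exact h1
  · have h1 := abs_floor_le (Complex.arg (v.embedding x) / η)
    rw [abs_div, abs_of_pos hη] at h1
    refine h1.trans ?_
    have h2 : |Complex.arg (v.embedding x)| ≤ 4 :=
      (Complex.abs_arg_le_pi _).trans Real.pi_le_four
    have h3 : |Complex.arg (v.embedding x)| / η ≤ 4 / η := by gcongr
    linarith
  · rw [Prod.mk.injEq] at h
    have h1 := abs_sub_le_of_floor_eq hη h.1
    have h2 := abs_sub_le_of_floor_eq hη h.2
    have hx' : v.embedding x ≠ 0 := (map_ne_zero _).2 hx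
    have hy' : v.embedding y ≠ 0 := (map_ne_zero _).2 hy
    have h3 := norm_div_sub_one_le hx' hy' hη1 h1 h2
    rw [← InfinitePlace.norm_embedding_eq, map_sub, map_div₀, map_one]
    exact h3

end AbcRadK
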