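import Pool.Agent.Work.MP_a793bb_nt.RadK.DefsK

/-!
# The height as a finite sum

Proofs. `ht_eq`: `NumberField.logHeight₁_eq` and `finsum_eq_sum_of_support_subset`, as in the proof
of `Rs_Zp_le` in `Basic.lean` (`Real.posLog x = max 0 (log x)` equals `log (max 1 x)` for
`x ≥ 0`). `prod_formula_le`: from `prodFormula_log`. `sum_kp_le`: `∑ |kp p x| lN p` over `T` is
`∑ log⁺ (av p x) + ∑ log⁺ (av p x⁻¹) ≤ logHeight₁ x + logHeight₁ x⁻¹ = 2 logHeight₁ x`
(`log_av : log (av p y) = -(kp p y) * lN p`). `sum_inf_le`: the same at the infinite places. `ht_le`: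
upper bound of `logHeight₁ x` by absolute values of the logarithms, for any finite set `T`
containing the primes with `kp p x < 0`.
-/

set_option autoImplicit false

namespace AbcRadK

open Finset AbcRad Pool.Agent.Work.MP_a793bb_nt Pool.Agent.Work.MP_a793bb_nt.BPlus NumberField
  IsDedekindDomain Height

variable {K : Type*} [Field K] [NumberField K]

theorem ht_eq (x : K) (T : Finset (HeightOneSpectrum (𝓞 K))) (hT : ∀ p, 1 < av p x → p ∈ T) :
    logHeight₁ x = ∑ v : InfinitePlace K, (v.mult : ℝ) * Real.log (max 1 (v x)) +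
      ∑ p ∈ T, Real.log (max 1 (av p x)) := by
  rw [NumberField.logHeight₁_eq]
  have h1 : ∑ᶠ w : FinitePlace K, Real.posLog (w x) = ∑ p ∈ T, Real.log (max 1 (av p x)) := by
    rw [← finsum_comp_equiv (FinitePlace.equivHeightOneSpectrum (K := K)).symm]
    have h2 : ∀ p : HeightOneSpectrum (𝓞 K),
        Real.posLog ((FinitePlace.equivHeightOneSpectrum (K := K)).symm p x) =
          Real.log (max 1 (av p x)) := fun p => Real.posLog_eq_log_max_one (av_nonneg p x)
    rw [finsum_congr h2]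
    apply finsum_eq_sum_of_support_subset
    intro p hp
    apply hT
    by_contra hcon
    apply hp
    change Real.log (max 1 (av p x)) = 0
    rw [max_eq_left (not_lt.1 hcon), Real.log_one]
  rw [h1]
  congr 1
  refine Finset.sum_congr rfl fun v _ => ?_
  rw [Real.posLog_eq_log_max_one (apply_nonneg v x)]

private theorem log_max_add {y : ℝ} (hy : 0 < y) :
    Real.log (max 1 y) + Real.log (max 1 y⁻¹) = |Real.log y| := by
  rw [← Real.posLog_eq_log_max_one hy.le, ← Real.posLog_eq_log_max_one (inv_pos.2 hy).le,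
    Real.posLog_def]
  change max 0 (Real.log y) + max 0 (Real.log y⁻¹) = _
  rw [Real.log_inv, max_comm 0, max_comm 0, max_zero_add_max_neg_zero_eq_abs_self]

private theorem log_max_nonneg (y : ℝ) : 0 ≤ Real.log (max 1 y) :=
  Real.log_nonneg (le_max_left 1 y)

private theorem abs_log_av (p : HeightOneSpectrum (𝓞 K)) {x : K} (hx : x ≠ 0) :
    |Real.log (av p x)| = |(kp p x : ℝ)| * lN p := by
  rw [log_av hx, abs_mul, abs_neg, abs_of_pos (lN_pos p)]

private theorem two_ht (x : K) (hx : x ≠ 0) (S : Finset (HeightOneSpectrum (𝓞 K)))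
    (hS : ∀ p, av p x ≠ 1 → p ∈ S) :
    2 * logHeight₁ x = ∑ v : InfinitePlace K, (v.mult : ℝ) * |Real.log (v x)| +
      ∑ p ∈ S, |(kp p x : ℝ)| * lN p := by
  have h1 := ht_eq x S fun p hp => hS p hp.ne'
  have h2 := ht_eq x⁻¹ S fun p hp => hS p fun h => by
    rw [av_inv, h, inv_one] at hp
    exact lt_irrefl _ hp
  rw [logHeight₁_inv] at h2
  have h3 : ∑ v : InfinitePlace K, (v.mult : ℝ) * |Real.log (v x)| =
      ∑ v : InfinitePlace K, (v.mult : ℝ) * Real.log (max 1 (v x)) +
      ∑ v : InfinitePlace K, (v.mult : ℝ) * Real.log (max 1 (v x⁻¹)) := by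
    rw [← Finset.sum_add_distrib]
    refine Finset.sum_congr rfl fun v _ => ?_
    rw [map_inv₀, ← log_max_add (InfinitePlace.pos_iff.2 hx), mul_add]
  have h4 : ∑ p ∈ S, |(kp p x : ℝ)| * lN p =
      ∑ p ∈ S, Real.log (max 1 (av p x)) + ∑ p ∈ S, Real.log (max 1 (av p x⁻¹)) := by
    rw [← Finset.sum_add_distrib]
    refine Finset.sum_congr rfl fun p _ => ?_
    rw [← abs_log_av p hx, av_inv, ← log_max_add (av_pos p hx)]
  rw [h3, h4]
  linarith

theorem sum_kp_le (x : K) (hx : x ≠ 0) (T : Finset (HeightOneSpectrum (𝓞 K))) :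
    ∑ p ∈ T, |(kp p x : ℝ)| * lN p ≤ 2 * logHeight₁ x := by
  classical
  have h1 := two_ht x hx (T ∪ (finite_av_ne_one hx).toFinset) fun p hp => by
    rw [Finset.mem_union, Set.Finite.mem_toFinset]
    exact Or.inr hp
  have h2 : 0 ≤ ∑ v : InfinitePlace K, (v.mult : ℝ) * |Real.log (v x)| :=
    Finset.sum_nonneg fun v _ => mul_nonneg (by positivity) (abs_nonneg _)
  have h3 : ∑ p ∈ T, |(kp p x : ℝ)| * lN p ≤
      ∑ p ∈ T ∪ (finite_av_ne_one hx).toFinset, |(kp p x : ℝ)| * lN p :=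
    Finset.sum_le_sum_of_subset_of_nonneg Finset.subset_union_left
      fun p _ _ => mul_nonneg (abs_nonneg _) (lN_pos p).le
  linarith

theorem sum_inf_le (x : K) (hx : x ≠ 0) :
    ∑ v : InfinitePlace K, (v.mult : ℝ) * |Real.log (v x)| ≤ 2 * logHeight₁ x := by
  have h1 := two_ht x hx (finite_av_ne_one hx).toFinset fun p hp => by
    rw [Set.Finite.mem_toFinset]
    exact hp
  have h2 : 0 ≤ ∑ p ∈ (finite_av_ne_one hx).toFinset, |(kp p x : ℝ)| * lN p :=
    Finset.sum_nonneg fun p _ => mul_nonneg (abs_nonneg _) (lN_pos p).le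
  linarith

theorem ht_le (x : K) (hx : x ≠ 0) (T : Finset (HeightOneSpectrum (𝓞 K)))
    (hT : ∀ p, kp p x ≠ 0 → p ∈ T) :
    logHeight₁ x ≤ ∑ v : InfinitePlace K, (v.mult : ℝ) * |Real.log (v x)| +
      ∑ p ∈ T, |(kp p x : ℝ)| * lN p := by
  rw [ht_eq x T fun p hp => hT p fun h => hp.ne' ((av_one_iff_kp p hx).2 h)]
  refine add_le_add (Finset.sum_le_sum fun v _ => ?_) (Finset.sum_le_sum fun p _ => ?_)
  · refine mul_le_mul_of_nonneg_left ?_ (by positivity)
    rw [← log_max_add (InfinitePlace.pos_iff.2 hx)]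
    exact le_add_of_nonneg_right (log_max_nonneg _)
  · rw [← abs_log_av p hx, ← log_max_add (av_pos p hx)]
    exact le_add_of_nonneg_right (log_max_nonneg _)

end AbcRadK
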