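import Pool.Agent.Work.MP_a793bb_nt.RadK.DefsK

/-!
# Size of `Vl` at the places of a number field

Proofs. `fin_size`: `av p` is nonarchimedean and multiplicative, `av p` of an integer is at most
`1` (`av p` of an element of the ring of integers; see `av_le_one_of_int`, `av_natCast_le_one` in
`FiniteClass.lean`), and `av p (t ^ k) ≤ max 1 (av p t) ^ (I - 1)` for `k < I`. Bound of a finite
sum by `av_add_le` and induction (`Finset.sum_induction` or
`IsUltrametric`-like argument).
`inf_size`: triangle inequality, `(n k + j).choose l ≤ 2 ^ (n k + j) ≤ 2 ^ (n I)` as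
`n k + j < n (k + 1) ≤ n I`, `v` of an integer is its usual absolute value, `I J` terms.
-/

set_option autoImplicit false

namespace AbcRadK

open Finset AbcRad Pool.Agent.Work.MP_a793bb_nt Pool.Agent.Work.MP_a793bb_nt.BPlus NumberField
  IsDedekindDomain Height

variable {K : Type*} [Field K] [NumberField K]

private theorem av_int_le (p : HeightOneSpectrum (𝓞 K)) (z : ℤ) : av p (z : K) ≤ 1 := by
  have h := av_le_one_of_int p (z : 𝓞 K)
  simpa using h

private theorem av_sum_le (p : HeightOneSpectrum (𝓞 K)) {ι : Type*} (s : Finset ι) (f : ι → K)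
    (B : ℝ) (hB : 0 ≤ B) (h : ∀ i ∈ s, av p (f i) ≤ B) : av p (∑ i ∈ s, f i) ≤ B := by
  classical
  induction s using Finset.induction_on with
  | empty => simpa [av_zero] using hB
  | insert a s ha ih =>
    rw [Finset.sum_insert ha]
    refine (av_add_le p _ _).trans (max_le (h a (Finset.mem_insert_self a s)) (ih fun i hi => ?_))
    exact h i (Finset.mem_insert_of_mem hi)

private theorem pow_le_max {x : ℝ} (hx : 0 ≤ x) {k I : ℕ} (hk : k < I) :
    x ^ k ≤ max 1 x ^ (I - 1) :=
  (pow_le_pow_left₀ hx (le_max_right 1 x) k).trans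
    (pow_le_pow_right₀ (le_max_left 1 x) (by omega))

theorem fin_size (p : HeightOneSpectrum (𝓞 K)) (c : ℕ → ℕ → ℤ) (n I J l : ℕ) (t ξ : K) :
    av p (Vl c n I J l t ξ) ≤ max 1 (av p t) ^ (I - 1) * max 1 (av p ξ) ^ (J - 1) := by
  have hB : 0 ≤ max 1 (av p t) ^ (I - 1) * max 1 (av p ξ) ^ (J - 1) := by positivity
  unfold Vl
  refine av_sum_le p _ _ _ hB fun k hk => av_sum_le p _ _ _ hB fun j hj => ?_
  have hk' := Finset.mem_range.1 hk
  have hj' := Finset.mem_range.1 hj
  rw [av_mul, av_mul, av_mul, av_pow, av_pow]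
  have h1 := av_int_le p (c k j)
  have h2 := av_natCast_le_one ((n * k + j).choose l) p
  have h3 := pow_le_max (av_nonneg p t) hk'
  have h4 := pow_le_max (av_nonneg p ξ) hj'
  have h5 : av p (c k j : K) * av p ((n * k + j).choose l : K) ≤ 1 :=
    mul_le_one₀ h1 (av_nonneg p _) h2
  have h6 : av p (c k j : K) * av p ((n * k + j).choose l : K) * av p t ^ k ≤
      1 * max 1 (av p t) ^ (I - 1) :=
    mul_le_mul h5 h3 (pow_nonneg (av_nonneg p t) k) zero_le_one
  rw [one_mul] at h6
  exact mul_le_mul h6 h4 (pow_nonneg (av_nonneg p ξ) j) (by positivity)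

theorem inf_size (v : InfinitePlace K) (c : ℕ → ℕ → ℤ) (n I J l : ℕ) (hJn : J ≤ n) (B : ℝ)
    (hB : 0 ≤ B) (hc : ∀ k < I, ∀ j < J, |(c k j : ℝ)| ≤ B) (t ξ : K) :
    v (Vl c n I J l t ξ) ≤
      (I * J : ℕ) * B * 2 ^ (n * I) * max 1 (v t) ^ (I - 1) * max 1 (v ξ) ^ (J - 1) := by
  have hsum : ∀ (ι : Type) (s : Finset ι) (f : ι → K), v (∑ i ∈ s, f i) ≤ ∑ i ∈ s, v (f i) := by
    classical
    intro ι s f
    induction s using Finset.induction_on with
    | empty => simp
    | insert a s ha ih =>
      rw [Finset.sum_insert ha, Finset.sum_insert ha]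
      exact (v.1.add_le _ _).trans (add_le_add le_rfl ih)
  have hterm : ∀ k ∈ range I, ∀ j ∈ range J,
      v ((c k j : K) * ((n * k + j).choose l : K) * t ^ k * ξ ^ j) ≤
        B * 2 ^ (n * I) * max 1 (v t) ^ (I - 1) * max 1 (v ξ) ^ (J - 1) := by
    intro k hk j hj
    have hk' := Finset.mem_range.1 hk
    have hj' := Finset.mem_range.1 hj
    rw [map_mul, map_mul, map_mul, map_pow, map_pow]
    have h1 : v (c k j : K) ≤ B := by
      have h := hc k hk' j hj'
      have h2 : v (c k j : K) = |(c k j : ℝ)| := by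
        have h3 := InfinitePlace.norm_embedding_eq v (c k j : K)
        rw [map_intCast] at h3
        rw [← h3]
        simp
      rw [h2]; exact h
    have h2 : v (((n * k + j).choose l : ℕ) : K) ≤ 2 ^ (n * I) := by
      have h2 : v (((n * k + j).choose l : ℕ) : K) = (((n * k + j).choose l : ℕ) : ℝ) := by
        have h3 := InfinitePlace.norm_embedding_eq v (((n * k + j).choose l : ℕ) : K)
        rw [map_natCast] at h3
        rw [← h3]
        simp
      rw [h2]
      have h4 : (n * k + j).choose l ≤ 2 ^ (n * k + j) := Nat.choose_le_two_pow _ _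
      have h5 : n * k + j ≤ n * I := by
        have : n * (k + 1) ≤ n * I := Nat.mul_le_mul_left n hk'
        have e : n * (k + 1) = n * k + n := by ring
        omega
      have h6 : (2 : ℕ) ^ (n * k + j) ≤ 2 ^ (n * I) := Nat.pow_le_pow_right (by norm_num) h5
      exact_mod_cast h4.trans h6
    have h3 := pow_le_max (apply_nonneg v t) hk'
    have h4 := pow_le_max (apply_nonneg v ξ) hj'
    have h5 : v (c k j : K) * v (((n * k + j).choose l : ℕ) : K) ≤ B * 2 ^ (n * I) :=
      mul_le_mul h1 h2 (apply_nonneg v _) hB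
    have h6 : v (c k j : K) * v (((n * k + j).choose l : ℕ) : K) * v t ^ k ≤
        B * 2 ^ (n * I) * max 1 (v t) ^ (I - 1) :=
      mul_le_mul h5 h3 (pow_nonneg (apply_nonneg v t) k) (by positivity)
    exact mul_le_mul h6 h4 (pow_nonneg (apply_nonneg v ξ) j) (by positivity)
  unfold Vl
  have h7 : v (∑ k ∈ range I, ∑ j ∈ range J,
      (c k j : K) * ((n * k + j).choose l : K) * t ^ k * ξ ^ j) ≤
      ∑ k ∈ range I, ∑ j ∈ range J,
        B * 2 ^ (n * I) * max 1 (v t) ^ (I - 1) * max 1 (v ξ) ^ (J - 1) := by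
    refine (hsum _ _ _).trans (Finset.sum_le_sum fun k hk => ?_)
    exact (hsum _ _ _).trans (Finset.sum_le_sum fun j hj => hterm k hk j hj)
  refine h7.trans (le_of_eq ?_)
  rw [Finset.sum_const, Finset.sum_const, Finset.card_range, Finset.card_range, nsmul_eq_mul,
    nsmul_eq_mul]
  push_cast
  ring

end AbcRadK
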