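import Pool.Agent.Work.MP_a793bb_nt.RadK.DefsK

/-!
# Smallness of `Vl` at the chosen places

Proofs. Both rest on the identity (for `N ≥ l`)
`N.choose l * ξ ^ N = ξ ^ l * ∑_i (l + i).choose l * N.choose (l + i) * (ξ - 1) ^ i`
(binomial theorem for `ξ ^ (N - l) = (1 + (ξ - 1)) ^ (N - l)`; see the proofs in `Rad/NlDvd.lean` and
`Rad/Taylor.lean`), so that
`∑∑ c_{kj} (n k + j).choose l ξ ^ (n k + j) = ξ ^ l ∑_{i < n I} (l + i).choose l * (ξ - 1) ^ i *
tay c n I J (l + i)`, where the terms with `l + i < L` vanish, and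
`Vl c n I J l (τ ξ ^ n) ξ = ∑∑ c_{kj} (n k + j).choose l τ ^ k ξ ^ (n k + j)
 = ∑∑ c_{kj} (n k + j).choose l ξ ^ (n k + j) + ∑∑ c_{kj} (n k + j).choose l (τ ^ k - 1) ξ ^ (n k + j)`.
`fin_small`: at `p`, `av p ξ = 1`, `av p τ = 1` (as `av p (ξ - 1) < 1`, because `m ≥ 1`, `lN p > 0`),
`av p (τ ^ k - 1) ≤ av p (τ - 1)`, `av p ((ξ - 1) ^ i) ≤ exp (-(m lN p)) ^ (L - l)` for
`i ≥ L - l`, and everything else has `av p ≤ 1`; nonarchimedean inequality. (If `L = 0` then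
`l = 0` and the claim is `av p (Vl ...) ≤ 1`.)
`inf_small`: `v ξ ≤ 2`, `v τ ≤ 2`, `v (τ ^ k - 1) ≤ k 2 ^ k v (τ - 1) ≤ I 2 ^ I v (τ - 1)`, exactly as in
`Rad/Taylor.lean` (`real_small`, `tau_small`) with `v` in place of the absolute value, and
`(n I) + I 2 ^ I ≤ n I 2 ^ (I + 1)`; `v (τ - 1) ≤ 1 / M ^ (I J) ≤ 1 / M ^ (L - l)`.
-/

set_option autoImplicit false

namespace AbcRadK

open Finset AbcRad Pool.Agent.Work.MP_a793bb_nt Pool.Agent.Work.MP_a793bb_nt.BPlus NumberField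
  IsDedekindDomain Height

variable {K : Type*} [Field K] [NumberField K]

private theorem choose_shift {A : Type*} [CommRing A] (ξ : A) (N l m : ℕ) (hN : N < m) :
    ((N.choose l : ℕ) : A) * ξ ^ N = ξ ^ l * ∑ i ∈ range m,
      (((l + i).choose l : ℕ) : A) * (ξ - 1) ^ i * ((N.choose (l + i) : ℕ) : A) := by
  by_cases hl : N < l
  · rw [Nat.choose_eq_zero_of_lt hl, Finset.sum_eq_zero]
    · simp
    · intro i _
      rw [Nat.choose_eq_zero_of_lt (by omega : N < l + i)]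
      simp
  · have hl' : l ≤ N := not_lt.mp hl
    have h0 : ξ ^ (N - l) = ∑ i ∈ range (N - l + 1), (ξ - 1) ^ i * (((N - l).choose i : ℕ) : A) := by
      have := add_pow (ξ - 1) 1 (N - l)
      simpa using this
    have h1 : ξ ^ N = ξ ^ l * ξ ^ (N - l) := by
      rw [← pow_add]; congr 1; omega
    have h2 : ∑ i ∈ range (N - l + 1),
        (((l + i).choose l : ℕ) : A) * (ξ - 1) ^ i * ((N.choose (l + i) : ℕ) : A) =
        ∑ i ∈ range m,
        (((l + i).choose l : ℕ) : A) * (ξ - 1) ^ i * ((N.choose (l + i) : ℕ) : A) := by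
      apply Finset.sum_subset
      · intro i hi
        rw [mem_range] at hi ⊢
        omega
      · intro i _ hi
        rw [mem_range, not_lt] at hi
        rw [Nat.choose_eq_zero_of_lt (by omega : N < l + i)]
        simp
    rw [← h2, h1, h0, mul_left_comm, Finset.mul_sum]
    congr 1
    refine Finset.sum_congr rfl fun i _ => ?_
    have h3 : N.choose (l + i) * (l + i).choose l = N.choose l * (N - l).choose i := by
      have := Nat.choose_mul (n := N) (k := l + i) (s := l) (by omega)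
      rwa [Nat.add_sub_cancel_left] at this
    have h4 : ((N.choose (l + i) : ℕ) : A) * (((l + i).choose l : ℕ) : A) =
        ((N.choose l : ℕ) : A) * (((N - l).choose i : ℕ) : A) := by
      exact_mod_cast congrArg (Nat.cast : ℕ → A) h3
    calc ((N.choose l : ℕ) : A) * ((ξ - 1) ^ i * (((N - l).choose i : ℕ) : A))
        = (((N.choose l : ℕ) : A) * (((N - l).choose i : ℕ) : A)) * (ξ - 1) ^ i := by ring
      _ = (((l + i).choose l : ℕ) : A) * (ξ - 1) ^ i * ((N.choose (l + i) : ℕ) : A) := by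
          rw [← h4]; ring

private theorem dsum_shift {A : Type*} [CommRing A] (p : ℕ → ℕ → ℤ) (n I J l m : ℕ)
    (hm : ∀ k < I, ∀ j < J, n * k + j < m) (ξ : A) :
    ∑ k ∈ range I, ∑ j ∈ range J,
        ((p k j : ℤ) : A) * (((n * k + j).choose l : ℕ) : A) * ξ ^ (n * k + j) =
      ξ ^ l * ∑ i ∈ range m,
        (((l + i).choose l : ℕ) : A) * (ξ - 1) ^ i * ((tay p n I J (l + i) : ℤ) : A) := by
  have h1 : ∀ k ∈ range I, ∀ j ∈ range J,
      ((p k j : ℤ) : A) * (((n * k + j).choose l : ℕ) : A) * ξ ^ (n * k + j) =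
      ξ ^ l * ∑ i ∈ range m, (((l + i).choose l : ℕ) : A) * (ξ - 1) ^ i *
        (((p k j : ℤ) : A) * (((n * k + j).choose (l + i) : ℕ) : A)) := by
    intro k hk j hj
    rw [mem_range] at hk hj
    rw [mul_assoc, choose_shift ξ (n * k + j) l m (hm k hk j hj), mul_left_comm, Finset.mul_sum]
    congr 1
    refine Finset.sum_congr rfl fun i _ => ?_
    ring
  calc ∑ k ∈ range I, ∑ j ∈ range J,
        ((p k j : ℤ) : A) * (((n * k + j).choose l : ℕ) : A) * ξ ^ (n * k + j)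
      = ∑ k ∈ range I, ∑ j ∈ range J, ξ ^ l * ∑ i ∈ range m, (((l + i).choose l : ℕ) : A) *
          (ξ - 1) ^ i * (((p k j : ℤ) : A) * (((n * k + j).choose (l + i) : ℕ) : A)) :=
        Finset.sum_congr rfl fun k hk => Finset.sum_congr rfl fun j hj => h1 k hk j hj
    _ = ξ ^ l * ∑ k ∈ range I, ∑ j ∈ range J, ∑ i ∈ range m, (((l + i).choose l : ℕ) : A) *
          (ξ - 1) ^ i * (((p k j : ℤ) : A) * (((n * k + j).choose (l + i) : ℕ) : A)) := by
        simp only [Finset.mul_sum]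
    _ = ξ ^ l * ∑ i ∈ range m, ∑ k ∈ range I, ∑ j ∈ range J, (((l + i).choose l : ℕ) : A) *
          (ξ - 1) ^ i * (((p k j : ℤ) : A) * (((n * k + j).choose (l + i) : ℕ) : A)) := by
        congr 1
        rw [Finset.sum_comm]
        rw [Finset.sum_congr rfl fun j _ => Finset.sum_comm]
        rw [Finset.sum_comm]
        refine Finset.sum_congr rfl fun i _ => ?_
        rw [Finset.sum_comm]
    _ = _ := by
        congr 1
        refine Finset.sum_congr rfl fun i _ => ?_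
        unfold tay
        push_cast
        simp only [Finset.mul_sum]

private theorem choose_le_pow (n I J k j l : ℕ) (hJn : J ≤ n) (hk : k < I) (hj : j < J) :
    (((n * k + j).choose l : ℕ) : ℝ) ≤ 2 ^ (n * I) := by
  have h1 : ((n * k + j).choose l : ℕ) ≤ 2 ^ (n * I) := by
    refine le_trans (Nat.choose_le_two_pow _ _) (Nat.pow_le_pow_right (by norm_num) ?_)
    nlinarith [Nat.mul_le_mul_left n (Nat.succ_le_of_lt hk)]
  exact_mod_cast h1

private theorem tay_abs (p : ℕ → ℕ → ℤ) (n I J l : ℕ) (hJn : J ≤ n) (B : ℝ) (hB : 0 ≤ B)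
    (hp : ∀ k < I, ∀ j < J, |(p k j : ℝ)| ≤ B) :
    |((tay p n I J l : ℤ) : ℝ)| ≤ (I : ℝ) * J * B * 2 ^ (n * I) := by
  unfold tay
  push_cast
  calc |∑ k ∈ range I, ∑ j ∈ range J, ((p k j : ℤ) : ℝ) * (((n * k + j).choose l : ℕ) : ℝ)|
      ≤ ∑ k ∈ range I, ∑ j ∈ range J, B * 2 ^ (n * I) :=
        (Finset.abs_sum_le_sum_abs _ _).trans (Finset.sum_le_sum fun k hk =>
          (Finset.abs_sum_le_sum_abs _ _).trans (Finset.sum_le_sum fun j hj => by
            rw [mem_range] at hk hj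
            rw [abs_mul, Nat.abs_cast]
            have h1 := choose_le_pow n I J k j l hJn hk hj
            have h2 := hp k hk j hj
            gcongr))
    _ = (I : ℝ) * J * B * 2 ^ (n * I) := by
        simp only [Finset.sum_const, Finset.card_range, nsmul_eq_mul]
        ring


private theorem Vl_split {F : Type*} [Field F] (c : ℕ → ℕ → ℤ) (n I J l : ℕ) (τ ξ : F) :
    Vl c n I J l (τ * ξ ^ n) ξ =
      ∑ k ∈ range I, ∑ j ∈ range J,
        ((c k j : ℤ) : F) * (((n * k + j).choose l : ℕ) : F) * ξ ^ (n * k + j) +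
      ∑ k ∈ range I, ∑ j ∈ range J,
        ((c k j : ℤ) : F) * (((n * k + j).choose l : ℕ) : F) * (τ ^ k - 1) * ξ ^ (n * k + j) := by
  unfold Vl
  rw [← Finset.sum_add_distrib]
  refine Finset.sum_congr rfl fun k _ => ?_
  rw [← Finset.sum_add_distrib]
  refine Finset.sum_congr rfl fun j _ => ?_
  rw [mul_pow, ← pow_mul, pow_add]
  ring

private theorem av_zero' (p : HeightOneSpectrum (𝓞 K)) : av p (0 : K) = 0 := map_zero _

private theorem av_sum_le (p : HeightOneSpectrum (𝓞 K)) {ι : Type*} (s : Finset ι) (f : ι → K)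
    (C : ℝ) (hC : 0 ≤ C) (h : ∀ i ∈ s, av p (f i) ≤ C) : av p (∑ i ∈ s, f i) ≤ C := by
  classical
  induction s using Finset.induction_on with
  | empty => rw [Finset.sum_empty, av_zero']; exact hC
  | insert a s ha ih =>
    rw [Finset.sum_insert ha]
    exact (av_add_le p _ _).trans (max_le (h a (Finset.mem_insert_self a s))
      (ih fun i hi => h i (Finset.mem_insert_of_mem hi)))

private theorem av_int_le (p : HeightOneSpectrum (𝓞 K)) (z : ℤ) : av p ((z : ℤ) : K) ≤ 1 := by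
  have := av_le_one_of_int p ((z : ℤ) : 𝓞 K)
  simpa using this

private theorem av_nat_le (p : HeightOneSpectrum (𝓞 K)) (z : ℕ) : av p ((z : ℕ) : K) ≤ 1 := by
  have := av_int_le p (z : ℤ)
  simpa using this

private theorem av_pow_sub_one_le (p : HeightOneSpectrum (𝓞 K)) (τ : K) (h : av p τ = 1) (k : ℕ) :
    av p (τ ^ k - 1) ≤ av p (τ - 1) := by
  induction k with
  | zero => rw [pow_zero, sub_self, av_zero']; exact av_nonneg _ _
  | succ k ih =>
    have h1 : τ ^ (k + 1) - 1 = τ * (τ ^ k - 1) + (τ - 1) := by ring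
    rw [h1]
    refine (av_add_le p _ _).trans (max_le ?_ le_rfl)
    rw [av_mul, h, one_mul]
    exact ih

theorem fin_small (p : HeightOneSpectrum (𝓞 K)) (c : ℕ → ℕ → ℤ) (n I J L l m : ℕ) (hm : 1 ≤ m)
    (hz : ∀ l' < L, tay c n I J l' = 0) (hl : l ≤ L) (τ ξ : K)
    (hξ : av p (ξ - 1) ≤ Real.exp (-(m * lN p)))
    (hτ : av p (τ - 1) ≤ Real.exp (-((m * L : ℕ) * lN p))) (hτ1 : av p τ = 1) :
    av p (Vl c n I J l (τ * ξ ^ n) ξ) ≤ Real.exp (-((m * (L - l) : ℕ) * lN p)) := by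
  have hlN := lN_pos p
  have hE1 : Real.exp (-(m * lN p)) ≤ 1 := by
    rw [Real.exp_le_one_iff]
    have : 0 ≤ (m : ℝ) * lN p := by positivity
    linarith
  have hEpow : Real.exp (-(m * lN p)) ^ (L - l) = Real.exp (-((m * (L - l) : ℕ) * lN p)) := by
    rw [← Real.exp_nat_mul]
    congr 1
    rw [Nat.cast_mul]
    ring
  have hξ1 : av p ξ ≤ 1 := by
    have h1 : ξ = (ξ - 1) + 1 := by ring
    rw [h1]
    refine (av_add_le p _ _).trans (max_le (hξ.trans hE1) ?_)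
    rw [av_one]
  have hξp : ∀ k : ℕ, av p (ξ ^ k) ≤ 1 := fun k => by
    rw [av_pow]
    exact pow_le_one₀ (av_nonneg _ _) hξ1
  rw [Vl_split]
  refine (av_add_le p _ _).trans (max_le ?_ ?_)
  · rw [dsum_shift c n I J l (n * I + J) ?_ ξ, av_mul]
    · refine (mul_le_of_le_one_left (av_nonneg _ _) (hξp l)).trans ?_
      refine av_sum_le p _ _ _ (Real.exp_nonneg _) fun i _ => ?_
      by_cases hi : l + i < L
      · rw [hz _ hi, Int.cast_zero, mul_zero, av_zero']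
        exact Real.exp_nonneg _
      · rw [not_lt] at hi
        rw [av_mul, av_mul, av_pow]
        have h1 : av p (ξ - 1) ^ i ≤ Real.exp (-((m * (L - l) : ℕ) * lN p)) := by
          rw [← hEpow]
          exact (pow_le_pow_left₀ (av_nonneg _ _) hξ i).trans
            (pow_le_pow_of_le_one (Real.exp_nonneg _) hE1 (by omega))
        have h2 := av_nat_le p ((l + i).choose l)
        have h3 := av_int_le p (tay c n I J (l + i))
        refine (mul_le_of_le_one_right (mul_nonneg (av_nonneg p (((l + i).choose l : ℕ) : K))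
          (pow_nonneg (av_nonneg p (ξ - 1)) i)) h3).trans ?_
        exact (mul_le_of_le_one_left (pow_nonneg (av_nonneg _ _) _) h2).trans h1
    · intro k hk j hj
      nlinarith [Nat.mul_le_mul_left n hk.le]
  · refine av_sum_le p _ _ _ (Real.exp_nonneg _) fun k _ =>
      av_sum_le p _ _ _ (Real.exp_nonneg _) fun j _ => ?_
    rw [av_mul, av_mul, av_mul]
    have h1 := av_int_le p (c k j)
    have h2 := av_nat_le p ((n * k + j).choose l)
    have h3 := av_pow_sub_one_le p τ hτ1 k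
    have h4 := hξp (n * k + j)
    have h5 : Real.exp (-((m * L : ℕ) * lN p)) ≤ Real.exp (-((m * (L - l) : ℕ) * lN p)) := by
      rw [Real.exp_le_exp, neg_le_neg_iff]
      have h6 : ((m * (L - l) : ℕ) : ℝ) ≤ ((m * L : ℕ) : ℝ) := by
        exact_mod_cast Nat.mul_le_mul_left m (Nat.sub_le L l)
      exact mul_le_mul_of_nonneg_right h6 hlN.le
    have h0 := av_nonneg p ((c k j : ℤ) : K)
    have h00 := av_nonneg p (((n * k + j).choose l : ℕ) : K)
    have h000 := av_nonneg p (τ ^ k - 1)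
    calc av p ((c k j : ℤ) : K) * av p (((n * k + j).choose l : ℕ) : K) * av p (τ ^ k - 1) *
          av p (ξ ^ (n * k + j))
        ≤ av p ((c k j : ℤ) : K) * av p (((n * k + j).choose l : ℕ) : K) * av p (τ ^ k - 1) :=
          mul_le_of_le_one_right (by positivity) h4
      _ ≤ av p (τ ^ k - 1) :=
          mul_le_of_le_one_left h000 (mul_le_one₀ h1 h00 h2)
      _ ≤ _ := h3.trans (hτ.trans h5)

private theorem cx_small (c : ℕ → ℕ → ℤ) (n I J L l : ℕ) (hJn : J ≤ n) (B M : ℝ) (ξ : ℂ)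
    (hB : 0 ≤ B) (hc : ∀ k < I, ∀ j < J, |(c k j : ℝ)| ≤ B) (hz : ∀ l' < L, tay c n I J l' = 0)
    (hM : 1 ≤ M) (hξ1 : ‖ξ - 1‖ ≤ 1 / M) (hξ2 : ‖ξ‖ ≤ 2) :
    ‖∑ k ∈ range I, ∑ j ∈ range J,
        ((c k j : ℤ) : ℂ) * (((n * k + j).choose l : ℕ) : ℂ) * ξ ^ (n * k + j)‖ ≤
      (n * I : ℕ) * (I * J : ℕ) * B * (2 ^ (n * I)) ^ 3 / M ^ (L - l) := by
  have hM0 : 0 < M := by linarith
  have hinv : 1 / M ≤ 1 := by
    rw [div_le_one hM0]; exact hM
  have hNlt : ∀ k < I, ∀ j < J, n * k + j < n * I := by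
    intro k hk j hj
    nlinarith [Nat.mul_le_mul_left n (Nat.succ_le_of_lt hk)]
  have hrhs : 0 ≤ ((n * I : ℕ) : ℝ) * ((I * J : ℕ) : ℝ) * B * (2 ^ (n * I)) ^ 3 / M ^ (L - l) := by
    positivity
  by_cases hl : n * I ≤ l
  · have h0 : ∑ k ∈ range I, ∑ j ∈ range J,
        ((c k j : ℤ) : ℂ) * (((n * k + j).choose l : ℕ) : ℂ) * ξ ^ (n * k + j) = 0 := by
      refine Finset.sum_eq_zero fun k hk => Finset.sum_eq_zero fun j hj => ?_
      rw [mem_range] at hk hj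
      rw [Nat.choose_eq_zero_of_lt (lt_of_lt_of_le (hNlt k hk j hj) hl)]
      simp
    rw [h0, norm_zero]
    exact hrhs
  · rw [not_le] at hl
    rw [dsum_shift c n I J l (n * I) hNlt ξ, norm_mul, norm_pow]
    have hterm : ∀ i ∈ range (n * I),
        ‖(((l + i).choose l : ℕ) : ℂ) * (ξ - 1) ^ i * ((tay c n I J (l + i) : ℤ) : ℂ)‖ ≤
        2 ^ (n * I) * (1 / M ^ (L - l)) * ((I : ℝ) * J * B * 2 ^ (n * I)) := by
      intro i _
      have hnn : 0 ≤ 2 ^ (n * I) * (1 / M ^ (L - l)) * ((I : ℝ) * J * B * 2 ^ (n * I)) := by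
        positivity
      by_cases h1 : l + i < L
      · rw [hz _ h1]
        simpa using hnn
      · rw [not_lt] at h1
        by_cases h2 : n * I ≤ l + i
        · have h3 : tay c n I J (l + i) = 0 := by
            unfold tay
            refine Finset.sum_eq_zero fun k hk => Finset.sum_eq_zero fun j hj => ?_
            rw [mem_range] at hk hj
            rw [Nat.choose_eq_zero_of_lt (lt_of_lt_of_le (hNlt k hk j hj) h2)]
            simp
          rw [h3]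
          simpa using hnn
        · rw [not_le] at h2
          rw [norm_mul, norm_mul, norm_pow, Complex.norm_natCast, Complex.norm_intCast]
          have e1 : (((l + i).choose l : ℕ) : ℝ) ≤ 2 ^ (n * I) := by
            have : (l + i).choose l ≤ 2 ^ (n * I) :=
              (Nat.choose_le_two_pow _ _).trans (Nat.pow_le_pow_right (by norm_num) h2.le)
            exact_mod_cast this
          have e2 : ‖ξ - 1‖ ^ i ≤ 1 / M ^ (L - l) := by
            calc ‖ξ - 1‖ ^ i ≤ (1 / M) ^ i := pow_le_pow_left₀ (norm_nonneg _) hξ1 i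
              _ ≤ (1 / M) ^ (L - l) := pow_le_pow_of_le_one (by positivity) hinv (by omega)
              _ = 1 / M ^ (L - l) := by rw [one_div, one_div, inv_pow]
          have e3 := tay_abs c n I J (l + i) hJn B hB hc
          gcongr
    have hsum : ‖∑ i ∈ range (n * I),
        (((l + i).choose l : ℕ) : ℂ) * (ξ - 1) ^ i * ((tay c n I J (l + i) : ℤ) : ℂ)‖ ≤
        (n * I : ℕ) * (2 ^ (n * I) * (1 / M ^ (L - l)) * ((I : ℝ) * J * B * 2 ^ (n * I))) := by
      refine (norm_sum_le _ _).trans ((Finset.sum_le_sum hterm).trans (le_of_eq ?_))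
      rw [Finset.sum_const, Finset.card_range, nsmul_eq_mul]
    have hξl : ‖ξ‖ ^ l ≤ 2 ^ (n * I) :=
      (pow_le_pow_left₀ (norm_nonneg _) hξ2 l).trans (pow_le_pow_right₀ (by norm_num) hl.le)
    calc ‖ξ‖ ^ l * ‖∑ i ∈ range (n * I),
        (((l + i).choose l : ℕ) : ℂ) * (ξ - 1) ^ i * ((tay c n I J (l + i) : ℤ) : ℂ)‖
        ≤ 2 ^ (n * I) * ((n * I : ℕ) * (2 ^ (n * I) * (1 / M ^ (L - l)) *
          ((I : ℝ) * J * B * 2 ^ (n * I)))) :=
          mul_le_mul hξl hsum (norm_nonneg _) (by positivity)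
      _ = (n * I : ℕ) * (I * J : ℕ) * B * (2 ^ (n * I)) ^ 3 / M ^ (L - l) := by
          push_cast
          ring

private theorem cx_tau (c : ℕ → ℕ → ℤ) (n I J l : ℕ) (hJn : J ≤ n) (B : ℝ) (ξ τ : ℂ)
    (hB : 0 ≤ B) (hc : ∀ k < I, ∀ j < J, |(c k j : ℝ)| ≤ B)
    (hξ1 : ‖ξ‖ ≤ 2) (hτ2 : ‖τ‖ ≤ 2) :
    ‖∑ k ∈ range I, ∑ j ∈ range J,
        ((c k j : ℤ) : ℂ) * (((n * k + j).choose l : ℕ) : ℂ) * (τ ^ k - 1) * ξ ^ (n * k + j)‖ ≤
      (I * J : ℕ) * B * (2 ^ (n * I)) ^ 2 * (I * 2 ^ I) * ‖τ - 1‖ := by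
  have hpow : ∀ k : ℕ, ‖τ ^ k - 1‖ ≤ k * 2 ^ k * ‖τ - 1‖ := by
    intro k
    induction k with
    | zero => simp
    | succ k ih =>
      have h1 : τ ^ (k + 1) - 1 = τ * (τ ^ k - 1) + (τ - 1) := by ring
      rw [h1]
      refine (norm_add_le _ _).trans ?_
      rw [norm_mul]
      have h2 : ‖τ‖ * ‖τ ^ k - 1‖ ≤ 2 * (k * 2 ^ k * ‖τ - 1‖) :=
        mul_le_mul hτ2 ih (norm_nonneg _) (by norm_num)
      have h3 : (1 : ℝ) ≤ 2 ^ (k + 1) := one_le_pow₀ (by norm_num)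
      have h4 : ‖τ - 1‖ ≤ 2 ^ (k + 1) * ‖τ - 1‖ := le_mul_of_one_le_left (norm_nonneg _) h3
      push_cast
      calc ‖τ‖ * ‖τ ^ k - 1‖ + ‖τ - 1‖ ≤ 2 * (k * 2 ^ k * ‖τ - 1‖) + 2 ^ (k + 1) * ‖τ - 1‖ := by
            linarith
        _ = ((k : ℝ) + 1) * 2 ^ (k + 1) * ‖τ - 1‖ := by ring
  have hterm : ∀ k ∈ range I, ∀ j ∈ range J,
      ‖((c k j : ℤ) : ℂ) * (((n * k + j).choose l : ℕ) : ℂ) * (τ ^ k - 1) * ξ ^ (n * k + j)‖ ≤
      B * 2 ^ (n * I) * (I * 2 ^ I * ‖τ - 1‖) * 2 ^ (n * I) := by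
    intro k hk j hj
    rw [mem_range] at hk hj
    rw [norm_mul, norm_mul, norm_mul, Complex.norm_natCast, Complex.norm_intCast, norm_pow]
    have h1 := choose_le_pow n I J k j l hJn hk hj
    have h2 := hc k hk j hj
    have h3 : ‖τ ^ k - 1‖ ≤ I * 2 ^ I * ‖τ - 1‖ := by
      refine (hpow k).trans ?_
      have h4 : (k : ℝ) ≤ I := by exact_mod_cast hk.le
      have h5 : (2 : ℝ) ^ k ≤ 2 ^ I := pow_le_pow_right₀ (by norm_num) hk.le
      gcongr
    have h4 : ‖ξ‖ ^ (n * k + j) ≤ 2 ^ (n * I) := by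
      refine (pow_le_pow_left₀ (norm_nonneg _) hξ1 _).trans (pow_le_pow_right₀ (by norm_num) ?_)
      nlinarith [Nat.mul_le_mul_left n (Nat.succ_le_of_lt hk)]
    gcongr
  calc ‖∑ k ∈ range I, ∑ j ∈ range J,
        ((c k j : ℤ) : ℂ) * (((n * k + j).choose l : ℕ) : ℂ) * (τ ^ k - 1) * ξ ^ (n * k + j)‖
      ≤ ∑ k ∈ range I, ∑ j ∈ range J, B * 2 ^ (n * I) * (I * 2 ^ I * ‖τ - 1‖) * 2 ^ (n * I) :=
        (norm_sum_le _ _).trans (Finset.sum_le_sum fun k hk =>
          (norm_sum_le _ _).trans (Finset.sum_le_sum fun j hj => hterm k hk j hj))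
    _ = (I * J : ℕ) * B * (2 ^ (n * I)) ^ 2 * (I * 2 ^ I) * ‖τ - 1‖ := by
        simp only [Finset.sum_const, Finset.card_range, nsmul_eq_mul]
        push_cast
        ring

private theorem map_Vl {F G : Type*} [Field F] [Field G] (φ : F →+* G) (c : ℕ → ℕ → ℤ)
    (n I J l : ℕ) (t ξ : F) : φ (Vl c n I J l t ξ) = Vl c n I J l (φ t) (φ ξ) := by
  unfold Vl
  simp [map_sum]

theorem inf_small (v : InfinitePlace K) (c : ℕ → ℕ → ℤ) (n I J L l : ℕ) (hJn : J ≤ n)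
    (hI : 1 ≤ I) (B M : ℝ) (hB : 0 ≤ B) (hc : ∀ k < I, ∀ j < J, |(c k j : ℝ)| ≤ B)
    (hz : ∀ l' < L, tay c n I J l' = 0) (hl : l ≤ L) (hLI : L ≤ I * J) (hM : 1 ≤ M) (τ ξ : K)
    (hξ : v (ξ - 1) ≤ 1 / M) (hτ : v (τ - 1) ≤ 1 / M ^ (I * J)) :
    v (Vl c n I J l (τ * ξ ^ n) ξ) ≤
      (I * J : ℕ) * B * (2 ^ (n * I)) ^ 3 * ((n * I : ℕ) * 2 ^ (I + 1)) / M ^ (L - l) := by
  have hM0 : 0 < M := by linarith
  rw [← InfinitePlace.norm_embedding_eq, map_Vl, map_mul, map_pow, Vl_split]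
  obtain ⟨x, hx⟩ : ∃ x : ℂ, x = v.embedding ξ := ⟨_, rfl⟩
  obtain ⟨t, ht⟩ : ∃ t : ℂ, t = v.embedding τ := ⟨_, rfl⟩
  have hx1 : ‖x - 1‖ ≤ 1 / M := by
    rw [← InfinitePlace.norm_embedding_eq, map_sub, map_one] at hξ
    rw [hx]; exact hξ
  have ht1 : ‖t - 1‖ ≤ 1 / M ^ (I * J) := by
    rw [← InfinitePlace.norm_embedding_eq, map_sub, map_one] at hτ
    rw [ht]; exact hτ
  rw [← hx, ← ht]
  have hnear : ∀ y : ℂ, ‖y - 1‖ ≤ 1 → ‖y‖ ≤ 2 := fun y hy => by
    have h1 : ‖y‖ ≤ ‖y - 1‖ + ‖(1 : ℂ)‖ := by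
      have := norm_add_le (y - 1) 1
      simpa using this
    rw [norm_one] at h1
    linarith
  have hx2 : ‖x‖ ≤ 2 := hnear x (hx1.trans (by rw [div_le_one hM0]; exact hM))
  have ht2 : ‖t‖ ≤ 2 := hnear t (ht1.trans (by
    rw [div_le_one (by positivity)]; exact one_le_pow₀ hM))
  have h1 := cx_small c n I J L l hJn B M x hB hc hz hM hx1 hx2
  have h2 := cx_tau c n I J l hJn B x t hB hc hx2 ht2
  have h3 : ‖t - 1‖ ≤ 1 / M ^ (L - l) := by
    refine ht1.trans ?_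
    rw [div_le_div_iff_of_pos_left one_pos (by positivity) (by positivity)]
    exact pow_le_pow_right₀ hM (by omega)
  have hn : 1 ≤ n ∨ J = 0 := by omega
  refine (norm_add_le _ _).trans ?_
  rcases hn with hn | hJ0
  · have h4 : ((n * I : ℕ) : ℝ) + (I : ℝ) * 2 ^ I ≤ ((n * I : ℕ) : ℝ) * 2 ^ (I + 1) := by
      have h5 : (I : ℝ) ≤ ((n * I : ℕ) : ℝ) := by exact_mod_cast Nat.le_mul_of_pos_left I hn
      have h6 : (1 : ℝ) ≤ 2 ^ I := one_le_pow₀ (by norm_num)
      have h7 : (0 : ℝ) ≤ ((n * I : ℕ) : ℝ) := Nat.cast_nonneg _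
      have h8 : (0 : ℝ) < 2 ^ I := by positivity
      rw [pow_succ]
      nlinarith [mul_le_mul_of_nonneg_right h5 h8.le, mul_le_mul_of_nonneg_left h6 h7]
    have h9 : (I * J : ℕ) * B * (2 ^ (n * I)) ^ 2 * (I * 2 ^ I) * ‖t - 1‖ ≤
        (I * J : ℕ) * B * (2 ^ (n * I)) ^ 3 * (I * 2 ^ I) * (1 / M ^ (L - l)) := by
      have h10 : (2 ^ (n * I) : ℝ) ^ 2 ≤ (2 ^ (n * I)) ^ 3 :=
        pow_le_pow_right₀ (one_le_pow₀ (by norm_num)) (by norm_num)
      gcongr
    have h11 : 0 ≤ ((I * J : ℕ) : ℝ) * B * (2 ^ (n * I)) ^ 3 := by positivity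
    have h12 : 0 < 1 / M ^ (L - l) := by positivity
    calc _ ≤ (n * I : ℕ) * (I * J : ℕ) * B * (2 ^ (n * I)) ^ 3 / M ^ (L - l) +
          (I * J : ℕ) * B * (2 ^ (n * I)) ^ 3 * (I * 2 ^ I) * (1 / M ^ (L - l)) :=
          add_le_add h1 (h2.trans h9)
      _ = ((I * J : ℕ) : ℝ) * B * (2 ^ (n * I)) ^ 3 * (((n * I : ℕ) : ℝ) + (I : ℝ) * 2 ^ I) *
          (1 / M ^ (L - l)) := by ring
      _ ≤ ((I * J : ℕ) : ℝ) * B * (2 ^ (n * I)) ^ 3 * (((n * I : ℕ) : ℝ) * 2 ^ (I + 1)) *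
          (1 / M ^ (L - l)) :=
          mul_le_mul_of_nonneg_right (mul_le_mul_of_nonneg_left h4 h11) h12.le
      _ = _ := by ring
  · subst hJ0
    simp

end AbcRadK
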