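import Pool.Agent.Work.MP_a793bb_nt.RadK.NonvanK
import Pool.Agent.Work.MP_a793bb_nt.RadK.SizeK
import Pool.Agent.Work.MP_a793bb_nt.RadK.SmallK
import Pool.Agent.Work.MP_a793bb_nt.RadK.HtEq
import Pool.Agent.Work.MP_a793bb_nt.Rad.Siegel

/-!
# Main lemma over a number field, one infinite place

Proof. As `main_fin`, but at the infinite place `v₀` the bound of `inf_small`
`log (v₀ V) ≤ log E - (L - l) log M`, `E = I J B 2 ^ (3 n I) n I 2 ^ (I + 1)`, is used, and
`inf_size` at the other infinite places, `fin_size` at all primes. Here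
`log E ≤ 12 (log (n I) + n I log 2)` (as in `main_real`) and also
`log (I J B 2 ^ (n I)) ≤ 12 (log (n I) + n I log 2)`. Since `mult v₀ ≥ 1`, `log M ≥ 0`:
`(L - l) log M ≤ 12 d (log (n I) + n I log 2) + I logHeight₁ t + J logHeight₁ ξ`, and
`2 (L - l) ≥ I J`.
-/

set_option autoImplicit false

namespace AbcRadK

open Finset AbcRad Pool.Agent.Work.MP_a793bb_nt Pool.Agent.Work.MP_a793bb_nt.BPlus NumberField
  IsDedekindDomain Height

variable {K : Type*} [Field K] [NumberField K]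

private theorem mi_bound {x C a b : ℝ} {I J : ℕ} (hx : 0 < x) (hC : 0 < C)
    (h : x ≤ C * max 1 a ^ (I - 1) * max 1 b ^ (J - 1)) :
    Real.log x ≤ Real.log C + I * Real.log (max 1 a) + J * Real.log (max 1 b) := by
  have ha : (1 : ℝ) ≤ max 1 a := le_max_left _ _
  have hb : (1 : ℝ) ≤ max 1 b := le_max_left _ _
  have ha0 : (0 : ℝ) < max 1 a := by linarith
  have hb0 : (0 : ℝ) < max 1 b := by linarith
  have h1 := Real.log_le_log hx h
  rw [Real.log_mul (by positivity) (by positivity), Real.log_mul (by positivity) (by positivity),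
    Real.log_pow, Real.log_pow] at h1
  have hla : 0 ≤ Real.log (max 1 a) := Real.log_nonneg ha
  have hlb : 0 ≤ Real.log (max 1 b) := Real.log_nonneg hb
  have hI : ((I - 1 : ℕ) : ℝ) ≤ I := by exact_mod_cast Nat.sub_le I 1
  have hJ : ((J - 1 : ℕ) : ℝ) ≤ J := by exact_mod_cast Nat.sub_le J 1
  have h2 := mul_le_mul_of_nonneg_right hI hla
  have h3 := mul_le_mul_of_nonneg_right hJ hlb
  linarith

theorem main_inf (n I J : ℕ) (hJ8 : 8 ≤ J) (hJn : J ≤ n) (hI : 2 ≤ I) (v₀ : InfinitePlace K)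
    (M : ℝ) (hM : 1 ≤ M) (τ ξ : K) (hτ0 : τ ≠ 0) (hξ0 : ξ ≠ 0)
    (hroot : ∀ i : ℕ, 0 < i → i < I → τ ^ i ≠ 1)
    (hξ : v₀ (ξ - 1) ≤ 1 / M) (hτ : v₀ (τ - 1) ≤ 1 / M ^ (I * J)) :
    (I * J : ℕ) * Real.log M ≤
      2 * (12 * (Module.finrank ℚ K : ℝ) *
          (Real.log ((n * I : ℕ) : ℝ) + (n * I : ℕ) * Real.log 2) +
        I * logHeight₁ (τ * ξ ^ n) + J * logHeight₁ ξ) := by
  classical
  obtain ⟨P, hP⟩ : ∃ P, P = I * J := ⟨_, rfl⟩
  obtain ⟨L, hL⟩ : ∃ L, L = I * J - (I * J + 7) / 8 := ⟨_, rfl⟩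
  have h2J : 2 * J ≤ P := by rw [hP]; exact Nat.mul_le_mul_right J hI
  have h8I : 8 * I ≤ P := by rw [hP, mul_comm I J]; exact Nat.mul_le_mul_right I hJ8
  have hL' : L = P - (P + 7) / 8 := by rw [hL, hP]
  have hJL : J ≤ L := by omega
  have hLP : L ≤ I * J := by omega
  obtain ⟨c, hc0, hcz, hcB⟩ := siegel n I J L hJ8 hJn (by omega) hL
  obtain ⟨l, hl, hV⟩ := nonvanish_field c n I J L hJn hJL hI hLP hc0 hcz τ ξ hξ0 hτ0 hroot
  have hl' : l + L + 2 ≤ P + I := by
    have : I * (J + 1) = P + I := by rw [hP]; ring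
    omega
  have hlL : l ≤ L := by omega
  have hM0 : 0 < M := by linarith
  set t : K := τ * ξ ^ n with ht
  have ht0 : t ≠ 0 := mul_ne_zero hτ0 (pow_ne_zero _ hξ0)
  set V : K := Vl c n I J l t ξ with hVd
  obtain ⟨B, hBd⟩ : ∃ B : ℝ, B = (((I * J : ℕ) : ℝ) * (2 : ℝ) ^ (n * I)) ^ 7 := ⟨_, rfl⟩
  rw [← hBd] at hcB
  have hB0 : 0 ≤ B := by rw [hBd]; positivity
  -- constants
  obtain ⟨W, hWd⟩ : ∃ W : ℝ, W = (2 : ℝ) ^ (n * I) := ⟨_, rfl⟩
  obtain ⟨N, hNd⟩ : ∃ N : ℝ, N = ((n * I : ℕ) : ℝ) := ⟨_, rfl⟩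
  obtain ⟨k, hkd⟩ : ∃ k : ℝ, k = ((I * J : ℕ) : ℝ) := ⟨_, rfl⟩
  have hnI : (1 : ℝ) ≤ N := by
    rw [hNd]
    exact_mod_cast Nat.mul_pos (by omega : 0 < n) (by omega : 0 < I)
  have hW2 : (2 : ℝ) ≤ W := by
    rw [hWd]
    calc (2 : ℝ) = 2 ^ 1 := by norm_num
      _ ≤ 2 ^ (n * I) := pow_le_pow_right₀ (by norm_num)
          (Nat.mul_pos (by omega : 0 < n) (by omega : 0 < I))
  have hk0 : 0 < k := by
    rw [hkd]
    exact_mod_cast Nat.mul_pos (by omega : 0 < I) (by omega : 0 < J)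
  have hkN : k ≤ N := by
    rw [hkd, hNd]
    have : I * J ≤ n * I := by rw [mul_comm n I]; exact Nat.mul_le_mul_left I hJn
    exact_mod_cast this
  have hW0 : 0 < W := by linarith
  have hN0 : 0 < N := by linarith
  have hBp : 0 < B := by rw [hBd, ← hkd, ← hWd]; positivity
  obtain ⟨A, hAd⟩ : ∃ A : ℝ, A = 12 * (Real.log N + (n * I : ℕ) * Real.log 2) := ⟨_, rfl⟩
  have hA : Real.log ((N * W) ^ 12) = A := by
    rw [Real.log_pow, Real.log_mul hN0.ne' hW0.ne', hWd, Real.log_pow, hAd]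
    norm_num
  have hI1 : (2 : ℝ) ^ (I + 1) ≤ W := by
    rw [hWd]
    refine pow_le_pow_right₀ (by norm_num) ?_
    have h1 : 2 * I ≤ n * I := Nat.mul_le_mul_right I (by omega)
    omega
  have hW1 : 1 ≤ W := by linarith
  have hE1 : k * B * W ≤ (N * W) ^ 12 := by
    rw [hBd, ← hkd, ← hWd]
    calc k * (k * W) ^ 7 * W = k ^ 8 * W ^ 8 := by ring
      _ ≤ N ^ 8 * W ^ 8 := by gcongr
      _ = N ^ 8 * W ^ 8 * 1 := by ring
      _ ≤ N ^ 8 * W ^ 8 * (N ^ 4 * W ^ 4) := by
          have h1 : 1 ≤ N ^ 4 * W ^ 4 :=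
            one_le_mul_of_one_le_of_one_le (one_le_pow₀ hnI) (one_le_pow₀ hW1)
          gcongr
      _ = (N * W) ^ 12 := by ring
  have hE2 : k * B * W ^ 3 * (N * 2 ^ (I + 1)) ≤ (N * W) ^ 12 := by
    rw [hBd, ← hkd, ← hWd]
    calc k * (k * W) ^ 7 * W ^ 3 * (N * 2 ^ (I + 1)) = k ^ 8 * N * W ^ 10 * 2 ^ (I + 1) := by ring
      _ ≤ N ^ 8 * N * W ^ 10 * W := by gcongr
      _ = N ^ 9 * W ^ 11 * 1 := by ring
      _ ≤ N ^ 9 * W ^ 11 * (N ^ 3 * W) := by
          have h1 : 1 ≤ N ^ 3 * W :=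
            one_le_mul_of_one_le_of_one_le (one_le_pow₀ hnI) hW1
          gcongr
      _ = (N * W) ^ 12 := by ring
  have hA1 : Real.log (k * B * W) ≤ A := by
    rw [← hA]
    exact Real.log_le_log (by positivity) hE1
  have hA2 : Real.log (k * B * W ^ 3 * (N * 2 ^ (I + 1))) ≤ A := by
    rw [← hA]
    exact Real.log_le_log (by positivity) hE2
  -- infinite places
  have hlogM : 0 ≤ Real.log M := Real.log_nonneg hM
  have hplace : ∀ v : InfinitePlace K, Real.log (v V) ≤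
      A + I * Real.log (max 1 (v t)) + J * Real.log (max 1 (v ξ)) -
        (if v = v₀ then ((L - l : ℕ) : ℝ) * Real.log M else 0) := by
    intro v
    have hVpos : 0 < v V := InfinitePlace.pos_iff.mpr hV
    by_cases hv : v = v₀
    · rw [if_pos hv]
      have h1 := inf_small v c n I J L l hJn (by omega) B M hB0 hcB hcz hlL hLP hM τ ξ
        (by rw [hv]; exact hξ) (by rw [hv]; exact hτ)
      rw [← hkd, ← hNd, ← hWd, ← ht, ← hVd] at h1
      have h2 := Real.log_le_log hVpos h1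
      rw [Real.log_div (by positivity) (by positivity), Real.log_pow] at h2
      have h3 : 0 ≤ I * Real.log (max 1 (v t)) :=
        mul_nonneg (Nat.cast_nonneg I) (Real.log_nonneg (le_max_left _ _))
      have h4 : 0 ≤ J * Real.log (max 1 (v ξ)) :=
        mul_nonneg (Nat.cast_nonneg J) (Real.log_nonneg (le_max_left _ _))
      linarith
    · rw [if_neg hv]
      have h1 := inf_size v c n I J l hJn B hB0 hcB t ξ
      rw [← hkd, ← hWd, ← hVd] at h1
      have h2 := mi_bound hVpos (by positivity) h1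
      linarith
  have hmult : ∀ v : InfinitePlace K, (1 : ℝ) ≤ v.mult := fun v => by
    exact_mod_cast (InfinitePlace.mult_pos (w := v) : 0 < v.mult)
  have hd : ∑ v : InfinitePlace K, (v.mult : ℝ) = (Module.finrank ℚ K : ℝ) := by
    exact_mod_cast InfinitePlace.sum_mult_eq (K := K)
  have hinf : ∑ v : InfinitePlace K, (v.mult : ℝ) * Real.log (v V) ≤
      (Module.finrank ℚ K : ℝ) * A +
        I * (∑ v : InfinitePlace K, (v.mult : ℝ) * Real.log (max 1 (v t))) +
        J * (∑ v : InfinitePlace K, (v.mult : ℝ) * Real.log (max 1 (v ξ))) -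
        ((L - l : ℕ) : ℝ) * Real.log M := by
    have h1 : ∑ v : InfinitePlace K, (v.mult : ℝ) * Real.log (v V) ≤
        ∑ v : InfinitePlace K, (v.mult : ℝ) *
          (A + I * Real.log (max 1 (v t)) + J * Real.log (max 1 (v ξ)) -
        (if v = v₀ then ((L - l : ℕ) : ℝ) * Real.log M else 0)) :=
      Finset.sum_le_sum fun v _ => mul_le_mul_of_nonneg_left (hplace v) (by positivity)
    have h2 : ∑ v : InfinitePlace K, (v.mult : ℝ) *
          (A + I * Real.log (max 1 (v t)) + J * Real.log (max 1 (v ξ)) -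
        (if v = v₀ then ((L - l : ℕ) : ℝ) * Real.log M else 0)) =
        (∑ v : InfinitePlace K, (v.mult : ℝ)) * A +
        I * (∑ v : InfinitePlace K, (v.mult : ℝ) * Real.log (max 1 (v t))) +
        J * (∑ v : InfinitePlace K, (v.mult : ℝ) * Real.log (max 1 (v ξ))) -
        ∑ v : InfinitePlace K, (v.mult : ℝ) *
          (if v = v₀ then ((L - l : ℕ) : ℝ) * Real.log M else 0) := by
      rw [Finset.sum_mul, Finset.mul_sum, Finset.mul_sum, ← Finset.sum_add_distrib,
        ← Finset.sum_add_distrib, ← Finset.sum_sub_distrib]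
      refine Finset.sum_congr rfl fun v _ => ?_
      ring
    have h3 : ((L - l : ℕ) : ℝ) * Real.log M ≤ ∑ v : InfinitePlace K, (v.mult : ℝ) *
          (if v = v₀ then ((L - l : ℕ) : ℝ) * Real.log M else 0) := by
      have h4 : (0 : ℝ) ≤ ((L - l : ℕ) : ℝ) * Real.log M := by positivity
      calc ((L - l : ℕ) : ℝ) * Real.log M ≤ (v₀.mult : ℝ) *
            (if v₀ = v₀ then ((L - l : ℕ) : ℝ) * Real.log M else 0) := by
            rw [if_pos rfl]
            have := mul_le_mul_of_nonneg_right (hmult v₀) h4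
            linarith
        _ ≤ _ := by
            refine Finset.single_le_sum (f := fun v : InfinitePlace K => (v.mult : ℝ) *
              (if v = v₀ then ((L - l : ℕ) : ℝ) * Real.log M else 0)) (fun v _ => ?_)
              (Finset.mem_univ v₀)
            refine mul_nonneg (by positivity) ?_
            split_ifs
            · exact h4
            · exact le_rfl
    rw [h2, hd] at h1
    linarith
  -- finite places
  set T : Finset (HeightOneSpectrum (𝓞 K)) := (finite_av_ne_one hV).toFinset ∪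
    ((finite_av_ne_one ht0).toFinset ∪ (finite_av_ne_one hξ0).toFinset) with hT
  have hTV : ∀ p, av p V ≠ 1 → p ∈ T := fun p hp =>
    Finset.mem_union_left _ ((finite_av_ne_one hV).mem_toFinset.mpr hp)
  have hTt : ∀ p, 1 < av p t → p ∈ T := fun p hp =>
    Finset.mem_union_right _ (Finset.mem_union_left _
      ((finite_av_ne_one ht0).mem_toFinset.mpr hp.ne'))
  have hTξ : ∀ p, 1 < av p ξ → p ∈ T := fun p hp =>
    Finset.mem_union_right _ (Finset.mem_union_right _
      ((finite_av_ne_one hξ0).mem_toFinset.mpr hp.ne'))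
  have hfin : ∑ p ∈ T, Real.log (av p V) ≤ I * (∑ p ∈ T, Real.log (max 1 (av p t))) +
      J * (∑ p ∈ T, Real.log (max 1 (av p ξ))) := by
    rw [Finset.mul_sum, Finset.mul_sum, ← Finset.sum_add_distrib]
    refine Finset.sum_le_sum fun p _ => ?_
    have h1 := fin_size p c n I J l t ξ
    rw [← hVd] at h1
    have h2 := mi_bound (av_pos p hV) one_pos (by rw [one_mul]; exact h1)
    rw [Real.log_one] at h2
    linarith
  have hprod := prodFormula_log hV T hTV
  have hht := ht_eq t T hTt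
  have hhξ := ht_eq ξ T hTξ
  have hfinal : ((L - l : ℕ) : ℝ) * Real.log M ≤ (Module.finrank ℚ K : ℝ) * A +
      I * logHeight₁ t + J * logHeight₁ ξ := by
    rw [hht, hhξ]
    have e1 : (I : ℝ) * (∑ v : InfinitePlace K, (v.mult : ℝ) * Real.log (max 1 (v t)) +
        ∑ p ∈ T, Real.log (max 1 (av p t))) =
        I * (∑ v : InfinitePlace K, (v.mult : ℝ) * Real.log (max 1 (v t))) +
        I * (∑ p ∈ T, Real.log (max 1 (av p t))) := by ring
    have e2 : (J : ℝ) * (∑ v : InfinitePlace K, (v.mult : ℝ) * Real.log (max 1 (v ξ)) +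
        ∑ p ∈ T, Real.log (max 1 (av p ξ))) =
        J * (∑ v : InfinitePlace K, (v.mult : ℝ) * Real.log (max 1 (v ξ))) +
        J * (∑ p ∈ T, Real.log (max 1 (av p ξ))) := by ring
    rw [e1, e2]
    linarith
  have h2L : (I * J : ℕ) * Real.log M ≤ 2 * (((L - l : ℕ) : ℝ) * Real.log M) := by
    have h1 : (I * J : ℕ) ≤ 2 * (L - l) := by omega
    have h2 : ((I * J : ℕ) : ℝ) ≤ 2 * ((L - l : ℕ) : ℝ) := by exact_mod_cast h1
    have := mul_le_mul_of_nonneg_right h2 hlogM
    linarith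
  have hAeq : (Module.finrank ℚ K : ℝ) * A = 12 * (Module.finrank ℚ K : ℝ) *
      (Real.log ((n * I : ℕ) : ℝ) + (n * I : ℕ) * Real.log 2) := by
    rw [hAd, hNd]; ring
  rw [hAeq] at hfinal
  linarith

end AbcRadK
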