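import Pool.Agent.Work.MP_a793bb_nt.RadK.PairK
import Pool.Agent.Work.MP_a793bb_nt.RadK.MainInf

/-!
# Two elements of an archimedean cell differ by a root of unity

Proof. Suppose `(u' / u) ^ i ≠ 1` for all `i > 0`. Apply `main_inf` with `M = exp (δ ℓ) ≥ 1`,
`τ = u' / u`, and `ξ / ξ'` in place of `ξ`. With `η = 2 exp (- Q / (2 d)) ≤ 2 exp (-4) ≤ 1 / 2`,
`v (u' - u) ≤ 2 η`, `v u ≥ 1 / 2`, so `v (τ - 1) ≤ 4 η = 8 exp (- Q / (2 d)) ≤ exp (- Q / (8 d))`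
(since `3 Q / (8 d) ≥ 3 > log 8`) `≤ exp (- L0 δ ℓ) ≤ exp (- I J δ ℓ) = 1 / M ^ (I J)` by
`ParK.hL0`, `ParK.hIJ`. The conclusion of `main_inf` and `pair_heights` contradict `ParK.key`.
-/

set_option autoImplicit false

namespace AbcRadK

open Finset AbcRad Pool.Agent.Work.MP_a793bb_nt Pool.Agent.Work.MP_a793bb_nt.BPlus NumberField
  IsDedekindDomain Height

variable {K : Type*} [Field K] [NumberField K]

private theorem inf_tau {Q : ℝ} {L : ℕ} {y : ℝ} (hQ : 8 * (Module.finrank ℚ K : ℝ) ≤ Q)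
    (hL : (L : ℝ) * y ≤ Q / (8 * (Module.finrank ℚ K : ℝ))) (v₀ : InfinitePlace K) (u u' : K)
    (hu0 : u ≠ 0)
    (hc : v₀ (u - 1) ≤ 2 * Real.exp (-(Q / (2 * (Module.finrank ℚ K : ℝ)))))
    (hc' : v₀ (u' - 1) ≤ 2 * Real.exp (-(Q / (2 * (Module.finrank ℚ K : ℝ))))) :
    v₀ (u' / u - 1) ≤ Real.exp (-(L * y)) := by
  have hd : (0 : ℝ) < Module.finrank ℚ K := by exact_mod_cast Module.finrank_pos
  set d : ℝ := (Module.finrank ℚ K : ℝ) with hdd
  set E : ℝ := Real.exp (-(Q / (2 * d))) with hE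
  have hQd : 8 ≤ Q / d := by
    rw [le_div_iff₀ hd]
    exact hQ
  have h1 : Q / (2 * d) = Q / d / 2 := by
    rw [div_div, mul_comm]
  have h2 : Q / (8 * d) = Q / d / 8 := by
    rw [div_div, mul_comm]
  have hE4 : E ≤ 1 / 4 := by
    have h3 : E ≤ Real.exp (-2) := by
      rw [hE, Real.exp_le_exp, h1]
      linarith
    have h4 : (4 : ℝ) ≤ Real.exp 2 := by
      have h5 := Real.add_one_le_exp (1 : ℝ)
      have h6 : Real.exp 2 = Real.exp 1 * Real.exp 1 := by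
        rw [← Real.exp_add]
        norm_num
      rw [h6]
      nlinarith
    rw [Real.exp_neg] at h3
    refine h3.trans ?_
    rw [one_div]
    exact inv_anti₀ (by norm_num) h4
  have hE0 : 0 < E := Real.exp_pos _
  have hvu : 1 / 2 ≤ v₀ u := by
    rw [← InfinitePlace.norm_embedding_eq] at hc ⊢
    rw [map_sub, map_one] at hc
    have h3 : ‖(1 : ℂ)‖ ≤ ‖v₀.embedding u‖ + ‖v₀.embedding u - 1‖ := by
      have e : (1 : ℂ) = v₀.embedding u - (v₀.embedding u - 1) := by ring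
      conv_lhs => rw [e]
      exact norm_sub_le _ _
    rw [norm_one] at h3
    linarith
  have hnum : v₀ (u' - u) ≤ 4 * E := by
    have e : u' - u = (u' - 1) - (u - 1) := by ring
    rw [← InfinitePlace.norm_embedding_eq] at hc hc' ⊢
    rw [e, map_sub]
    refine (norm_sub_le _ _).trans ?_
    linarith
  have h8 : v₀ (u' / u - 1) ≤ 8 * E := by
    have e : u' / u - 1 = (u' - u) / u := by
      field_simp
    rw [e, map_div₀, div_le_iff₀ (by linarith)]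
    nlinarith
  refine h8.trans ?_
  have h9 : (8 : ℝ) ≤ Real.exp 3 := by
    have h5 := Real.add_one_le_exp (1 : ℝ)
    have h6 : Real.exp 3 = Real.exp 1 * Real.exp 1 * Real.exp 1 := by
      rw [← Real.exp_add, ← Real.exp_add]
      norm_num
    rw [h6]
    have h7 : (4 : ℝ) ≤ Real.exp 1 * Real.exp 1 := by nlinarith
    nlinarith
  calc 8 * E ≤ Real.exp 3 * E := mul_le_mul_of_nonneg_right h9 hE0.le
    _ = Real.exp (3 - Q / (2 * d)) := by
      rw [hE, ← Real.exp_add]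
      congr 1
    _ ≤ Real.exp (-(L * y)) := by
      rw [Real.exp_le_exp]
      rw [h2] at hL
      rw [h1]
      linarith

theorem cellRK (δ κ ℓ Q C : ℝ) (n I J L0 : ℕ)
    (hP : ParK (Module.finrank ℚ K) δ κ ℓ Q n I J L0) (v₀ : InfinitePlace K) (u u' : K)
    (hu : BaseK δ κ ℓ Q n u) (hu' : BaseK δ κ ℓ Q n u') (hlab : SameLab δ κ ℓ n u u')
    (b : Ideal (𝓞 K)) (ξ ξ' : K) (hd : Dec C n u b ξ) (hd' : Dec C n u' b ξ')
    (harch : ∀ v : InfinitePlace K, ⌊(Real.log (v ξ) - Real.log (v u) / n) / (κ * ℓ)⌋ =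
      ⌊(Real.log (v ξ') - Real.log (v u') / n) / (κ * ℓ)⌋)
    (hc : v₀ (u - 1) ≤ 2 * Real.exp (-(Q / (2 * (Module.finrank ℚ K : ℝ)))))
    (hc' : v₀ (u' - 1) ≤ 2 * Real.exp (-(Q / (2 * (Module.finrank ℚ K : ℝ)))))
    (hcl : v₀ (ξ / ξ' - 1) ≤ Real.exp (-(δ * ℓ))) :
    ∃ i : ℕ, 0 < i ∧ (u' / u) ^ i = 1 := by
  by_contra hcon
  push Not at hcon
  have hn : 1 ≤ n := by
    have h1 := hP.hJ8
    have h2 := hP.hJn
    omega
  have hℓ : 0 < ℓ := lt_of_lt_of_le one_pos hP.hℓ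
  have hδℓ : 0 < δ * ℓ := mul_pos hP.hδ hℓ
  obtain ⟨h1, h2⟩ := pair_heights δ κ ℓ Q C n hn hP.hκ hℓ u u' hu hu' hlab b ξ ξ' hd hd' harch
  have h3 := main_inf n I J hP.hJ8 hP.hJn hP.hI v₀ (Real.exp (δ * ℓ)) (Real.one_le_exp hδℓ.le)
    (u' / u) (ξ / ξ') (div_ne_zero hu'.ne0 hu.ne0) (div_ne_zero hd.ne0 hd'.ne0)
    (fun i hi _ => hcon i hi) (by
      rw [one_div, ← Real.exp_neg]
      exact hcl) (by
      have h4 := inf_tau (L := L0) (y := δ * ℓ) hP.hQ hP.hL0 v₀ u u' hu.ne0 hc hc'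
      refine h4.trans ?_
      rw [one_div, ← Real.exp_nat_mul, ← Real.exp_neg, Real.exp_le_exp, neg_le_neg_iff]
      refine mul_le_mul_of_nonneg_right ?_ hδℓ.le
      exact_mod_cast hP.hIJ)
  rw [Real.log_exp] at h3
  have hkey := hP.key
  have h5 : (I : ℝ) * logHeight₁ ((u' / u) * (ξ / ξ') ^ n) ≤
      I * ((2 + (Module.finrank ℚ K : ℝ)) * (κ * n) * ℓ) :=
    mul_le_mul_of_nonneg_left h1 (Nat.cast_nonneg _)
  have h6 : (J : ℝ) * logHeight₁ (ξ / ξ') ≤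
      J * (24 * Q / n + (Module.finrank ℚ K : ℝ) * κ * ℓ) :=
    mul_le_mul_of_nonneg_left h2 (Nat.cast_nonneg _)
  linarith

end AbcRadK
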