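import Pool.Agent.Work.MP_a793bb_nt.RadK.SuppK
import Pool.Agent.Work.MP_a793bb_nt.Rad.CountP

/-!
# Ranges of the labels

Auxiliary lemmas for the two counts of labels.
-/

set_option autoImplicit false

namespace AbcRadK

open Finset AbcRad Pool.Agent.Work.MP_a793bb_nt Pool.Agent.Work.MP_a793bb_nt.BPlus NumberField
  IsDedekindDomain Height

variable {K : Type*} [Field K] [NumberField K]

theorem sum_ex_lN {M : Ideal (𝓞 K)} (hM : M ≠ ⊥) :
    ∑ p ∈ (finite_dvd hM).toFinset, (ex M p : ℝ) * lN p = Real.log (Ideal.absNorm M) := by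
  rw [absNorm_prod_ex hM (finite_dvd hM).toFinset
    (fun p hp => (Set.Finite.mem_toFinset (finite_dvd hM)).2 hp), Real.log_prod]
  · refine Finset.sum_congr rfl fun p _ => ?_
    rw [Real.log_pow]
    rfl
  · intro p _
    have := two_le_Np p
    positivity

theorem omega_range (C κ ℓ x : ℝ) (hC : 0 ≤ C) (hκ : 0 < κ) (hℓ : 1 ≤ ℓ) (hx : |x| ≤ C + ℓ) :
    ⌊x / (κ * ℓ)⌋ ∈ Icc (-(⌈(C + 1) / κ⌉₊ : ℤ)) (⌈(C + 1) / κ⌉₊ : ℤ) := by
  have hℓ0 : 0 < ℓ := by linarith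
  have h3 : |x / (κ * ℓ)| ≤ (C + 1) / κ := by
    rw [abs_div, abs_of_pos (mul_pos hκ hℓ0), div_le_div_iff₀ (mul_pos hκ hℓ0) hκ]
    have h4 : |x| ≤ (C + 1) * ℓ := by nlinarith
    nlinarith [mul_le_mul_of_nonneg_right h4 hκ.le]
  have h4 : ((C + 1) / κ : ℝ) ≤ ⌈(C + 1) / κ⌉₊ := Nat.le_ceil _
  rw [abs_le] at h3
  rw [Finset.mem_Icc]
  constructor
  · rw [Int.le_floor]
    push_cast
    linarith [h3.1]
  · have h5 : (⌊x / (κ * ℓ)⌋ : ℝ) ≤ (⌈(C + 1) / κ⌉₊ : ℝ) :=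
      (Int.floor_le _).trans (h3.2.trans h4)
    exact_mod_cast h5

theorem fiber_bound {β : Type*} [DecidableEq β] (w : ℕ)
    (hw : ∀ F : Finset K, (∀ x ∈ F, x ≠ 0) →
      (∀ x ∈ F, ∀ y ∈ F, ∃ i : ℕ, 0 < i ∧ (y / x) ^ i = 1) → F.card ≤ w)
    (F : Finset K) (h0 : ∀ x ∈ F, x ≠ 0) (t : Finset β) (f : K → β) (hf : ∀ x ∈ F, f x ∈ t)
    (h : ∀ x ∈ F, ∀ y ∈ F, f x = f y → ∃ i : ℕ, 0 < i ∧ (y / x) ^ i = 1) :
    F.card ≤ w * t.card := by
  classical
  refine Finset.card_le_mul_card_image_of_maps_to hf w ?_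
  intro b _
  refine hw _ ?_ ?_
  · intro x hx
    exact h0 x (Finset.mem_filter.1 hx).1
  · intro x hx y hy
    rw [Finset.mem_filter] at hx hy
    exact h x hx.1 y hy.1 (hx.2.trans hy.2.symm)

/-- A prime which divides `1 - u` does not divide `u`. -/
theorem kp_zero_of_one_sub {u : K} (hu : u ≠ 0) (p : HeightOneSpectrum (𝓞 K))
    (h : 0 < kp p (1 - u)) : kp p u = 0 := by
  have h1 : (1 : K) - u ≠ 0 := by
    intro h2
    rw [h2] at h
    simp [kp] at h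
  have h2 : av p (1 - u) < 1 := (av_lt_one_iff_kp p h1).2 h
  have h3 := av_one_sub_eq_of_lt p h2
  rw [sub_sub_cancel] at h3
  exact (av_one_iff_kp p hu).1 h3

theorem card_pi_Icc {α : Type*} [DecidableEq α] (D : Finset α) (c : ℕ) :
    (D.pi (fun _ => Icc (-(c : ℤ)) (c : ℤ))).card = (2 * c + 1) ^ D.card := by
  rw [Finset.card_pi, Finset.prod_const, Int.card_Icc]
  congr 1
  omega

theorem card_piF_Icc {α : Type*} [DecidableEq α] [Fintype α] (c : ℕ) :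
    (Fintype.piFinset (fun _ : α => Icc (-(c : ℤ)) (c : ℤ))).card =
      (2 * c + 1) ^ Fintype.card α := by
  rw [Fintype.card_piFinset, Finset.prod_const, Int.card_Icc, Finset.card_univ]
  congr 1
  omega

end AbcRadK
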