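import Pool.Agent.Work.MP_a793bb_nt.RadK.DefsK

/-!
# Sums over labels

Proofs. A finite set `D` of primes is determined by the ideal `ID = ∏_{p ∈ D} p` of norm
`exp (lsum D)`, whose prime divisors are the elements of `D`. By `pow_card_dvd_le`
(`RadCount.lean`) `A ^ D.card ≤ C exp (η lsum D)` (use `η / 2`). By `card_idealsLe` there are at
most `C X` ideals of norm at most `X`. `sum_setsK`: at most `C exp Y` sets `D` with
`lsum D ≤ Y`. `sum_pairsK`: for a fixed `D`, the sum of `N(M)` over the ideals with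
`N(M) ^ 2 ≤ exp (Y - lsum D) =: Z ^ 2` is at most `Z * (C Z) = C exp (Y - lsum D)`; the sum of
`exp (- lsum D) ≤ 1 / N(ID)` over the `D` with `lsum D ≤ Y` is at most `C (1 + Y)`
(`sum_inv_absNorm_le`, `PairCount.lean`), and `1 + Y ≤ C exp (η Y / 2)`.
(All the elements of `P` have `lsum D ≤ Y` because `log N(M) ≥ 0`.)
-/

set_option autoImplicit false

namespace AbcRadK

open Finset AbcRad Pool.Agent.Work.MP_a793bb_nt Pool.Agent.Work.MP_a793bb_nt.BPlus NumberField
  IsDedekindDomain Height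

variable {K : Type*} [Field K] [NumberField K]

private noncomputable def IDk {K : Type*} [Field K] [NumberField K]
    (D : Finset (HeightOneSpectrum (𝓞 K))) : Ideal (𝓞 K) := ∏ p ∈ D, p.asIdeal

private theorem IDk_ne_bot {K : Type*} [Field K] [NumberField K]
    (D : Finset (HeightOneSpectrum (𝓞 K))) : IDk D ≠ ⊥ := by
  unfold IDk
  rw [← Ideal.zero_eq_bot, Finset.prod_ne_zero_iff]
  intro p _
  exact p.ne_bot

private theorem IDk_norm {K : Type*} [Field K] [NumberField K]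
    (D : Finset (HeightOneSpectrum (𝓞 K))) :
    (Ideal.absNorm (IDk D) : ℝ) = Real.exp (lsum D) := by
  unfold IDk lsum
  rw [map_prod, Real.exp_sum]
  push_cast
  refine Finset.prod_congr rfl fun p _ => ?_
  rw [lN, Real.exp_log]
  have := HeightOneSpectrum.one_lt_absNorm p
  exact_mod_cast (by omega : 0 < Ideal.absNorm p.asIdeal)

private theorem IDk_dvd {K : Type*} [Field K] [NumberField K]
    (D : Finset (HeightOneSpectrum (𝓞 K))) (p : HeightOneSpectrum (𝓞 K)) :
    p.asIdeal ∣ IDk D ↔ p ∈ D := by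
  unfold IDk
  constructor
  · intro h
    have hp : Prime p.asIdeal := p.prime
    rw [hp.dvd_finsetProd_iff] at h
    obtain ⟨q, hq, hpq⟩ := h
    have h2 : p.asIdeal = q.asIdeal := by
      have h3 : q.asIdeal ≤ p.asIdeal := Ideal.le_of_dvd hpq
      exact (q.isMaximal.eq_of_le p.isPrime.ne_top h3).symm
    have h4 : p = q := HeightOneSpectrum.ext h2
    rw [h4]
    exact hq
  · intro h
    exact Finset.dvd_prod_of_mem _ h

private theorem IDk_inj {K : Type*} [Field K] [NumberField K]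
    {D D' : Finset (HeightOneSpectrum (𝓞 K))} (h : IDk D = IDk D') : D = D' := by
  ext p
  rw [← IDk_dvd D p, ← IDk_dvd D' p, h]

private theorem lsum_nonneg' {K : Type*} [Field K] [NumberField K]
    (D : Finset (HeightOneSpectrum (𝓞 K))) : 0 ≤ lsum D :=
  Finset.sum_nonneg fun p _ => (lN_pos p).le

private theorem powcard_le (K : Type*) [Field K] [NumberField K] (A : ℕ) (η : ℝ) (hη : 0 < η) :
    ∃ C : ℝ, 1 ≤ C ∧ ∀ D : Finset (HeightOneSpectrum (𝓞 K)),
      (A : ℝ) ^ D.card ≤ C * Real.exp (η * lsum D) := by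
  obtain ⟨C, hC, h⟩ := pow_card_dvd_le (K := K) hη A
  refine ⟨C, hC, fun D => ?_⟩
  have h1 := h (IDk D) (IDk_ne_bot D)
  have h2 : {p : HeightOneSpectrum (𝓞 K) | p.asIdeal ∣ IDk D} = (D : Set _) := by
    ext p
    simp only [Set.mem_ofPred_eq, Finset.mem_coe]
    exact IDk_dvd D p
  rw [h2, Set.ncard_coe_finset, IDk_norm, ← Real.exp_mul, mul_comm (lsum D)] at h1
  exact h1

theorem sum_setsK (K : Type*) [Field K] [NumberField K] (A : ℕ) (η : ℝ) (hη : 0 < η) :
    ∃ C : ℝ, 1 ≤ C ∧ ∀ Y : ℝ, 0 ≤ Y → ∀ P : Finset (Finset (HeightOneSpectrum (𝓞 K))),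
      (∀ D ∈ P, lsum D ≤ Y) → ∑ D ∈ P, (A : ℝ) ^ D.card ≤ C * Real.exp ((1 + η) * Y) := by
  classical
  obtain ⟨C1, hC1, h1⟩ := powcard_le K A η hη
  obtain ⟨C2, hC2, h2⟩ := card_idealsLe K
  refine ⟨C1 * C2, by nlinarith, fun Y hY P hP => ?_⟩
  have hcard : (P.card : ℝ) ≤ C2 * Real.exp Y := by
    refine le_trans ?_ (h2 (Real.exp Y) (Real.exp_pos Y).le)
    have h3 : (P.image IDk : Set (Ideal (𝓞 K))) ⊆ idealsLe K (Real.exp Y) := by
      intro I hI
      rw [Finset.mem_coe, Finset.mem_image] at hI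
      obtain ⟨D, hD, rfl⟩ := hI
      exact ⟨IDk_ne_bot D, by rw [IDk_norm]; exact Real.exp_le_exp.2 (hP D hD)⟩
    have h4 := Set.ncard_le_ncard h3 (finite_idealsLe K (Real.exp Y))
    rw [Set.ncard_coe_finset, Finset.card_image_of_injective _ (fun _ _ h => IDk_inj h)] at h4
    exact_mod_cast h4
  calc ∑ D ∈ P, (A : ℝ) ^ D.card ≤ ∑ D ∈ P, C1 * Real.exp (η * Y) := by
        refine Finset.sum_le_sum fun D hD => (h1 D).trans ?_
        refine mul_le_mul_of_nonneg_left ?_ (by linarith)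
        exact Real.exp_le_exp.2 (mul_le_mul_of_nonneg_left (hP D hD) hη.le)
    _ = P.card * (C1 * Real.exp (η * Y)) := by rw [Finset.sum_const, nsmul_eq_mul]
    _ ≤ (C2 * Real.exp Y) * (C1 * Real.exp (η * Y)) :=
        mul_le_mul_of_nonneg_right hcard (by positivity)
    _ = C1 * C2 * Real.exp ((1 + η) * Y) := by
        rw [add_mul, one_mul, Real.exp_add]
        ring

theorem sum_pairsK (K : Type*) [Field K] [NumberField K] (A : ℕ) (η : ℝ) (hη : 0 < η) :
    ∃ C : ℝ, 1 ≤ C ∧ ∀ Y : ℝ, 0 ≤ Y →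
      ∀ P : Finset (Finset (HeightOneSpectrum (𝓞 K)) × Ideal (𝓞 K)),
      (∀ q ∈ P, q.2 ≠ ⊥ ∧ lsum q.1 + 2 * Real.log (Ideal.absNorm q.2) ≤ Y) →
      ∑ q ∈ P, (A : ℝ) ^ q.1.card * (Ideal.absNorm q.2 : ℝ) ≤ C * Real.exp ((1 + η) * Y) := by
  classical
  have hη2 : 0 < η / 2 := by linarith
  obtain ⟨C1, hC1, h1⟩ := powcard_le K A (η / 2) hη2
  obtain ⟨C2, hC2, h2⟩ := card_idealsLe K
  obtain ⟨C3, hC3, h3⟩ := sum_inv_absNorm_le K
  have hi : 0 < 2 / η := by positivity
  have h12 : 1 ≤ C1 * C2 := by nlinarith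
  have h123 : 1 ≤ C1 * C2 * C3 := by nlinarith
  refine ⟨C1 * C2 * C3 * (1 + 2 / η), by nlinarith, fun Y hY P hP => ?_⟩
  have hPD : ∀ q ∈ P, lsum q.1 ≤ Y := by
    intro q hq
    obtain ⟨hb, hle⟩ := hP q hq
    have : 0 ≤ Real.log (Ideal.absNorm q.2) := Real.log_nonneg (one_le_absNorm K hb)
    linarith
  have hstep1 : ∑ q ∈ P, (A : ℝ) ^ q.1.card * (Ideal.absNorm q.2 : ℝ) ≤
      C1 * Real.exp (η / 2 * Y) * ∑ q ∈ P, (Ideal.absNorm q.2 : ℝ) := by
    rw [Finset.mul_sum]
    refine Finset.sum_le_sum fun q hq => ?_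
    refine mul_le_mul_of_nonneg_right ?_ (by positivity)
    refine (h1 q.1).trans ?_
    refine mul_le_mul_of_nonneg_left ?_ (by linarith)
    exact Real.exp_le_exp.2 (mul_le_mul_of_nonneg_left (hPD q hq) hη2.le)
  have hfib : ∀ D ∈ P.image Prod.fst, ∑ q ∈ P.filter (fun q => q.1 = D),
      (Ideal.absNorm q.2 : ℝ) ≤ C2 * (Real.exp Y * Real.exp (-lsum D)) := by
    intro D _
    obtain ⟨Z, hZ⟩ : ∃ Z : ℝ, Z = Real.exp ((Y - lsum D) / 2) := ⟨_, rfl⟩
    have hZ0 : 0 < Z := by rw [hZ]; exact Real.exp_pos _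
    have hle : ∀ q ∈ P.filter (fun q => q.1 = D), q.2 ≠ ⊥ ∧ (Ideal.absNorm q.2 : ℝ) ≤ Z := by
      intro q hq
      rw [Finset.mem_filter] at hq
      obtain ⟨hqP, hqD⟩ := hq
      obtain ⟨hb, hle⟩ := hP q hqP
      refine ⟨hb, ?_⟩
      rw [hqD] at hle
      have hp : (0 : ℝ) < Ideal.absNorm q.2 := lt_of_lt_of_le one_pos (one_le_absNorm K hb)
      rw [hZ, ← Real.log_le_iff_le_exp hp]
      linarith
    have hc : ((P.filter (fun q => q.1 = D)).card : ℝ) ≤ C2 * Z := by
      refine le_trans ?_ (h2 Z hZ0.le)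
      have h4 : ((P.filter (fun q => q.1 = D)).image Prod.snd : Set (Ideal (𝓞 K))) ⊆
          idealsLe K Z := by
        intro I hI
        rw [Finset.mem_coe, Finset.mem_image] at hI
        obtain ⟨q, hq, rfl⟩ := hI
        exact hle q hq
      have h5 := Set.ncard_le_ncard h4 (finite_idealsLe K Z)
      rw [Set.ncard_coe_finset, Finset.card_image_of_injOn] at h5
      · exact_mod_cast h5
      · intro q hq q' hq' hqq
        rw [Finset.mem_coe, Finset.mem_filter] at hq hq'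
        exact Prod.ext (hq.2.trans hq'.2.symm) hqq
    calc ∑ q ∈ P.filter (fun q => q.1 = D), (Ideal.absNorm q.2 : ℝ)
        ≤ ∑ _q ∈ P.filter (fun q => q.1 = D), Z :=
          Finset.sum_le_sum fun q hq => (hle q hq).2
      _ = ((P.filter (fun q => q.1 = D)).card : ℝ) * Z := by
          rw [Finset.sum_const, nsmul_eq_mul]
      _ ≤ (C2 * Z) * Z := mul_le_mul_of_nonneg_right hc hZ0.le
      _ = C2 * (Real.exp Y * Real.exp (-lsum D)) := by
          rw [mul_assoc, hZ, ← Real.exp_add, ← Real.exp_add]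
          congr 2
          ring
  have hstep2 : ∑ q ∈ P, (Ideal.absNorm q.2 : ℝ) ≤
      C2 * Real.exp Y * ∑ D ∈ P.image Prod.fst, Real.exp (-lsum D) := by
    rw [← Finset.sum_fiberwise_of_maps_to (s := P) (t := P.image Prod.fst) (g := Prod.fst)
      (fun q hq => Finset.mem_image_of_mem _ hq), Finset.mul_sum]
    refine Finset.sum_le_sum fun D hD => (hfib D hD).trans (le_of_eq (by ring))
  have hstep3 : ∑ D ∈ P.image Prod.fst, Real.exp (-lsum D) ≤ C3 * (1 + Y) := by
    have h4 := h3 (Real.exp Y) (Real.one_le_exp hY)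
    rw [Real.log_exp] at h4
    refine le_trans ?_ h4
    have h5 : ∑ D ∈ P.image Prod.fst, Real.exp (-lsum D) =
        ∑ I ∈ (P.image Prod.fst).image IDk, (1 : ℝ) / (Ideal.absNorm I : ℝ) := by
      rw [Finset.sum_image (fun _ _ _ _ h => IDk_inj h)]
      refine Finset.sum_congr rfl fun D _ => ?_
      rw [IDk_norm, Real.exp_neg, one_div]
    rw [h5]
    refine Finset.sum_le_sum_of_subset_of_nonneg ?_ (fun _ _ _ => by positivity)
    intro I hI
    rw [Finset.mem_image] at hI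
    obtain ⟨D, hD, rfl⟩ := hI
    rw [Finset.mem_image] at hD
    obtain ⟨q, hq, rfl⟩ := hD
    rw [Set.Finite.mem_toFinset]
    exact ⟨IDk_ne_bot _, by rw [IDk_norm]; exact Real.exp_le_exp.2 (hPD q hq)⟩
  have hstep4 : 1 + Y ≤ (1 + 2 / η) * Real.exp (η / 2 * Y) := by
    have e1 : 1 ≤ Real.exp (η / 2 * Y) := Real.one_le_exp (by positivity)
    have e2 : η / 2 * Y ≤ Real.exp (η / 2 * Y) := by
      have := Real.add_one_le_exp (η / 2 * Y)
      linarith
    have e3 : Y = 2 / η * (η / 2 * Y) := by field_simp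
    have e4 : 2 / η * (η / 2 * Y) ≤ 2 / η * Real.exp (η / 2 * Y) :=
      mul_le_mul_of_nonneg_left e2 hi.le
    nlinarith
  calc ∑ q ∈ P, (A : ℝ) ^ q.1.card * (Ideal.absNorm q.2 : ℝ)
      ≤ C1 * Real.exp (η / 2 * Y) * (C2 * Real.exp Y * (C3 * ((1 + 2 / η) *
          Real.exp (η / 2 * Y)))) := by
        refine hstep1.trans (mul_le_mul_of_nonneg_left ?_ (by positivity))
        refine hstep2.trans (mul_le_mul_of_nonneg_left ?_ (by positivity))
        exact hstep3.trans (mul_le_mul_of_nonneg_left hstep4 (by linarith))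
    _ = C1 * C2 * C3 * (1 + 2 / η) * Real.exp ((1 + η) * Y) := by
        have e1 : Real.exp ((1 + η) * Y) =
            Real.exp (η / 2 * Y) * Real.exp Y * Real.exp (η / 2 * Y) := by
          rw [← Real.exp_add, ← Real.exp_add]
          congr 1
          ring
        rw [e1]
        ring

end AbcRadK
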