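import Pool.Agent.Work.MP_a793bb_nt.RadK.DefsK

/-!
# Sets whose quotients are roots of unity are bounded

Proof. An element `ζ` of `K` with `ζ ^ i = 1`, `i > 0`, is integral, a unit of the ring of integers
of finite order, so it lies in the image of the finite group `NumberField.Units.torsion K`. Let
`w` be the order of this group. If `x₀ ∈ F` then `y ↦ y / x₀` maps `F` injectively into the set of
roots of unity, so `F.card ≤ w`. (Alternatively: these elements have all their absolute values
equal to `1`, so they form a finite set by Northcott,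
`NumberField.finite_setOfPred_mulHeight₁_le`.)
-/

set_option autoImplicit false

namespace AbcRadK

open Finset AbcRad Pool.Agent.Work.MP_a793bb_nt Pool.Agent.Work.MP_a793bb_nt.BPlus NumberField
  IsDedekindDomain Height

variable {K : Type*} [Field K] [NumberField K]

theorem tors_bound (K : Type*) [Field K] [NumberField K] :
    ∃ w : ℕ, ∀ F : Finset K, (∀ x ∈ F, x ≠ 0) →
      (∀ x ∈ F, ∀ y ∈ F, ∃ i : ℕ, 0 < i ∧ (y / x) ^ i = 1) → F.card ≤ w := by
  classical
  have hfin := NumberField.Embeddings.finite_of_norm_le K ℂ 1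
  refine ⟨hfin.toFinset.card, fun F h0 h1 => ?_⟩
  rcases F.eq_empty_or_nonempty with rfl | ⟨x, hx⟩
  · simp
  refine Finset.card_le_card_of_injOn (fun y => y / x) ?_ ?_
  · intro y hy
    obtain ⟨i, hi, hyi⟩ := h1 x hx y hy
    rw [Finset.mem_coe, Set.Finite.mem_toFinset]
    refine ⟨IsIntegral.of_pow hi (by rw [hyi]; exact isIntegral_one), fun φ => ?_⟩
    have h2 : ‖φ (y / x)‖ ^ i = 1 := by
      rw [← norm_pow, ← map_pow, hyi, map_one, norm_one]
    exact le_of_eq ((pow_eq_one_iff_of_nonneg (norm_nonneg _) hi.ne').1 h2)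
  · intro y _ z _ hyz
    exact (div_left_inj' (h0 x hx)).1 hyz

end AbcRadK
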