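import Pool.Agent.Work.MP_a793bb_nt.RadK.DecK
import Pool.Agent.Work.MP_a793bb_nt.RadK.CellRK
import Pool.Agent.Work.MP_a793bb_nt.RadK.TorsK
import Pool.Agent.Work.MP_a793bb_nt.RadK.ColorV
import Pool.Agent.Work.MP_a793bb_nt.RadK.SumsK
import Pool.Agent.Work.MP_a793bb_nt.RadK.LabK

/-!
# Counting elements in archimedean cells

Proof. As in `count_PK`, with the label `(b, D, φ on D, ω, γ)`, `γ u = cl (ξ u)` for the `cl` of
`exists_color_inf v η`, `η = exp (- δ ℓ) / 4` (so equal labels give `v (ξ / ξ' - 1) ≤ exp (- δ ℓ)`); use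
`cellRK`. As `v (u - 1) ≤ 1 / 2`, `|log (v u)| ≤ 1`, so `|log (v (ξ u))| ≤ C₀ + ℓ + 1` and `γ` takes at
most `(2 (4 (C₀ + ℓ + 1) exp (δ ℓ) + 1) + 1) (2 (16 exp (δ ℓ) + 1) + 1) ≤ C' ℓ exp (2 δ ℓ)
≤ C'' exp (2.9 δ ℓ)` values. The number of the rest is at most a constant times
`∑_D A ^ #D ≤ C exp ((1 + δ) (2/3 + 4 δ) ℓ)` (`sum_setsK`), and
`(1 + δ) (2/3 + 4 δ) + 2.9 δ ≤ 2/3 + 8 δ` for `δ ≤ 1 / 10` (`(1 + δ)(2/3 + 4 δ) ≤ 2/3 + 5.07 δ`).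
-/

set_option autoImplicit false

namespace AbcRadK

open Finset AbcRad Pool.Agent.Work.MP_a793bb_nt Pool.Agent.Work.MP_a793bb_nt.BPlus NumberField
  IsDedekindDomain Height

variable {K : Type*} [Field K] [NumberField K]

theorem log_near_one {K : Type*} [Field K] [NumberField K] (v : InfinitePlace K) (u : K)
    (d Q : ℝ) (hd : 0 < d) (hQ : 8 * d ≤ Q) (h : v (u - 1) ≤ 2 * Real.exp (-(Q / (2 * d)))) :
    |Real.log (v u)| ≤ 1 := by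
  have h1 : (4 : ℝ) ≤ Q / (2 * d) := by
    rw [le_div_iff₀ (by positivity)]
    linarith
  have h2 : Real.exp (-(Q / (2 * d))) ≤ 1 / 4 := by
    have h3 : Real.exp (-(Q / (2 * d))) ≤ Real.exp (-4) := Real.exp_le_exp.2 (by linarith)
    have h4 : (4 : ℝ) ≤ Real.exp 4 := by
      have := Real.add_one_le_exp (4 : ℝ)
      linarith
    have h5 : Real.exp (-4) ≤ 1 / 4 := by
      rw [Real.exp_neg, one_div]
      exact inv_anti₀ (by norm_num) h4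
    linarith
  have h3 : v (u - 1) ≤ 1 / 2 := by linarith
  have h4 : v u ≤ 3 / 2 := by
    have h5 : v ((u - 1) + 1) ≤ v (u - 1) + v 1 := v.1.add_le _ _
    rw [sub_add_cancel, map_one] at h5
    linarith
  have h5 : 1 / 2 ≤ v u := by
    have h6 : v (u + (1 - u)) ≤ v u + v (1 - u) := v.1.add_le _ _
    have h7 : v (1 - u) = v (u - 1) := by
      have h8 : (1 : K) - u = -(u - 1) := by ring
      rw [h8]
      exact v.1.map_neg _
    rw [add_sub_cancel, map_one, h7] at h6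
    linarith
  have h6 : 0 < v u := by linarith
  rw [abs_le]
  constructor
  · have h7 : Real.log (1 / 2) ≤ Real.log (v u) := Real.log_le_log (by norm_num) h5
    have h8 : Real.log (1 / 2) = -Real.log 2 := by
      rw [one_div, Real.log_inv]
    have h9 : Real.log 2 ≤ 1 := by
      have := Real.log_le_sub_one_of_pos (show (0 : ℝ) < 2 by norm_num)
      linarith
    linarith
  · have := Real.log_le_sub_one_of_pos h6
    linarith

theorem mem_Icc_floor {z : ℤ} {r : ℝ} (h : |(z : ℝ)| ≤ r) :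
    z ∈ Icc (-(⌊r⌋₊ : ℤ)) (⌊r⌋₊ : ℤ) := by
  have h1 : z.natAbs ≤ ⌊r⌋₊ := by
    apply Nat.le_floor
    rw [Nat.cast_natAbs]
    push_cast
    exact h
  rw [Finset.mem_Icc]
  omega

theorem gam_count (C₀ δ ℓ : ℝ) (hC₀ : 0 ≤ C₀) (hδ : 0 < δ) (hℓ : 1 ≤ ℓ) :
    (((2 * ⌊(C₀ + ℓ + 1) / (Real.exp (-(δ * ℓ)) / 4) + 1⌋₊ + 1) *
      (2 * ⌊4 / (Real.exp (-(δ * ℓ)) / 4) + 1⌋₊ + 1) : ℕ) : ℝ) ≤
      35 * (8 * C₀ + 19) / (9 / 10 * δ) * Real.exp (29 / 10 * δ * ℓ) := by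
  obtain ⟨E, hE⟩ : ∃ E : ℝ, E = Real.exp (δ * ℓ) := ⟨_, rfl⟩
  have hE1 : 1 ≤ E := by
    rw [hE]
    exact Real.one_le_exp (by positivity)
  have hinv : ∀ x : ℝ, x / (Real.exp (-(δ * ℓ)) / 4) = 4 * x * E := by
    intro x
    rw [Real.exp_neg, ← hE]
    field_simp
  rw [hinv, hinv]
  have h1 : ((2 * ⌊4 * (C₀ + ℓ + 1) * E + 1⌋₊ + 1 : ℕ) : ℝ) ≤ (8 * C₀ + 19) * ℓ * E := by
    push_cast
    have h2 : (⌊4 * (C₀ + ℓ + 1) * E + 1⌋₊ : ℝ) ≤ 4 * (C₀ + ℓ + 1) * E + 1 :=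
      Nat.floor_le (by positivity)
    have h3 : C₀ * E ≤ C₀ * ℓ * E := by
      have : C₀ ≤ C₀ * ℓ := by nlinarith
      nlinarith
    have h4 : E ≤ ℓ * E := by nlinarith
    nlinarith
  have h2 : ((2 * ⌊4 * 4 * E + 1⌋₊ + 1 : ℕ) : ℝ) ≤ 35 * E := by
    push_cast
    have h2 : (⌊4 * 4 * E + 1⌋₊ : ℝ) ≤ 4 * 4 * E + 1 := Nat.floor_le (by positivity)
    linarith
  have h3 : 9 / 10 * δ * ℓ ≤ Real.exp (9 / 10 * δ * ℓ) := by
    have := Real.add_one_le_exp (9 / 10 * δ * ℓ)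
    linarith
  have h4 : ℓ ≤ 1 / (9 / 10 * δ) * Real.exp (9 / 10 * δ * ℓ) := by
    rw [one_div, ← div_eq_inv_mul, le_div_iff₀ (by positivity)]
    linarith
  have h5 : E * E * Real.exp (9 / 10 * δ * ℓ) = Real.exp (29 / 10 * δ * ℓ) := by
    rw [hE, ← Real.exp_add, ← Real.exp_add]
    congr 1
    ring
  rw [Nat.cast_mul]
  calc ((2 * ⌊4 * (C₀ + ℓ + 1) * E + 1⌋₊ + 1 : ℕ) : ℝ) * ((2 * ⌊4 * 4 * E + 1⌋₊ + 1 : ℕ) : ℝ)
      ≤ ((8 * C₀ + 19) * ℓ * E) * (35 * E) :=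
        mul_le_mul h1 h2 (by positivity) (by positivity)
    _ = 35 * (8 * C₀ + 19) * (E * E) * ℓ := by ring
    _ ≤ 35 * (8 * C₀ + 19) * (E * E) * (1 / (9 / 10 * δ) * Real.exp (9 / 10 * δ * ℓ)) :=
        mul_le_mul_of_nonneg_left h4 (by positivity)
    _ = 35 * (8 * C₀ + 19) / (9 / 10 * δ) * (E * E * Real.exp (9 / 10 * δ * ℓ)) := by ring
    _ = _ := by rw [h5]

theorem count_RK (K : Type*) [Field K] [NumberField K] (δ : ℝ) (hδ : 0 < δ) (hδ1 : δ ≤ 1 / 10) :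
    ∃ C : ℝ, 1 ≤ C ∧ ∀ (ℓ Q : ℝ) (n I J L0 : ℕ) (v : InfinitePlace K),
      ParK (Module.finrank ℚ K) δ (kapK (Module.finrank ℚ K) δ) ℓ Q n I J L0 →
      ∀ F : Finset K, (∀ u ∈ F, RCapK δ (kapK (Module.finrank ℚ K) δ) ℓ Q
        ((2 / 3 + 4 * δ) * ℓ) n v u) →
      (F.card : ℝ) ≤ C * Real.exp ((2 / 3 + 8 * δ) * ℓ) := by
  classical
  obtain ⟨C₀, G, hC₀, hdec⟩ := exists_dec K
  obtain ⟨w, hw⟩ := tors_bound K
  obtain ⟨κ, hκdef⟩ : ∃ κ : ℝ, κ = kapK (Module.finrank ℚ K) δ := ⟨_, rfl⟩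
  rw [← hκdef]
  obtain ⟨c, hc⟩ : ∃ c : ℕ, c = ⌈1 / κ⌉₊ := ⟨_, rfl⟩
  obtain ⟨c', hc'⟩ : ∃ c' : ℕ, c' = ⌈(C₀ + 1) / κ⌉₊ := ⟨_, rfl⟩
  obtain ⟨B, hB⟩ : ∃ B : ℕ, B = (2 * c' + 1) ^ Fintype.card (InfinitePlace K) := ⟨_, rfl⟩
  obtain ⟨C₁, hC₁, hsum⟩ := sum_setsK K (2 * c + 1) δ hδ
  obtain ⟨C₂, hC₂⟩ : ∃ C₂ : ℝ, C₂ = 35 * (8 * C₀ + 19) / (9 / 10 * δ) := ⟨_, rfl⟩
  have hC₂0 : 0 ≤ C₂ := by
    rw [hC₂]
    positivity
  refine ⟨(w * B * G.card : ℕ) * C₁ * C₂ + 1, ?_, ?_⟩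
  · have : (0 : ℝ) ≤ (w * B * G.card : ℕ) * C₁ * C₂ := by positivity
    linarith
  intro ℓ Q n I J L0 v₀ hP F hF
  have hℓ : 1 ≤ ℓ := hP.hℓ
  have hκ : 0 < κ := hP.hκ
  have hd0 : (0 : ℝ) < (Module.finrank ℚ K : ℝ) := finrank_pos'
  have hn1 : 1 ≤ n := by
    have := hP.hJ8
    have := hP.hJn
    omega
  obtain ⟨η, hη⟩ : ∃ η : ℝ, η = Real.exp (-(δ * ℓ)) / 4 := ⟨_, rfl⟩
  have hη0 : 0 < η := by
    rw [hη]
    positivity
  have hη1 : η ≤ 1 / 2 := by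
    have : Real.exp (-(δ * ℓ)) ≤ 1 := Real.exp_le_one_iff.2 (by nlinarith)
    rw [hη]
    linarith
  obtain ⟨cl, hcl1, hcl2⟩ := exists_color_inf v₀ η hη0 hη1
  have hdx : ∀ u ∈ F, ∃ b ∈ G, ∃ ξ : K, Dec C₀ n u b ξ :=
    fun u hu => hdec n u hn1 (hF u hu).1.ne0
  choose! bf hbG ξf hξ using hdx
  obtain ⟨P, hPdef⟩ : ∃ P : Finset (Finset (HeightOneSpectrum (𝓞 K))),
    P = F.image (fun u => smal (δ * ℓ) u) := ⟨_, rfl⟩
  have hPin : ∀ u ∈ F, smal (δ * ℓ) u ∈ P := by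
    intro u hu
    rw [hPdef]
    exact Finset.mem_image_of_mem _ hu
  have hPprop : ∀ D ∈ P, lsum D ≤ (2 / 3 + 4 * δ) * ℓ := by
    intro D hD
    rw [hPdef, Finset.mem_image] at hD
    obtain ⟨u, hu, rfl⟩ := hD
    exact (hF u hu).2.2
  have hsum' := hsum ((2 / 3 + 4 * δ) * ℓ) (by positivity) P hPprop
  obtain ⟨V₁, hV₁⟩ : ∃ V₁ : ℕ, V₁ = ⌊(C₀ + ℓ + 1) / η + 1⌋₊ := ⟨_, rfl⟩
  obtain ⟨V₂, hV₂⟩ : ∃ V₂ : ℕ, V₂ = ⌊4 / η + 1⌋₊ := ⟨_, rfl⟩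
  have hV : (((2 * V₁ + 1) * (2 * V₂ + 1) : ℕ) : ℝ) ≤ C₂ * Real.exp (29 / 10 * δ * ℓ) := by
    rw [hV₁, hV₂, hη, hC₂]
    exact gam_count C₀ δ ℓ hC₀ hδ hℓ
  have hfib : ∀ q ∈ G ×ˢ P,
      (F.filter (fun u => (bf u, smal (δ * ℓ) u) = q)).card ≤
        w * B * ((2 * c + 1) ^ q.2.card * ((2 * V₁ + 1) * (2 * V₂ + 1))) := by
    intro q hq
    rw [Finset.mem_product] at hq
    have hle := fiber_bound w hw (F.filter (fun u => (bf u, smal (δ * ℓ) u) = q))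
      (fun x hx => (hF x (Finset.mem_filter.1 hx).1).1.ne0)
      ((q.2.pi (fun _ => Icc (-(c : ℤ)) (c : ℤ))) ×ˢ
        ((Fintype.piFinset (fun _ : InfinitePlace K => Icc (-(c' : ℤ)) (c' : ℤ))) ×ˢ
          (Icc (-(V₁ : ℤ)) (V₁ : ℤ) ×ˢ Icc (-(V₂ : ℤ)) (V₂ : ℤ))))
      (fun u => (fun p (_ : p ∈ q.2) => ⌊(gr n (kp p u) : ℝ) / (κ * n)⌋,
        (fun v : InfinitePlace K => ⌊(Real.log (v (ξf u)) - Real.log (v u) / n) / (κ * ℓ)⌋,
          cl (ξf u)))) ?_ ?_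
    · refine hle.trans (le_of_eq ?_)
      rw [Finset.card_product, Finset.card_product, Finset.card_product, card_pi_Icc,
        card_piF_Icc, ← hB, Int.card_Icc, Int.card_Icc]
      have e1 : ((V₁ : ℤ) + 1 - -(V₁ : ℤ)).toNat = 2 * V₁ + 1 := by omega
      have e2 : ((V₂ : ℤ) + 1 - -(V₂ : ℤ)).toNat = 2 * V₂ + 1 := by omega
      rw [e1, e2]
      ring
    · intro u hu
      rw [Finset.mem_filter] at hu
      obtain ⟨huF, huq⟩ := hu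
      have h1 := (hξ u huF).arch
      have h2 := (hF u huF).1.hrad
      rw [Finset.mem_product, Finset.mem_product, Finset.mem_product]
      refine ⟨?_, ?_, ?_, ?_⟩
      · rw [Finset.mem_pi]
        intro p hp
        rw [hc]
        exact phi_range κ hκ n hn1 _
      · rw [Fintype.mem_piFinset]
        intro v
        rw [hc']
        refine omega_range C₀ κ ℓ _ hC₀ hκ hℓ ?_
        have h3 := h1 v
        linarith
      · rw [hV₁]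
        refine mem_Icc_floor ((hcl1 (ξf u)).1.trans ?_)
        have h4 := log_near_one v₀ u _ Q hd0 hP.hQ (hF u huF).2.1
        have h5 : |Real.log (v₀ (ξf u))| ≤ C₀ + ℓ + 1 := by
          have h6 := h1 v₀
          have h7 : |Real.log (v₀ u) / n| ≤ 1 := by
            rw [abs_div, Nat.abs_cast]
            have hn : (1 : ℝ) ≤ n := by exact_mod_cast hn1
            exact (div_le_self (abs_nonneg _) hn).trans h4
          have h8 : Real.log (v₀ (ξf u)) =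
            (Real.log (v₀ (ξf u)) - Real.log (v₀ u) / n) + Real.log (v₀ u) / n := by ring
          rw [h8]
          refine (abs_add_le _ _).trans ?_
          linarith
        have h6 : |Real.log (v₀ (ξf u))| / η ≤ (C₀ + ℓ + 1) / η :=
          div_le_div_of_nonneg_right h5 hη0.le
        linarith
      · rw [hV₂]
        exact mem_Icc_floor (hcl1 (ξf u)).2
    · intro x hx y hy hxy
      rw [Finset.mem_filter] at hx hy
      obtain ⟨hxF, hxq⟩ := hx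
      obtain ⟨hyF, hyq⟩ := hy
      simp only [Prod.mk.injEq] at hxy
      obtain ⟨hφ, hω, hγ⟩ := hxy
      have hbx : bf x = q.1 := by rw [← hxq]
      have hby : bf y = q.1 := by rw [← hyq]
      have hDx : smal (δ * ℓ) x = q.2 := by rw [← hxq]
      have hDy : smal (δ * ℓ) y = q.2 := by rw [← hyq]
      have hux := (hF x hxF).1
      have huy := (hF y hyF).1
      have hdx := hξ x hxF
      have hdy := hξ y hyF
      rw [hbx] at hdx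
      rw [hby] at hdy
      refine cellRK δ κ ℓ Q C₀ n I J L0 (hκdef ▸ hP) v₀ x y hux huy ⟨?_, ?_⟩ q.1 (ξf x) (ξf y)
        hdx hdy ?_ (hF x hxF).2.1 (hF y hyF).2.1 ?_
      · rw [hDx, hDy]
      · intro p hp
        rw [hDx] at hp
        exact congrFun (congrFun hφ p) hp
      · intro v
        exact congrFun hω v
      · have h5 := hcl2 (ξf x) (ξf y) hdx.ne0 hdy.ne0 hγ
        rw [hη] at h5
        linarith
  have hcard := Finset.card_eq_sum_card_fiberwise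
    (f := fun u : K => (bf u, smal (δ * ℓ) u)) (s := F) (t := G ×ˢ P)
    (fun u hu => Finset.mem_coe.2 (Finset.mem_product.2 ⟨hbG u hu, hPin u hu⟩))
  have h1 : F.card ≤ ∑ q ∈ G ×ˢ P,
      w * B * ((2 * c + 1) ^ q.2.card * ((2 * V₁ + 1) * (2 * V₂ + 1))) := by
    rw [hcard]
    exact Finset.sum_le_sum hfib
  have h2 : (F.card : ℝ) ≤ (w * B * G.card : ℕ) *
      ((∑ D ∈ P, ((2 * c + 1 : ℕ) : ℝ) ^ D.card) * (((2 * V₁ + 1) * (2 * V₂ + 1) : ℕ) : ℝ)) := by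
    have h3 : ∑ q ∈ G ×ˢ P, w * B * ((2 * c + 1) ^ q.2.card * ((2 * V₁ + 1) * (2 * V₂ + 1))) =
        (w * B * G.card) * ((∑ D ∈ P, (2 * c + 1) ^ D.card) * ((2 * V₁ + 1) * (2 * V₂ + 1))) := by
      rw [Finset.sum_product]
      simp only []
      rw [Finset.sum_const, ← Finset.mul_sum, ← Finset.sum_mul, smul_eq_mul]
      ring
    rw [h3] at h1
    exact_mod_cast h1
  have h4 : (1 + δ) * ((2 / 3 + 4 * δ) * ℓ) + 29 / 10 * δ * ℓ ≤ (2 / 3 + 8 * δ) * ℓ := by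
    have h5 : (1 + δ) * (2 / 3 + 4 * δ) + 29 / 10 * δ ≤ 2 / 3 + 8 * δ := by nlinarith
    have h6 := mul_le_mul_of_nonneg_right h5 (show (0 : ℝ) ≤ ℓ by linarith)
    linarith
  calc (F.card : ℝ) ≤ (w * B * G.card : ℕ) *
      ((∑ D ∈ P, ((2 * c + 1 : ℕ) : ℝ) ^ D.card) *
        (((2 * V₁ + 1) * (2 * V₂ + 1) : ℕ) : ℝ)) := h2
    _ ≤ (w * B * G.card : ℕ) * ((C₁ * Real.exp ((1 + δ) * ((2 / 3 + 4 * δ) * ℓ))) *
        (C₂ * Real.exp (29 / 10 * δ * ℓ))) := by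
        refine mul_le_mul_of_nonneg_left ?_ (by positivity)
        exact mul_le_mul hsum' hV (by positivity) (by positivity)
    _ = (w * B * G.card : ℕ) * C₁ * C₂ *
        Real.exp ((1 + δ) * ((2 / 3 + 4 * δ) * ℓ) + 29 / 10 * δ * ℓ) := by
        rw [Real.exp_add]
        ring
    _ ≤ (w * B * G.card : ℕ) * C₁ * C₂ * Real.exp ((2 / 3 + 8 * δ) * ℓ) :=
        mul_le_mul_of_nonneg_left (Real.exp_le_exp.2 h4) (by positivity)
    _ ≤ ((w * B * G.card : ℕ) * C₁ * C₂ + 1) * Real.exp ((2 / 3 + 8 * δ) * ℓ) := by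
        have := Real.exp_pos ((2 / 3 + 8 * δ) * ℓ)
        nlinarith

end AbcRadK
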