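import Pool.Agent.Work.MP_a793bb_nt.RadK.SuppK

/-!
# Costs over a number field

For `t ≠ 0, 1` put `zs j t` = the set of primes dividing the numerator of `1 + sOf j t` (`j : Fin 3`).
Proofs. Recall `1 + sOf j t = t, (t - 1) / t, 1 / (1 - t)` for `j = 0, 1, 2` (`one_add_sOf`), so
`zs 0 t = {kp p t > 0}`, `zs 1 t = {kp p (1 - t) > kp p t}`, `zs 2 t = {kp p (1 - t) < 0}`, which are (by
`kp_tri` in `Sides.lean`: the minimum of `kp p t, kp p (1 - t), 0` is attained twice) the primes with `kp p t > 0`,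
`kp p (1 - t) > 0`, `kp p t < 0` respectively; they are pairwise disjoint subsets of `Ip t`.
`zs_sum`: `Rs_three_le` and `sameNum_c` in `Sides.lean` are useful. `supp_sOf`: the primes at which
`sOf j t` is not a unit are the union of the other two. `side_costK`: if `log N(M) ≤ 2 δ ℓ` use
`small ⊆ all`; if `M = p` with `p ∈ zs`, `lN p > δ ℓ`, then `p` is not small, so the small primes and `p`
are disjoint subsets of `zs j t`. `three_costsK`: the sum of the three left sides is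
`2 (sa + sb + sc + Ma + Mb + Mc) ≤ 2 (ℓ + 6 δ ℓ) = 3 (2/3 + 4 δ) ℓ`.
-/

set_option autoImplicit false

namespace AbcRadK

open Finset AbcRad Pool.Agent.Work.MP_a793bb_nt Pool.Agent.Work.MP_a793bb_nt.BPlus NumberField
  IsDedekindDomain Height

variable {K : Type*} [Field K] [NumberField K]

open Classical in
/-- The primes dividing the numerator of `1 + sOf j t`. -/
noncomputable def zs (j : Fin 3) (t : K) : Finset (HeightOneSpectrum (𝓞 K)) :=
  if h : 1 + sOf j t ≠ 0 then (finite_Zp h).toFinset else ∅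

open Classical in
theorem mem_zs {t : K} (h0 : t ≠ 0) (h1 : t ≠ 1) (j : Fin 3) (p : HeightOneSpectrum (𝓞 K)) :
    p ∈ zs j t ↔ 0 < kp p (1 + sOf j t) := by
  have hne := one_add_sOf_ne_zero h0 h1 j
  rw [zs, dif_pos hne, Set.Finite.mem_toFinset]
  exact av_lt_one_iff_kp p hne

open Classical in
theorem mem_zs_iff {t : K} (h0 : t ≠ 0) (h1 : t ≠ 1) (p : HeightOneSpectrum (𝓞 K)) :
    (p ∈ zs 0 t ↔ 0 < kp p t) ∧ (p ∈ zs 1 t ↔ 0 < kp p (1 - t)) ∧ (p ∈ zs 2 t ↔ kp p t < 0) := by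
  have h1' : 1 - t ≠ 0 := sub_ne_zero.mpr (Ne.symm h1)
  have h1'' : t - 1 ≠ 0 := sub_ne_zero.mpr h1
  have htri := kp_tri p h0 h1
  refine ⟨?_, ?_, ?_⟩
  · rw [mem_zs h0 h1, one_add_sOf h0 h1]
    rfl
  · rw [mem_zs h0 h1, one_add_sOf h0 h1]
    change 0 < kp p ((t - 1) / t) ↔ _
    rw [kp_div p h1'' h0, ← kp_neg p (t - 1), neg_sub]
    omega
  · rw [mem_zs h0 h1, one_add_sOf h0 h1]
    change 0 < kp p (1 - t)⁻¹ ↔ _
    rw [Pool.Agent.Work.MP_a793bb_nt.kp_inv p h1']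
    omega

theorem Rs_eq_lsum {y : K} (hy : y ≠ 0) : Rs (Zp y) = lsum (finite_Zp hy).toFinset := by
  rw [Rs, finsum_mem_eq_finite_toFinset_sum _ (finite_Zp hy), lsum]

open Classical in
theorem zs_sum {t : K} (h0 : t ≠ 0) (h1 : t ≠ 1) :
    lsum (zs 0 t) + lsum (zs 1 t) + lsum (zs 2 t) ≤ Rs (Ip t) := by
  have h1' : 1 - t ≠ 0 := sub_ne_zero.mpr (Ne.symm h1)
  have hi : t⁻¹ ≠ 0 := inv_ne_zero h0
  have e0 : zs 0 t = (finite_Zp h0).toFinset := by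
    ext p
    rw [(mem_zs_iff h0 h1 p).1, Set.Finite.mem_toFinset]
    exact (av_lt_one_iff_kp p h0).symm
  have e1 : zs 1 t = (finite_Zp h1').toFinset := by
    ext p
    rw [(mem_zs_iff h0 h1 p).2.1, Set.Finite.mem_toFinset]
    exact (av_lt_one_iff_kp p h1').symm
  have e2 : zs 2 t = (finite_Zp hi).toFinset := by
    ext p
    rw [(mem_zs_iff h0 h1 p).2.2, Set.Finite.mem_toFinset]
    have := av_lt_one_iff_kp p hi
    change _ ↔ av p t⁻¹ < 1
    rw [this, Pool.Agent.Work.MP_a793bb_nt.kp_inv p h0]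
    omega
  rw [e0, e1, e2, ← Rs_eq_lsum h0, ← Rs_eq_lsum h1', ← Rs_eq_lsum hi]
  exact Rs_three_le h0 h1

open Classical in
theorem supp_sOf {t : K} (h0 : t ≠ 0) (h1 : t ≠ 1) (j : Fin 3) :
    supp (-sOf j t) = zs (j + 1) t ∪ zs (j + 2) t := by
  have h1' : 1 - t ≠ 0 := sub_ne_zero.mpr (Ne.symm h1)
  ext p
  rw [mem_supp (neg_ne_zero.2 (sOf_ne_zero h0 h1 j)), Finset.mem_union, kp_neg]
  obtain ⟨m0, m1, m2⟩ := mem_zs_iff h0 h1 p
  have htri := kp_tri p h0 h1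
  fin_cases j
  · change kp p (t - 1) ≠ 0 ↔ p ∈ zs 1 t ∨ p ∈ zs 2 t
    rw [m1, m2, ← kp_neg p (t - 1), neg_sub]
    omega
  · change kp p (-t⁻¹) ≠ 0 ↔ p ∈ zs 2 t ∨ p ∈ zs 0 t
    rw [m0, m2, kp_neg, Pool.Agent.Work.MP_a793bb_nt.kp_inv p h0]
    omega
  · change kp p (t / (1 - t)) ≠ 0 ↔ p ∈ zs 0 t ∨ p ∈ zs 1 t
    rw [m0, m1, kp_div p h0 h1']
    omega

open Classical in
theorem side_costK (δ ℓ : ℝ) (hδ : 0 < δ) (hℓ : 1 ≤ ℓ) (S : Finset (HeightOneSpectrum (𝓞 K)))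
    (M : Ideal (𝓞 K)) (h : Real.log (Ideal.absNorm M) ≤ 2 * (δ * ℓ) ∨
      ∃ p : HeightOneSpectrum (𝓞 K), M = p.asIdeal ∧ δ * ℓ < lN p ∧ p ∈ S) :
    lsum (S.filter (fun p => lN p ≤ δ * ℓ)) + Real.log (Ideal.absNorm M) ≤
      lsum S + 2 * (δ * ℓ) := by
  have hδℓ : 0 < δ * ℓ := by positivity
  rcases h with h | ⟨p, rfl, hpl, hpS⟩
  · have : lsum (S.filter (fun p => lN p ≤ δ * ℓ)) ≤ lsum S :=
      Finset.sum_le_sum_of_subset_of_nonneg (Finset.filter_subset _ _)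
        fun q _ _ => (lN_pos q).le
    linarith
  · have hpn : p ∉ S.filter (fun p => lN p ≤ δ * ℓ) := by
      intro hp
      exact absurd (Finset.mem_filter.1 hp).2 (not_le.2 hpl)
    have h1 : lsum (insert p (S.filter (fun p => lN p ≤ δ * ℓ))) ≤ lsum S := by
      refine Finset.sum_le_sum_of_subset_of_nonneg ?_ fun q _ _ => (lN_pos q).le
      intro q hq
      rcases Finset.mem_insert.1 hq with rfl | hq
      · exact hpS
      · exact (Finset.mem_filter.1 hq).1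
    rw [lsum, Finset.sum_insert hpn] at h1
    change lN p + lsum _ ≤ lsum S at h1
    have h2 : Real.log (Ideal.absNorm p.asIdeal) = lN p := rfl
    linarith

theorem three_costsK (δ ℓ : ℝ) (sa sb sc Ma Mb Mc ra rb rc : ℝ)
    (ha : sa + Ma ≤ ra + 2 * (δ * ℓ)) (hb : sb + Mb ≤ rb + 2 * (δ * ℓ))
    (hc : sc + Mc ≤ rc + 2 * (δ * ℓ)) (hr : ra + rb + rc ≤ ℓ) :
    sb + sc + 2 * Ma ≤ (2 / 3 + 4 * δ) * ℓ ∨ sc + sa + 2 * Mb ≤ (2 / 3 + 4 * δ) * ℓ ∨
      sa + sb + 2 * Mc ≤ (2 / 3 + 4 * δ) * ℓ := by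
  by_contra hcon
  push Not at hcon
  obtain ⟨h1, h2, h3⟩ := hcon
  linarith

end AbcRadK
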