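import Pool.Agent.Work.MP_a793bb_nt.RadK.DefsK

/-!
# A short finite part forces closeness at an infinite place

Proof. By `side_eq`, `∑_v mult (log (Mv v s) - log (v (1 + s))) = hs s - LP (1 + s) univ > Q / 2`,
and `∑_v mult = d` (`InfinitePlace.sum_mult_eq`), so some `v` has
`log (Mv v s) - log (v (1 + s)) > Q / (2 d)`, that is `v (1 + s) < η Mv v s`,
`η = exp (- Q / (2 d)) ≤ exp (-4) ≤ 1 / 4`. `Mv v s = max (v s) (max 1 (v (1 + s)))` is at most
`1 + v (1 + s) ≤ 1 + η Mv v s`, so `Mv v s ≤ 2` and `v (1 + s) ≤ 2 η`.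
-/

set_option autoImplicit false

namespace AbcRadK

open Finset AbcRad Pool.Agent.Work.MP_a793bb_nt Pool.Agent.Work.MP_a793bb_nt.BPlus NumberField
  IsDedekindDomain Height

variable {K : Type*} [Field K] [NumberField K]

theorem inf_type (Q : ℝ) (hQ : 8 * (Module.finrank ℚ K : ℝ) ≤ Q) (s : K) (h1 : 1 + s ≠ 0)
    (hQs : Q < hs s) (hLP : LP (1 + s) Set.univ < Q / 2) :
    ∃ v : InfinitePlace K,
      v (1 + s) ≤ 2 * Real.exp (-(Q / (2 * (Module.finrank ℚ K : ℝ)))) := by
  set d : ℝ := (Module.finrank ℚ K : ℝ) with hd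
  have hd0 : 0 < d := by
    rw [hd]
    exact_mod_cast Module.finrank_pos (R := ℚ) (M := K)
  have hsum : ∑ v : InfinitePlace K, (v.mult : ℝ) = d := by
    rw [hd]
    exact_mod_cast InfinitePlace.sum_mult_eq (K := K)
  have hside := side_eq h1
  have hlt : ∑ v : InfinitePlace K, (v.mult : ℝ) * (Real.log (v (1 + s)) - Real.log (Mv v s)) <
      ∑ v : InfinitePlace K, (v.mult : ℝ) * (-(Q / (2 * d))) := by
    rw [← Finset.sum_mul, hsum, hside]
    have h2 : d * -(Q / (2 * d)) = -(Q / 2) := by field_simp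
    rw [h2]
    linarith
  obtain ⟨v, _, hv⟩ := Finset.exists_lt_of_sum_lt hlt
  refine ⟨v, ?_⟩
  have hm : (0 : ℝ) < v.mult := by exact_mod_cast InfinitePlace.mult_pos (w := v)
  have hv' : Real.log (v (1 + s)) - Real.log (Mv v s) < -(Q / (2 * d)) :=
    lt_of_mul_lt_mul_left hv hm.le
  have hpos : 0 < v (1 + s) := InfinitePlace.pos_iff.mpr h1
  have hM1 := Mv_ge_one v s
  have hM0 : 0 < Mv v s := lt_of_lt_of_le one_pos hM1
  set η : ℝ := Real.exp (-(Q / (2 * d))) with hη
  have hη0 : 0 < η := Real.exp_pos _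
  have h3 : v (1 + s) < η * Mv v s := by
    have h4 : Real.log (v (1 + s)) < Real.log (η * Mv v s) := by
      rw [Real.log_mul hη0.ne' hM0.ne', hη, Real.log_exp]
      linarith
    exact (Real.log_lt_log_iff hpos (mul_pos hη0 hM0)).mp h4
  have hη4 : η ≤ 1 / 4 := by
    have h5 : 4 ≤ Q / (2 * d) := by
      rw [le_div_iff₀ (by linarith)]
      linarith
    have h6 : η ≤ Real.exp (-4) := Real.exp_le_exp.mpr (by linarith)
    have h7 : Real.exp (-4) * Real.exp 4 = 1 := by rw [← Real.exp_add]; simp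
    have h8 : (5 : ℝ) ≤ Real.exp 4 := by
      have := Real.add_one_le_exp (4 : ℝ)
      linarith
    have h9 := Real.exp_pos (-4 : ℝ)
    nlinarith
  have hs1 : v s ≤ 1 + v (1 + s) := by
    have h10 : v s = v ((1 + s) + -1) := by congr 1; ring
    rw [h10]
    have h11 : v ((1 + s) + -1) ≤ v (1 + s) + v (-1) := v.1.add_le (1 + s) (-1)
    have h12 : v (-1 : K) = 1 := by
      have h13 : v.1 (-1 : K) = v.1 1 := v.1.map_neg 1
      exact h13.trans v.1.map_one
    linarith
  have hMle : Mv v s ≤ 1 + v (1 + s) := by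
    unfold Mv
    refine max_le hs1 (max_le ?_ ?_)
    · linarith
    · linarith
  nlinarith

end AbcRadK
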