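import Pool.Agent.Work.MP_a793bb_nt.RadK.SuppK

/-!
# An ideal power dividing a long side

Proof. `LP y univ = ∑_{p ∈ Zp y} kp p y lN p ≥ Q / 2` (`LP_eq`, `kp p y > 0` for `p ∈ Zp y`), and
`∑_{p ∈ Zp y} lN p ≤ ℓ`. Case 1: some `p` with `lN p > δ ℓ` has `kp p y ≥ L0`: take `M = p`.
Case 2: not. Let `W = ∏ p ^ (kp p y / L0)` (natural division) over `p ∈ Zp y`, `lN p ≤ δ ℓ`. As in
`Rad/SideType.lean`, `L0 log N(W) + L0 ℓ ≥ LP y univ ≥ Q / 2 ≥ 4 L0 ℓ / δ`, so `log N(W) ≥ δ ℓ`. Let `M` be a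
divisor of `W` of minimal norm with `log N(M) ≥ δ ℓ`; `M ≠ 1`, and removing one prime `q ∣ M`
(`lN q ≤ δ ℓ`) shows `log N(M) ≤ 2 δ ℓ`. `ex M p ≤ ex W p = kp p y / L0`. (Instead of a divisor
of minimal norm one may add the primes of `W` one at a time until the sum of the `lN` is at least
`δ ℓ`; for instance work with functions `m ≤ kp p y / L0` and finite sums, and put
`M = ∏ p ^ m p` at the end.)
-/

set_option autoImplicit false

namespace AbcRadK

open Finset AbcRad Pool.Agent.Work.MP_a793bb_nt Pool.Agent.Work.MP_a793bb_nt.BPlus NumberField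
  IsDedekindDomain Height

variable {K : Type*} [Field K] [NumberField K]

theorem lN_nonneg' (p : HeightOneSpectrum (𝓞 K)) : 0 ≤ lN p := (lN_pos p).le

theorem log_absNorm_prime (p : HeightOneSpectrum (𝓞 K)) :
    Real.log (Ideal.absNorm p.asIdeal) = lN p := rfl

theorem absNorm_pos' {I : Ideal (𝓞 K)} (hI : I ≠ ⊥) : 0 < Ideal.absNorm I := by
  have h1 := one_le_absNorm K hI
  have h2 : (0 : ℝ) < (Ideal.absNorm I : ℝ) := by linarith
  exact_mod_cast h2

open Classical in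
theorem LP_univ_eq {y : K} (hy : y ≠ 0) :
    LP y Set.univ = ∑ p ∈ (finite_Zp hy).toFinset, (kp p y : ℝ) * lN p := by
  rw [LP_eq hy Set.univ (finite_Zp hy).toFinset (fun p hp => by simpa using hp)]
  refine Finset.sum_congr rfl fun p hp => ?_
  have h1 : p ∈ Zp y := by simpa using hp
  have h2 : 0 < kp p y := (av_lt_one_iff_kp p hy).mp h1
  unfold lpt
  rw [if_pos ⟨h2, Set.mem_univ _⟩]

open Classical in
theorem side_typeK (δ ℓ Q : ℝ) (hδ : 0 < δ) (hδ1 : δ ≤ 1 / 10) (hℓ : 1 ≤ ℓ) (hQ : 0 < Q)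
    (L0 : ℕ) (hL0 : 1 ≤ L0) (hL : (L0 : ℝ) * ℓ ≤ δ * Q / 8) (y : K) (hy : y ≠ 0)
    (hyQ : Q / 2 ≤ LP y Set.univ) (hr : Rs (Zp y) ≤ ℓ) :
    ∃ M : Ideal (𝓞 K), M ≠ ⊥ ∧
      (∀ p : HeightOneSpectrum (𝓞 K), p.asIdeal ∣ M → p ∈ Zp y ∧ ((ex M p * L0 : ℕ) : ℤ) ≤ kp p y) ∧
      δ * ℓ ≤ Real.log (Ideal.absNorm M) ∧
      (Real.log (Ideal.absNorm M) ≤ 2 * (δ * ℓ) ∨
        ∃ p : HeightOneSpectrum (𝓞 K), M = p.asIdeal ∧ δ * ℓ < lN p) := by
  have hℓ0 : 0 < ℓ := by linarith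
  have hδℓ : 0 < δ * ℓ := by positivity
  set Z := (finite_Zp hy).toFinset with hZ
  have hZmem : ∀ p, p ∈ Z ↔ p ∈ Zp y := fun p => by rw [hZ]; exact Set.Finite.mem_toFinset _
  have hkp : ∀ p ∈ Z, 0 < kp p y := fun p hp =>
    (av_lt_one_iff_kp p hy).mp ((hZmem p).1 hp)
  by_cases hcase : ∃ p ∈ Z, δ * ℓ < lN p ∧ (L0 : ℤ) ≤ kp p y
  · obtain ⟨p, hp, hpl, hpL⟩ := hcase
    refine ⟨p.asIdeal, p.ne_bot, ?_, ?_, Or.inr ⟨p, rfl, hpl⟩⟩
    · intro q hq
      have hqp : q = p := by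
        by_contra hne
        have h1 := (dvd_iff_ex p.ne_bot q).1 hq
        exact h1 (ex_ne (fun h => hne h.symm))
      subst hqp
      refine ⟨(hZmem q).1 hp, ?_⟩
      rw [ex_self, one_mul]
      exact hpL
    · rw [log_absNorm_prime]; exact hpl.le
  push Not at hcase
  set A := Z.filter (fun p => lN p ≤ δ * ℓ) with hA
  set w : HeightOneSpectrum (𝓞 K) → ℕ := fun p => (kp p y).toNat / L0 with hw
  set W : Ideal (𝓞 K) := ∏ p ∈ A, p.asIdeal ^ w p with hW
  have hW0 : W ≠ ⊥ := by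
    rw [hW, ← Ideal.zero_eq_bot, Finset.prod_ne_zero_iff]
    intro p _
    exact pow_ne_zero _ p.ne_bot
  have hexW : ∀ p, ex W p = if p ∈ A then w p else 0 := fun p => ex_prod A w p
  have hlogW : Real.log (Ideal.absNorm W) = ∑ p ∈ A, (w p : ℝ) * lN p := by
    rw [hW, map_prod]
    push_cast
    rw [Real.log_prod]
    · refine Finset.sum_congr rfl fun p _ => ?_
      rw [map_pow]
      push_cast
      rw [Real.log_pow, log_absNorm_prime]
    · intro p _
      have := absNorm_pos' (pow_ne_zero (w p) p.ne_bot : p.asIdeal ^ w p ≠ ⊥)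
      positivity
  have hL0R : (0 : ℝ) < L0 := by exact_mod_cast hL0
  have hRs : ∑ p ∈ Z, lN p ≤ ℓ := by
    rw [Rs, finsum_mem_eq_finite_toFinset_sum _ (finite_Zp hy)] at hr
    exact hr
  have hsum : Q / 2 ≤ L0 * Real.log (Ideal.absNorm W) + L0 * ℓ := by
    calc Q / 2 ≤ LP y Set.univ := hyQ
      _ = ∑ p ∈ Z, (kp p y : ℝ) * lN p := LP_univ_eq hy
      _ ≤ ∑ p ∈ Z, (L0 * (if lN p ≤ δ * ℓ then (w p : ℝ) * lN p else 0) + L0 * lN p) := by
          refine Finset.sum_le_sum fun p hp => ?_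
          have h0 := lN_nonneg' p
          have hk := hkp p hp
          split_ifs with hps
          · have h1 : (kp p y : ℝ) ≤ L0 * (w p : ℝ) + L0 := by
              have h3 := Nat.lt_mul_div_succ (kp p y).toNat (show 0 < L0 from hL0)
              have h2 : (kp p y).toNat ≤ L0 * (w p + 1) := h3.le
              have h4 : (((kp p y).toNat : ℕ) : ℝ) ≤ L0 * ((w p : ℝ) + 1) := by
                exact_mod_cast h2
              have h5 : (((kp p y).toNat : ℕ) : ℝ) = (kp p y : ℝ) := by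
                have h6 : (((kp p y).toNat : ℕ) : ℤ) = kp p y := Int.toNat_of_nonneg hk.le
                exact_mod_cast h6
              rw [h5] at h4
              linarith
            calc (kp p y : ℝ) * lN p ≤ (L0 * (w p : ℝ) + L0) * lN p := by gcongr
              _ = _ := by ring
          · have h1 : kp p y < (L0 : ℤ) := hcase p hp (not_le.1 hps)
            have h2 : (kp p y : ℝ) ≤ L0 := by exact_mod_cast h1.le
            have : (kp p y : ℝ) * lN p ≤ L0 * lN p := by gcongr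
            linarith
      _ = L0 * Real.log (Ideal.absNorm W) + L0 * ∑ p ∈ Z, lN p := by
          rw [Finset.sum_add_distrib, ← Finset.mul_sum, ← Finset.mul_sum, hlogW, hA,
            Finset.sum_filter]
      _ ≤ L0 * Real.log (Ideal.absNorm W) + L0 * ℓ := by gcongr
  have hWl : δ * ℓ ≤ Real.log (Ideal.absNorm W) := by
    have h2 : 8 * (L0 * ℓ) ≤ 1 / 10 * Q := by
      have : δ * Q ≤ 1 / 10 * Q := by gcongr
      linarith
    have h6 : 0 < L0 * ℓ := by positivity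
    have h3 : L0 * (δ * ℓ) ≤ L0 * Real.log (Ideal.absNorm W) := by
      have h4 : L0 * (δ * ℓ) ≤ L0 * ℓ := by
        have : δ * ℓ ≤ ℓ := by nlinarith
        gcongr
      linarith
    exact le_of_mul_le_mul_left h3 hL0R
  -- a divisor of minimal norm
  have hex : ∃ n : ℕ, ∃ M : Ideal (𝓞 K), M ∣ W ∧ Ideal.absNorm M = n ∧
      δ * ℓ ≤ Real.log (Ideal.absNorm M) := ⟨_, W, dvd_rfl, rfl, hWl⟩
  obtain ⟨M, hMW, hMn, hMl⟩ := Nat.find_spec hex
  have hmin : ∀ M' : Ideal (𝓞 K), M' ∣ W → Ideal.absNorm M' < Ideal.absNorm M →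
      Real.log (Ideal.absNorm M') < δ * ℓ := by
    intro M' h1 h2
    by_contra h3
    rw [hMn] at h2
    exact Nat.find_min hex h2 ⟨M', h1, rfl, not_lt.1 h3⟩
  have hM0 : M ≠ ⊥ := by
    rintro rfl
    exact hW0 (by rw [← Ideal.zero_eq_bot] at hMW ⊢; exact zero_dvd_iff.1 hMW)
  have hdivA : ∀ p : HeightOneSpectrum (𝓞 K), p.asIdeal ∣ M → p ∈ A := by
    intro p hp
    by_contra hcon
    have h1 := (dvd_iff_ex hW0 p).1 (hp.trans hMW)
    rw [hexW, if_neg hcon] at h1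
    exact h1 rfl
  refine ⟨M, hM0, ?_, hMl, Or.inl ?_⟩
  · intro p hp
    have hpA := hdivA p hp
    have hpZ : p ∈ Z := (Finset.mem_filter.1 hpA).1
    refine ⟨(hZmem p).1 hpZ, ?_⟩
    have h1 : ex M p ≤ ex W p :=
      (pow_ex_dvd p hW0).1 (((pow_ex_dvd p hM0).2 le_rfl).trans hMW)
    rw [hexW, if_pos hpA] at h1
    have h2 : ex M p * L0 ≤ (kp p y).toNat :=
      le_trans (Nat.mul_le_mul_right _ h1) (Nat.div_mul_le_self _ _)
    have h3 : (((kp p y).toNat : ℕ) : ℤ) = kp p y := Int.toNat_of_nonneg (hkp p hpZ).le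
    rw [← h3]
    exact_mod_cast h2
  · have hMne : M ≠ ⊤ := by
      rintro rfl
      rw [Ideal.absNorm_top] at hMl
      norm_num at hMl
      linarith
    obtain ⟨P, hPmax, hPM⟩ := Ideal.exists_le_maximal M hMne
    have hPne : P ≠ ⊥ := by
      rintro rfl
      exact hM0 (le_bot_iff.1 hPM)
    set p : HeightOneSpectrum (𝓞 K) := ⟨P, hPmax.isPrime, hPne⟩ with hp
    have hpM : p.asIdeal ∣ M := Ideal.dvd_iff_le.2 hPM
    obtain ⟨M', hM'⟩ := hpM
    have hM'0 : M' ≠ ⊥ := by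
      rintro rfl
      apply hM0
      rw [hM', Ideal.mul_bot]
    have hnorm : Ideal.absNorm M = Ideal.absNorm p.asIdeal * Ideal.absNorm M' := by
      rw [hM', map_mul]
    have hNp2 : 2 ≤ Ideal.absNorm p.asIdeal := by
      have := two_le_Np p
      have h3 : (2 : ℝ) ≤ (Ideal.absNorm p.asIdeal : ℝ) := this
      exact_mod_cast h3
    have hM'pos := absNorm_pos' hM'0
    have hlt : Ideal.absNorm M' < Ideal.absNorm M := by
      rw [hnorm]; nlinarith
    have h1 := hmin M' ((Dvd.intro_left _ hM'.symm).trans hMW) hlt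
    have h2 : lN p ≤ δ * ℓ := (Finset.mem_filter.1 (hdivA p (Dvd.intro _ hM'.symm))).2
    have h3 : Real.log (Ideal.absNorm M) = lN p + Real.log (Ideal.absNorm M') := by
      rw [hnorm]
      push_cast
      rw [Real.log_mul (by positivity) (by positivity), log_absNorm_prime]
    rw [h3]
    linarith

end AbcRadK
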