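import Pool.Agent.Work.MP_a793bb_nt.RadK.UpperK
import Pool.Agent.Work.MP_a793bb_nt.RadK.FinalDefs
import Pool.Agent.Work.MP_a793bb_nt.ExcMain

/-!
# The theorem over number fields

Proofs. `radPts_eq`: as `excPts_eq` in `ExcMain.lean`: `radPts K R H` is the image under the injective map
`ptOf` of `{t | t ≠ 0, 1, exp (Rs (Ip t)) ≤ R, hh t / d ≤ H}` (`rad_affine`, `logHeight_affine`).
`upper_radPts`: for `R ≥ 2` put `ℓ = log R`; `R ^ (ε / 2) = exp (ε / 2 * ℓ)`, so `h(P) ≤ exp (R ^ (ε / 2))` is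
`hh t ≤ d exp (exp (ε / 2 * ℓ))`; `upperK`.
`lower_radPts`: `lower_excPts` with `lam = 3`, `δ = ε`, `B = log R / (3 d)`: a point with `h(P) ≤ B`,
`rad(P) ≤ 3 h(P)` has `d rad(P) ≤ 3 d B = log R` and `h(P) ≤ B ≤ exp (R ^ (ε / 2))` for large `R`; the number
is at least `c exp ((2 - ε) d B) = c R ^ ((2 - ε) / 3) ≥ c R ^ (2 / 3 - ε)`; the set is finite by
`upper_radPts`, so `Set.ncard_le_ncard` applies.
-/

set_option autoImplicit false

namespace Pool.Agent.Work.MP_a793bb_nt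

open NumberField IsDedekindDomain Height LinearAlgebra.Projectivization AbcRadK

lemma radPts_eq {K : Type*} [Field K] [NumberField K] (R H : ℝ) : radPts K R H =
    BPlus.ptOf '' {t : K | t ≠ 0 ∧ t ≠ 1 ∧ Real.exp (Rs (Ip t)) ≤ R ∧
      BPlus.hh t ≤ (Module.finrank ℚ K : ℝ) * H} := by
  set d : ℝ := (Module.finrank ℚ K : ℝ) with hd
  have hd0 : 0 < d := finrank_pos'
  have hconv : ∀ t : K, (Real.exp (d * rad t (1 - t) (-1)) ≤ R ∧ ht t (1 - t) (-1) ≤ H) ↔
      (Real.exp (Rs (Ip t)) ≤ R ∧ BPlus.hh t ≤ d * H) := by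
    intro t
    have e1 : ht t (1 - t) (-1) = BPlus.hh t / d := rfl
    have e2 : rad t (1 - t) (-1) = Rs (Ip t) / d := rfl
    rw [e1, e2, mul_div_cancel₀ _ hd0.ne', div_le_iff₀ hd0, mul_comm H d]
  ext P
  constructor
  · rintro ⟨a, b, c, h, rfl, habc, hne, h1, h2⟩
    have hc : c ≠ 0 := right_ne_zero_of_mul hne
    have hb : b ≠ 0 := right_ne_zero_of_mul (left_ne_zero_of_mul hne)
    have ha : a ≠ 0 := left_ne_zero_of_mul (left_ne_zero_of_mul hne)
    refine ⟨-a / c, ⟨affine_ne_zero ha hc, affine_ne_one hb hc habc, ?_⟩, ?_⟩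
    · rw [← hconv]
      have e1 : ht (-a / c) (1 - -a / c) (-1) = ht a b c := by
        rw [ht, ht, logHeight_affine hc habc]
      have e2 : rad (-a / c) (1 - -a / c) (-1) = rad a b c := (rad_affine hc habc).symm
      rw [e1, e2]
      exact ⟨h1, h2⟩
    · rw [BPlus.ptOf, Projectivization.mk_eq_mk_iff']
      refine ⟨-1 / c, ?_⟩
      have h2 : -1 / c * b = 1 - -a / c := by
        field_simp
        linear_combination -habc
      ext i
      fin_cases i
      · change -1 / c * a = -a / c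
        ring
      · exact h2
      · change -1 / c * c = -1
        field_simp
  · rintro ⟨t, ⟨h0, h1, h2, h3⟩, rfl⟩
    have h4 := (hconv t).mpr ⟨h2, h3⟩
    refine ⟨t, 1 - t, -1, BPlus.vec_ne_zero t, rfl, by ring, ?_, h4.1, h4.2⟩
    exact mul_ne_zero (mul_ne_zero h0 (sub_ne_zero.mpr (Ne.symm h1))) (by simp)

theorem upper_radPts (K : Type*) [Field K] [NumberField K] (ε : ℝ) (hε : 0 < ε) :
    ∃ C : ℝ, ∀ R : ℝ, 2 ≤ R →
      (radPts K R (Real.exp (R ^ (ε / 2)))).Finite ∧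
      ((radPts K R (Real.exp (R ^ (ε / 2)))).ncard : ℝ) ≤ C * R ^ (2 / 3 + ε) := by
  obtain ⟨C, hC⟩ := upperK K ε hε
  refine ⟨C, fun R hR => ?_⟩
  have hR0 : 0 < R := by linarith
  have hℓ : 0 ≤ Real.log R := Real.log_nonneg (by linarith)
  obtain ⟨hfin, hcard⟩ := hC (Real.log R) hℓ
  have hset : {t : K | t ≠ 0 ∧ t ≠ 1 ∧ Rs (Ip t) ≤ Real.log R ∧
        BPlus.hh t ≤ (Module.finrank ℚ K : ℝ) * Real.exp (Real.exp (ε / 2 * Real.log R))} =
      {t : K | t ≠ 0 ∧ t ≠ 1 ∧ Real.exp (Rs (Ip t)) ≤ R ∧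
        BPlus.hh t ≤ (Module.finrank ℚ K : ℝ) * Real.exp (R ^ (ε / 2))} := by
    ext t
    simp only [Set.mem_ofPred_eq]
    rw [← Real.le_log_iff_exp_le hR0, mul_comm (ε / 2) (Real.log R), ← Real.rpow_def_of_pos hR0]
  have hpow : Real.exp ((2 / 3 + ε) * Real.log R) = R ^ (2 / 3 + ε) := by
    rw [Real.rpow_def_of_pos hR0, mul_comm]
  rw [hset] at hfin hcard
  rw [hpow] at hcard
  rw [radPts_eq]
  refine ⟨hfin.image _, ?_⟩
  rw [Set.ncard_image_of_injective _ BPlus.ptOf_injective]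
  exact hcard

theorem lower_radPts (K : Type*) [Field K] [NumberField K] (ε : ℝ) (hε : 0 < ε) :
    ∃ c R₀ : ℝ, 0 < c ∧ ∀ R : ℝ, R₀ ≤ R →
      c * R ^ (2 / 3 - ε) ≤ ((radPts K R (Real.exp (R ^ (ε / 2)))).ncard : ℝ) := by
  obtain ⟨c, B₀, hc, h⟩ := BPlus.lower_excPts K (lam := 3) (δ := ε) (by norm_num) le_rfl hε
  obtain ⟨C, hC⟩ := upper_radPts K ε hε
  have hd0 : (0 : ℝ) < (Module.finrank ℚ K : ℝ) := finrank_pos'
  have hd1 : (1 : ℝ) ≤ (Module.finrank ℚ K : ℝ) := by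
    have : 0 < Module.finrank ℚ K := Module.finrank_pos
    exact_mod_cast this
  set d : ℝ := (Module.finrank ℚ K : ℝ) with hd
  refine ⟨c, max (max 2 ((4 / ε) ^ (2 / ε))) (Real.exp (3 * d * B₀)), hc, fun R hR => ?_⟩
  have hR2 : 2 ≤ R := ((le_max_left _ _).trans (le_max_left _ _)).trans hR
  have hRe : (4 / ε) ^ (2 / ε) ≤ R := ((le_max_right _ _).trans (le_max_left _ _)).trans hR
  have hR0 : 0 < R := by linarith
  have hR1 : 1 ≤ R := by linarith
  have hlog0 : 0 ≤ Real.log R := Real.log_nonneg hR1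
  have hB : B₀ ≤ Real.log R / (3 * d) := by
    rw [le_div_iff₀ (by positivity), mul_comm]
    exact (Real.le_log_iff_exp_le hR0).mpr ((le_max_right _ _).trans hR)
  have h1 := h _ hB
  have hsub : excPts K 3 (Real.log R / (3 * d)) ⊆ radPts K R (Real.exp (R ^ (ε / 2))) := by
    rintro P ⟨a, b, c', hne, rfl, habc, hprod, hht, hrad⟩
    refine ⟨a, b, c', hne, rfl, habc, hprod, ?_, ?_⟩
    · rw [← Real.le_log_iff_exp_le hR0]
      rw [← hd]
      have h2 : d * rad a b c' ≤ d * (3 * (Real.log R / (3 * d))) := by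
        refine mul_le_mul_of_nonneg_left (hrad.trans ?_) hd0.le
        linarith
      refine h2.trans (le_of_eq ?_)
      field_simp
    · refine hht.trans ?_
      have h3 : Real.log R / (3 * d) ≤ Real.log R := div_le_self hlog0 (by linarith)
      refine h3.trans ?_
      have h4 : ε / 2 * Real.log R ≤ R ^ (ε / 2) := by
        have h5 : Real.log (R ^ (ε / 2)) ≤ R ^ (ε / 2) - 1 :=
          Real.log_le_sub_one_of_pos (Real.rpow_pos_of_pos hR0 _)
        rw [Real.log_rpow hR0] at h5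
        linarith
      have h6 : 4 / ε ≤ R ^ (ε / 2) := by
        have h7 : ((4 / ε) ^ (2 / ε)) ^ (ε / 2) ≤ R ^ (ε / 2) :=
          Real.rpow_le_rpow (by positivity) hRe (by positivity)
        rw [← Real.rpow_mul (by positivity)] at h7
        have h8 : 2 / ε * (ε / 2) = 1 := by field_simp
        rw [h8, Real.rpow_one] at h7
        exact h7
      have hx0 : 0 ≤ R ^ (ε / 2) := by positivity
      have h10 : (R ^ (ε / 2)) ^ 2 / 2 ≤ Real.exp (R ^ (ε / 2)) := by
        have := Real.quadratic_le_exp_of_nonneg hx0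
        linarith
      refine le_trans ?_ h10
      have h11 : Real.log R ≤ 2 / ε * R ^ (ε / 2) := by
        have h12 : Real.log R = 2 / ε * (ε / 2 * Real.log R) := by field_simp
        rw [h12]
        exact mul_le_mul_of_nonneg_left h4 (by positivity)
      refine h11.trans ?_
      have h13 : 2 / ε ≤ R ^ (ε / 2) / 2 := by
        have : 2 / ε = (4 / ε) / 2 := by ring
        rw [this]
        linarith
      calc 2 / ε * R ^ (ε / 2) ≤ R ^ (ε / 2) / 2 * R ^ (ε / 2) :=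
            mul_le_mul_of_nonneg_right h13 hx0
        _ = (R ^ (ε / 2)) ^ 2 / 2 := by ring
  have hfin := (hC R hR2).1
  have h14 : ((excPts K 3 (Real.log R / (3 * d))).ncard : ℝ) ≤
      ((radPts K R (Real.exp (R ^ (ε / 2)))).ncard : ℝ) := by
    exact_mod_cast Set.ncard_le_ncard hsub hfin
  refine le_trans ?_ (h1.trans h14)
  refine mul_le_mul_of_nonneg_left ?_ hc.le
  have h15 : Real.exp ((3 - 1 - ε) * d * (Real.log R / (3 * d))) = R ^ ((2 - ε) / 3) := by
    rw [Real.rpow_def_of_pos hR0]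
    congr 1
    field_simp
    ring
  rw [h15]
  exact Real.rpow_le_rpow_of_exponent_le hR1 (by linarith)

end Pool.Agent.Work.MP_a793bb_nt
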