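import Pool.Agent.Work.MP_a793bb_nt.Rad.Defs
import Pool.Agent.Work.MP_a793bb_nt.Sides
import Pool.Agent.Work.MP_a793bb_nt.SmallRad

/-!
# Definitions for the count of the points with bounded radical over a number field

The library of this folder is used: `kp p x` is the exponent of the prime `p` in `x`, `av p x` the
normalised absolute value, `lN p` the logarithm of the norm of `p`, `Rs S` the sum of `lN p` over
the set `S`, `Ip t` the primes where `t` or `1 - t` is not a unit, `hh t` the logarithmic height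
`logHeight ![t, 1 - t, -1]` (a sum over all places, not divided by the degree), `LP y univ` the
logarithm of the norm of the numerator of `y`, and `sOf j t` (`j : Fin 3`) the elements
`t - 1, - 1 / t, t / (1 - t)`, so that `1 + sOf j t` is `t, (t - 1) / t, 1 / (1 - t)`.
-/

set_option autoImplicit false

namespace AbcRadK

open Finset AbcRad Pool.Agent.Work.MP_a793bb_nt Pool.Agent.Work.MP_a793bb_nt.BPlus NumberField
  IsDedekindDomain Height

/-- The value `∑ p_{kj} (n k + j choose l) t ^ k ξ ^ j`. -/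
noncomputable def Vl {F : Type*} [Field F] (c : ℕ → ℕ → ℤ) (n I J l : ℕ) (t ξ : F) : F :=
  ∑ k ∈ range I, ∑ j ∈ range J, (c k j : F) * ((n * k + j).choose l : F) * t ^ k * ξ ^ j

variable {K : Type*} [Field K] [NumberField K]

open Classical in
/-- The primes at which `u` is not a unit. -/
noncomputable def supp (u : K) : Finset (HeightOneSpectrum (𝓞 K)) :=
  if h : u ≠ 0 then (finite_av_ne_one h).toFinset else ∅

open Classical in
/-- The primes of logarithmic norm at most `y` at which `u` is not a unit. -/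
noncomputable def smal (y : ℝ) (u : K) : Finset (HeightOneSpectrum (𝓞 K)) :=
  (supp u).filter (fun p => lN p ≤ y)

/-- The sum of the logarithmic norms. -/
noncomputable def lsum (S : Finset (HeightOneSpectrum (𝓞 K))) : ℝ := ∑ p ∈ S, lN p

/-- Conditions common to all cells. -/
structure BaseK (δ κ ℓ Q : ℝ) (n : ℕ) (u : K) : Prop where
  ne0 : u ≠ 0
  hH : logHeight₁ u ≤ 2 * Q
  hrad : lsum (supp u) ≤ ℓ
  hlarge : ∀ p ∈ supp u, δ * ℓ < lN p → |(gr n (kp p u) : ℝ)| ≤ κ * n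

/-- The same label at the small primes. -/
def SameLab (δ κ ℓ : ℝ) (n : ℕ) (u u' : K) : Prop :=
  smal (δ * ℓ) u = smal (δ * ℓ) u' ∧ ∀ p ∈ smal (δ * ℓ) u,
    ⌊(gr n (kp p u) : ℝ) / (κ * n)⌋ = ⌊(gr n (kp p u') : ℝ) / (κ * n)⌋

/-- `ξ` is an approximate `n`-th root of `u`, up to the ideal `b`. -/
structure Dec (C : ℝ) (n : ℕ) (u : K) (b : Ideal (𝓞 K)) (ξ : K) : Prop where
  ne0 : ξ ≠ 0
  val : ∀ p, kp p ξ = fr n (kp p u) + ex b p
  arch : ∀ v : InfinitePlace K, |Real.log (v ξ) - Real.log (v u) / n| ≤ C + lsum (supp u)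

/-- `u` lies in a `p`-adic cell of logarithmic cost at most `Y`. -/
def PCapK (δ κ ℓ Q Y : ℝ) (n L0 : ℕ) (u : K) : Prop :=
  BaseK δ κ ℓ Q n u ∧ ∃ M : Ideal (𝓞 K), M ≠ ⊥ ∧
    (∀ p : HeightOneSpectrum (𝓞 K), p.asIdeal ∣ M → ((ex M p * L0 : ℕ) : ℤ) ≤ kp p (1 - u)) ∧
    δ * ℓ ≤ Real.log (Ideal.absNorm M) ∧
    lsum (smal (δ * ℓ) u) + 2 * Real.log (Ideal.absNorm M) ≤ Y

/-- `u` lies in a cell of logarithmic cost at most `Y` at the infinite place `v`. -/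
def RCapK (δ κ ℓ Q Y : ℝ) (n : ℕ) (v : InfinitePlace K) (u : K) : Prop :=
  BaseK δ κ ℓ Q n u ∧ v (u - 1) ≤ 2 * Real.exp (-(Q / (2 * (Module.finrank ℚ K : ℝ)))) ∧
    lsum (smal (δ * ℓ) u) ≤ Y

/-- Conditions on the parameters (`d` is the degree). -/
structure ParK (d : ℕ) (δ κ ℓ Q : ℝ) (n I J L0 : ℕ) : Prop where
  hδ : 0 < δ
  hκ : 0 < κ
  hℓ : 1 ≤ ℓ
  hQ : 8 * d ≤ Q
  hJ8 : 8 ≤ J
  hJn : J ≤ n
  hI : 2 ≤ I
  hIJ : I * J ≤ L0
  hL0 : (L0 : ℝ) * (δ * ℓ) ≤ Q / (8 * d)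
  key : 2 * (12 * d * (Real.log ((n * I : ℕ) : ℝ) + (n * I : ℕ) * Real.log 2) +
      I * ((2 + d) * (κ * n) * ℓ) + J * (24 * Q / n + d * κ * ℓ)) < (I * J : ℕ) * (δ * ℓ)

/-- `κ` as a function of `δ` and the degree. -/
noncomputable def kapK (d : ℕ) (δ : ℝ) : ℝ := δ ^ 3 / (400000 * d * (d + 2))

/-- The range of the Dirichlet multiplier `h`. -/
noncomputable def KKK (d : ℕ) (δ : ℝ) : ℕ := ⌈2 / kapK d δ⌉₊ ^ ⌊1 / δ⌋₊

/-- The numerator `N` of `n = N / h`. -/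
noncomputable def NNK (ℓ Q : ℝ) : ℕ := ⌊Q / ℓ / 4⌋₊

/-- The exponent `L0`. -/
noncomputable def LLK (d : ℕ) (δ ℓ Q : ℝ) : ℕ := ⌊δ * (Q / ℓ) / (8 * d)⌋₊

/-- The solutions in the window `Q < height ≤ 2 Q`. -/
def wsetK (K : Type*) [Field K] [NumberField K] (ℓ Q : ℝ) : Set K :=
  {t | t ≠ 0 ∧ t ≠ 1 ∧ Rs (Ip t) ≤ ℓ ∧ Q < hh t ∧ hh t ≤ 2 * Q}

end AbcRadK
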