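import Pool.Agent.Work.MP_a793bb_nt.RadK.SuppK
import Pool.Agent.Work.MP_a793bb_nt.RadK.HtEq
import Pool.Agent.Work.MP_a793bb_nt.Rad.Dirichlet

/-!
# Every element satisfies `BaseK` for some `n = N / h`

Proof. Let `S` be the set of `p ∈ supp u` with `lN p > δ ℓ`; `S.card * δ ℓ ≤ lsum (supp u) ≤ ℓ`, so
`S.card ≤ ⌊1 / δ⌋₊`. For `p ∈ S`, `|kp p u| δ ℓ ≤ |kp p u| lN p ≤ 2 logHeight₁ u ≤ 4 Q`
(`sum_kp_le` with `T = {p}`), so `|kp p u| ≤ E := 4 (Q / ℓ) / δ`. Apply `dirichlet` (`Rad/Dirichlet.lean`),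
which is stated for finite sets of natural numbers: number the elements of `S`
(`S.equivFin`, or any injection `S → ℕ`), `κ = kapK d δ ≤ 1`, `m = ⌊1 / δ⌋₊`, `K = KKK d δ`.
-/

set_option autoImplicit false

namespace AbcRadK

open Finset AbcRad Pool.Agent.Work.MP_a793bb_nt Pool.Agent.Work.MP_a793bb_nt.BPlus NumberField
  IsDedekindDomain Height

variable {K : Type*} [Field K] [NumberField K]

theorem base_existsK (δ ℓ Q : ℝ) (hδ : 0 < δ) (hδ1 : δ ≤ 1 / 10) (hℓ : 1 ≤ ℓ) (hQ : 0 < Q)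
    (hN : 2 * KKK (Module.finrank ℚ K) δ ≤ NNK ℓ Q)
    (hNE : 4 * (4 * (Q / ℓ) / δ) * (KKK (Module.finrank ℚ K) δ : ℝ) ^ 2 ≤
      kapK (Module.finrank ℚ K) δ * (NNK ℓ Q : ℝ) ^ 2)
    (u : K) (hu : u ≠ 0) (hH : logHeight₁ u ≤ 2 * Q) (hr : lsum (supp u) ≤ ℓ) :
    ∃ h : ℕ, 1 ≤ h ∧ h ≤ KKK (Module.finrank ℚ K) δ ∧
      BaseK δ (kapK (Module.finrank ℚ K) δ) ℓ Q (NNK ℓ Q / h) u := by
  classical
  have hd : (1 : ℝ) ≤ (Module.finrank ℚ K : ℝ) := by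
    exact_mod_cast Module.finrank_pos (R := ℚ) (M := K)
  have hℓ0 : 0 < ℓ := by linarith
  have hδℓ : 0 < δ * ℓ := by positivity
  obtain ⟨S, hS⟩ : ∃ S : Finset (HeightOneSpectrum (𝓞 K)), S = (supp u).filter
    (fun p => δ * ℓ < lN p) := ⟨_, rfl⟩
  have hSp : ∀ p ∈ S, δ * ℓ < lN p := by
    intro p hp
    rw [hS, Finset.mem_filter] at hp
    exact hp.2
  have hcard : S.card ≤ ⌊1 / δ⌋₊ := by
    apply Nat.le_floor
    have e1 : (S.card : ℝ) * (δ * ℓ) ≤ ℓ := by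
      calc (S.card : ℝ) * (δ * ℓ) = ∑ _p ∈ S, (δ * ℓ) := by rw [Finset.sum_const, nsmul_eq_mul]
        _ ≤ ∑ p ∈ S, lN p := Finset.sum_le_sum fun p hp => (hSp p hp).le
        _ ≤ ∑ p ∈ supp u, lN p := by
            refine Finset.sum_le_sum_of_subset_of_nonneg
              (by rw [hS]; exact Finset.filter_subset _ _) (fun p _ _ => (lN_pos p).le)
        _ ≤ ℓ := hr
    rw [le_div_iff₀ hδ]
    have e2 : ((S.card : ℝ) * δ) * ℓ ≤ 1 * ℓ := by linarith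
    exact le_of_mul_le_mul_right e2 hℓ0
  obtain ⟨κ, hκ⟩ : ∃ κ : ℝ, κ = kapK (Module.finrank ℚ K) δ := ⟨_, rfl⟩
  have hkap : 0 < κ := by
    rw [hκ]
    unfold kapK
    positivity
  have hkap1 : κ ≤ 1 := by
    rw [hκ]
    unfold kapK
    rw [div_le_one (by positivity)]
    have h1 : δ ^ 3 ≤ 1 ^ 3 := pow_le_pow_left₀ hδ.le (by linarith) 3
    nlinarith
  have hev : ∀ p ∈ S, |(kp p u : ℝ)| ≤ 4 * (Q / ℓ) / δ := by
    intro p hp
    have h1 := sum_kp_le u hu {p}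
    rw [Finset.sum_singleton] at h1
    have h2 : |(kp p u : ℝ)| * (δ * ℓ) ≤ 4 * Q :=
      (mul_le_mul_of_nonneg_left (hSp p hp).le (abs_nonneg _)).trans (by linarith)
    have h5 : 4 * (Q / ℓ) / δ = 4 * Q / (δ * ℓ) := by field_simp
    rw [h5, le_div_iff₀ hδℓ]
    exact h2
  rw [← hκ] at hNE ⊢
  obtain ⟨e, he⟩ : ∃ e : ℕ → ℤ, e = fun i =>
    if h : i < S.card then kp (S.equivFin.symm ⟨i, h⟩ : HeightOneSpectrum (𝓞 K)) u else 0 :=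
    ⟨_, rfl⟩
  have he1 : ∀ i ∈ Finset.range S.card, |(e i : ℝ)| ≤ 4 * (Q / ℓ) / δ := by
    intro i hi
    rw [Finset.mem_range] at hi
    rw [he]
    simp only [hi, dif_pos]
    exact hev _ (S.equivFin.symm ⟨i, hi⟩).2
  obtain ⟨h, hh1, hhK, hh⟩ := dirichlet κ hkap hkap1 ⌊1 / δ⌋₊ (4 * (Q / ℓ) / δ)
    (by positivity) (NNK ℓ Q) (KKK (Module.finrank ℚ K) δ) (by rw [hκ]; rfl) hN hNE
    (Finset.range S.card) (by rw [Finset.card_range]; exact hcard) e he1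
  refine ⟨h, hh1, hhK, ⟨hu, hH, hr, ?_⟩⟩
  intro p hp hpR
  have hpS : p ∈ S := by rw [hS, Finset.mem_filter]; exact ⟨hp, hpR⟩
  have h1 := hh (S.equivFin ⟨p, hpS⟩ : Fin S.card) (Finset.mem_range.2 (S.equivFin ⟨p, hpS⟩).2)
  have h2 : e (S.equivFin ⟨p, hpS⟩ : Fin S.card) = kp p u := by
    rw [he]
    simp only [Fin.is_lt, dif_pos, Fin.eta, Equiv.symm_apply_apply]
  rw [h2] at h1
  exact h1

end AbcRadK
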