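import Pool.Agent.Work.MP_a793bb_nt.RadK.NonvanK
import Pool.Agent.Work.MP_a793bb_nt.RadK.SizeK
import Pool.Agent.Work.MP_a793bb_nt.RadK.SmallK
import Pool.Agent.Work.MP_a793bb_nt.RadK.HtEq
import Pool.Agent.Work.MP_a793bb_nt.Rad.Siegel

/-!
# Main lemma over a number field, finite places

Proof. `L = I J - (I J + 7) / 8 ≥ J`, `c` from `siegel`, `B = (I J * 2 ^ (n I)) ^ 7`, `l` from
`nonvanish_field`, `V = Vl c n I J l (τ ξ ^ n) ξ ≠ 0`, `t = τ ξ ^ n`. Let `T` be a finite set of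
primes containing `S` and all primes where one of `V`, `t`, `ξ` has `av p ≠ 1`. The product formula
(`prodFormula_log`) is `∑_v mult log (v V) + ∑_{p ∈ T} log (av p V) = 0`. Now
`log (v V) ≤ log (I J B 2 ^ (n I)) + (I - 1) log (max 1 (v t)) + (J - 1) log (max 1 (v ξ))` (`inf_size`),
`log (av p V) ≤ (I - 1) log (max 1 (av p t)) + (J - 1) log (max 1 (av p ξ))` (`fin_size`) for
`p ∈ T`, `p ∉ S`, and `log (av p V) ≤ - m_p (L - l) lN p` for `p ∈ S` (`fin_small`; `M ^ L` instead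
of `M ^ (I J)`, and `av p τ = 1` since `av p (τ - 1) < 1`). Sum (`∑_v mult = d`, `ht_eq` for `t` and `ξ`):
`(L - l) ∑_{p ∈ S} m_p lN p ≤ d log (I J B 2 ^ (n I)) + I logHeight₁ t + J logHeight₁ ξ`,
`log (I J B 2 ^ (n I)) ≤ 12 (log (n I) + n I log 2)` as in `main_padic`, and
`2 (L - l) ≥ I J` as in `main_padic`.
-/

set_option autoImplicit false

namespace AbcRadK

open Finset AbcRad Pool.Agent.Work.MP_a793bb_nt Pool.Agent.Work.MP_a793bb_nt.BPlus NumberField
  IsDedekindDomain Height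

variable {K : Type*} [Field K] [NumberField K]

private theorem av_eq_one_of (p : HeightOneSpectrum (𝓞 K)) (τ : K) (h : av p (τ - 1) < 1) :
    av p τ = 1 := by
  apply le_antisymm
  · have h1 : τ = (τ - 1) + 1 := by ring
    rw [h1]
    refine (av_add_le p _ _).trans (max_le h.le ?_)
    rw [av_one]
  · by_contra hc
    rw [not_le] at hc
    have h1 : (1 : K) = τ + -(τ - 1) := by ring
    have h2 : av p (1 : K) ≤ max (av p τ) (av p (-(τ - 1))) := by
      conv_lhs => rw [h1]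
      exact av_add_le p _ _
    rw [av_one, av_neg] at h2
    exact absurd h2 (not_le.2 (max_lt hc h))

private theorem log_max_nonneg (x : ℝ) : 0 ≤ Real.log (max 1 x) :=
  Real.log_nonneg (le_max_left _ _)

private theorem log_prod_le (V A x y : ℝ) (i j I J : ℕ) (hA : 1 ≤ A) (hi : i ≤ I) (hj : j ≤ J)
    (hV : 0 < V) (h : V ≤ A * max 1 x ^ i * max 1 y ^ j) :
    Real.log V ≤ Real.log A + I * Real.log (max 1 x) + J * Real.log (max 1 y) := by
  have h1 : (0 : ℝ) < max 1 x := lt_of_lt_of_le one_pos (le_max_left _ _)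
  have h2 : (0 : ℝ) < max 1 y := lt_of_lt_of_le one_pos (le_max_left _ _)
  have h3 : Real.log (A * max 1 x ^ i * max 1 y ^ j) =
      Real.log A + i * Real.log (max 1 x) + j * Real.log (max 1 y) := by
    rw [Real.log_mul (by positivity) (by positivity), Real.log_mul (by positivity) (by positivity),
      Real.log_pow, Real.log_pow]
  have h4 := Real.log_le_log hV h
  rw [h3] at h4
  have h5 : (i : ℝ) * Real.log (max 1 x) ≤ I * Real.log (max 1 x) :=
    mul_le_mul_of_nonneg_right (by exact_mod_cast hi) (log_max_nonneg x)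
  have h6 : (j : ℝ) * Real.log (max 1 y) ≤ J * Real.log (max 1 y) :=
    mul_le_mul_of_nonneg_right (by exact_mod_cast hj) (log_max_nonneg y)
  linarith

theorem main_fin (n I J : ℕ) (hJ8 : 8 ≤ J) (hJn : J ≤ n) (hI : 2 ≤ I)
    (S : Finset (HeightOneSpectrum (𝓞 K))) (m : HeightOneSpectrum (𝓞 K) → ℕ)
    (hm : ∀ p ∈ S, 1 ≤ m p) (τ ξ : K) (hτ0 : τ ≠ 0) (hξ0 : ξ ≠ 0)
    (hroot : ∀ i : ℕ, 0 < i → i < I → τ ^ i ≠ 1)
    (hξ : ∀ p ∈ S, av p (ξ - 1) ≤ Real.exp (-(m p * lN p)))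
    (hτ : ∀ p ∈ S, av p (τ - 1) ≤ Real.exp (-((m p * (I * J) : ℕ) * lN p))) :
    (I * J : ℕ) * ∑ p ∈ S, (m p : ℝ) * lN p ≤
      2 * (12 * (Module.finrank ℚ K : ℝ) *
          (Real.log ((n * I : ℕ) : ℝ) + (n * I : ℕ) * Real.log 2) +
        I * logHeight₁ (τ * ξ ^ n) + J * logHeight₁ ξ) := by
  classical
  obtain ⟨P, hP⟩ : ∃ P, P = I * J := ⟨_, rfl⟩
  obtain ⟨L, hL⟩ : ∃ L, L = I * J - (I * J + 7) / 8 := ⟨_, rfl⟩
  have h2J : 2 * J ≤ P := by rw [hP]; exact Nat.mul_le_mul_right J hI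
  have h8I : 8 * I ≤ P := by rw [hP, mul_comm I J]; exact Nat.mul_le_mul_right I hJ8
  have hL' : L = P - (P + 7) / 8 := by rw [hL, hP]
  have hJL : J ≤ L := by omega
  have hLP : L ≤ I * J := by omega
  obtain ⟨c, hc0, hcz, hcB⟩ := siegel n I J L hJ8 hJn (by omega) hL
  obtain ⟨l, hl, hV⟩ := nonvanish_field (F := K) c n I J L hJn hJL hI hLP hc0 hcz τ ξ hξ0 hτ0 hroot
  have hl' : l + L + 2 ≤ P + I := by
    have : I * (J + 1) = P + I := by rw [hP]; ring
    omega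
  have hlL : l ≤ L := by omega
  obtain ⟨t, ht⟩ : ∃ t : K, t = τ * ξ ^ n := ⟨_, rfl⟩
  have ht0 : t ≠ 0 := by rw [ht]; exact mul_ne_zero hτ0 (pow_ne_zero _ hξ0)
  rw [← ht] at hV
  obtain ⟨V, hVdef⟩ : ∃ V : K, V = Vl c n I J l t ξ := ⟨_, rfl⟩
  rw [← hVdef] at hV
  obtain ⟨T, hT⟩ : ∃ T : Finset (HeightOneSpectrum (𝓞 K)),
      T = S ∪ ((finite_av_ne_one hV).toFinset ∪ ((finite_av_ne_one ht0).toFinset ∪
        (finite_av_ne_one hξ0).toFinset)) := ⟨_, rfl⟩
  have hST : S ⊆ T := by rw [hT]; exact Finset.subset_union_left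
  have hTV : ∀ p, av p V ≠ 1 → p ∈ T := fun p hp => by
    rw [hT]
    exact Finset.mem_union_right _ (Finset.mem_union_left _ ((Set.Finite.mem_toFinset _).2 hp))
  have hTt : ∀ p, 1 < av p t → p ∈ T := fun p hp => by
    rw [hT]
    exact Finset.mem_union_right _ (Finset.mem_union_right _ (Finset.mem_union_left _
      ((Set.Finite.mem_toFinset _).2 hp.ne')))
  have hTξ : ∀ p, 1 < av p ξ → p ∈ T := fun p hp => by
    rw [hT]
    exact Finset.mem_union_right _ (Finset.mem_union_right _ (Finset.mem_union_right _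
      ((Set.Finite.mem_toFinset _).2 hp.ne')))
  have hpf := prodFormula_log hV T hTV
  rw [← Finset.sum_sdiff hST] at hpf
  -- constants
  obtain ⟨G, hG⟩ : ∃ G : ℝ, G = 12 * (Real.log ((n * I : ℕ) : ℝ) + (n * I : ℕ) * Real.log 2) :=
    ⟨_, rfl⟩
  obtain ⟨B, hB⟩ : ∃ B : ℝ, B = ((I * J : ℕ) * (2 : ℝ) ^ (n * I)) ^ 7 := ⟨_, rfl⟩
  rw [← hB] at hcB
  have hB0 : 0 ≤ B := by rw [hB]; positivity
  have hnI : (1 : ℝ) ≤ ((n * I : ℕ) : ℝ) := by
    exact_mod_cast Nat.mul_pos (by omega : 0 < n) (by omega : 0 < I)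
  have hW : (1 : ℝ) ≤ 2 ^ (n * I) := one_le_pow₀ (by norm_num)
  have hIJ1 : (1 : ℝ) ≤ ((I * J : ℕ) : ℝ) := by
    exact_mod_cast Nat.mul_pos (by omega : 0 < I) (by omega : 0 < J)
  have hIJn : ((I * J : ℕ) : ℝ) ≤ ((n * I : ℕ) : ℝ) := by
    have : I * J ≤ n * I := by rw [mul_comm n I]; exact Nat.mul_le_mul_left I hJn
    exact_mod_cast this
  obtain ⟨A, hA⟩ : ∃ A : ℝ, A = ((I * J : ℕ) : ℝ) * B * 2 ^ (n * I) := ⟨_, rfl⟩
  have hA1 : 1 ≤ A := by
    rw [hA, hB]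
    exact one_le_mul_of_one_le_of_one_le (one_le_mul_of_one_le_of_one_le hIJ1
      (one_le_pow₀ (one_le_mul_of_one_le_of_one_le hIJ1 hW))) hW
  have hAE : A ≤ (((n * I : ℕ) : ℝ) * 2 ^ (n * I)) ^ 12 := by
    rw [hA, hB]
    calc ((I * J : ℕ) : ℝ) * (((I * J : ℕ) : ℝ) * 2 ^ (n * I)) ^ 7 * 2 ^ (n * I)
        = (((I * J : ℕ) : ℝ) * 2 ^ (n * I)) ^ 8 := by ring
      _ ≤ (((n * I : ℕ) : ℝ) * 2 ^ (n * I)) ^ 8 := by gcongr
      _ ≤ (((n * I : ℕ) : ℝ) * 2 ^ (n * I)) ^ 12 :=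
          pow_le_pow_right₀ (one_le_mul_of_one_le_of_one_le hnI hW) (by norm_num)
  have hlogA : Real.log A ≤ G := by
    refine (Real.log_le_log (by linarith) hAE).trans (le_of_eq ?_)
    rw [Real.log_pow, Real.log_mul (by positivity) (by positivity), Real.log_pow, hG]
    push_cast
    ring
  -- the places
  have hinf : ∀ v : InfinitePlace K, (v.mult : ℝ) * Real.log (v V) ≤
      (v.mult : ℝ) * G + (I * ((v.mult : ℝ) * Real.log (max 1 (v t))) +
        J * ((v.mult : ℝ) * Real.log (max 1 (v ξ)))) := by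
    intro v
    have h1 := inf_size v c n I J l hJn B hB0 hcB t ξ
    rw [← hVdef, ← hA] at h1
    have h2 := log_prod_le (v V) A (v t) (v ξ) (I - 1) (J - 1) I J hA1 (Nat.sub_le _ _)
      (Nat.sub_le _ _) (InfinitePlace.pos_iff.2 hV) h1
    have h3 : (0 : ℝ) ≤ (v.mult : ℝ) := Nat.cast_nonneg _
    have h4 : Real.log (v V) ≤ G + I * Real.log (max 1 (v t)) + J * Real.log (max 1 (v ξ)) := by
      linarith
    calc (v.mult : ℝ) * Real.log (v V)
        ≤ (v.mult : ℝ) * (G + I * Real.log (max 1 (v t)) + J * Real.log (max 1 (v ξ))) :=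
          mul_le_mul_of_nonneg_left h4 h3
      _ = _ := by ring
  have hout : ∀ p ∈ T \ S, Real.log (av p V) ≤
      I * Real.log (max 1 (av p t)) + J * Real.log (max 1 (av p ξ)) := by
    intro p _
    have h1 := fin_size p c n I J l t ξ
    rw [← hVdef] at h1
    have h2 := log_prod_le (av p V) 1 (av p t) (av p ξ) (I - 1) (J - 1) I J le_rfl
      (Nat.sub_le _ _) (Nat.sub_le _ _) (av_pos p hV) (by rw [one_mul]; exact h1)
    rw [Real.log_one] at h2
    linarith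
  have hin : ∀ p ∈ S, Real.log (av p V) ≤ -(((L - l : ℕ) : ℝ) * ((m p : ℝ) * lN p)) := by
    intro p hp
    have hlN := lN_pos p
    have hm1 := hm p hp
    have hτ1 : av p τ = 1 := by
      apply av_eq_one_of
      refine lt_of_le_of_lt (hτ p hp) ?_
      rw [Real.exp_lt_one_iff]
      have h1 : (0 : ℝ) < ((m p * (I * J) : ℕ) : ℝ) := by
        exact_mod_cast Nat.mul_pos hm1 (Nat.mul_pos (by omega) (by omega))
      have := mul_pos h1 hlN
      linarith
    have hτ2 : av p (τ - 1) ≤ Real.exp (-((m p * L : ℕ) * lN p)) := by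
      refine (hτ p hp).trans ?_
      rw [Real.exp_le_exp, neg_le_neg_iff]
      have h1 : ((m p * L : ℕ) : ℝ) ≤ ((m p * (I * J) : ℕ) : ℝ) := by
        exact_mod_cast Nat.mul_le_mul_left (m p) hLP
      exact mul_le_mul_of_nonneg_right h1 hlN.le
    have h1 := fin_small p c n I J L l (m p) hm1 hcz hlL τ ξ (hξ p hp) hτ2 hτ1
    rw [← ht, ← hVdef] at h1
    have h2 := Real.log_le_log (av_pos p hV) h1
    rw [Real.log_exp] at h2
    refine h2.trans (le_of_eq ?_)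
    rw [Nat.cast_mul]
    ring
  -- sums
  have hsinf : ∑ v : InfinitePlace K, (v.mult : ℝ) * Real.log (v V) ≤
      (Module.finrank ℚ K : ℝ) * G +
        (I * ∑ v : InfinitePlace K, (v.mult : ℝ) * Real.log (max 1 (v t)) +
          J * ∑ v : InfinitePlace K, (v.mult : ℝ) * Real.log (max 1 (v ξ))) := by
    refine (Finset.sum_le_sum fun v _ => hinf v).trans (le_of_eq ?_)
    rw [Finset.sum_add_distrib, Finset.sum_add_distrib, ← Finset.sum_mul, ← Finset.mul_sum,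
      ← Finset.mul_sum, ← Nat.cast_sum, InfinitePlace.sum_mult_eq]
  have hsout : ∑ p ∈ T \ S, Real.log (av p V) ≤
      I * ∑ p ∈ T, Real.log (max 1 (av p t)) + J * ∑ p ∈ T, Real.log (max 1 (av p ξ)) := by
    refine (Finset.sum_le_sum hout).trans ?_
    rw [Finset.mul_sum, Finset.mul_sum, ← Finset.sum_add_distrib]
    refine Finset.sum_le_sum_of_subset_of_nonneg Finset.sdiff_subset fun p _ _ => ?_
    have h1 := log_max_nonneg (av p t)
    have h2 := log_max_nonneg (av p ξ)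
    positivity
  have hsin : ∑ p ∈ S, Real.log (av p V) ≤
      -(((L - l : ℕ) : ℝ) * ∑ p ∈ S, (m p : ℝ) * lN p) := by
    refine (Finset.sum_le_sum hin).trans (le_of_eq ?_)
    rw [Finset.sum_neg_distrib, Finset.mul_sum]
  have het := ht_eq t T hTt
  have hex := ht_eq ξ T hTξ
  have hkey : ((L - l : ℕ) : ℝ) * ∑ p ∈ S, (m p : ℝ) * lN p ≤
      (Module.finrank ℚ K : ℝ) * G + I * logHeight₁ t + J * logHeight₁ ξ := by
    rw [het, hex]
    nlinarith [hsinf, hsout, hsin, hpf]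
  have hsum0 : 0 ≤ ∑ p ∈ S, (m p : ℝ) * lN p :=
    Finset.sum_nonneg fun p _ => mul_nonneg (Nat.cast_nonneg _) (lN_pos p).le
  have h2L : I * J ≤ 2 * (L - l) := by omega
  have h2L' : ((I * J : ℕ) : ℝ) ≤ 2 * ((L - l : ℕ) : ℝ) := by exact_mod_cast h2L
  calc ((I * J : ℕ) : ℝ) * ∑ p ∈ S, (m p : ℝ) * lN p
      ≤ (2 * ((L - l : ℕ) : ℝ)) * ∑ p ∈ S, (m p : ℝ) * lN p :=
        mul_le_mul_of_nonneg_right h2L' hsum0
    _ = 2 * (((L - l : ℕ) : ℝ) * ∑ p ∈ S, (m p : ℝ) * lN p) := by ring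
    _ ≤ 2 * ((Module.finrank ℚ K : ℝ) * G + I * logHeight₁ t + J * logHeight₁ ξ) :=
        mul_le_mul_of_nonneg_left hkey (by norm_num)
    _ = _ := by
        rw [hG, ht]
        ring

end AbcRadK
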