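import Pool.Agent.Work.MP_a793bb_nt.RadK.PairK
import Pool.Agent.Work.MP_a793bb_nt.RadK.MainFin

/-!
# Two elements of a `p`-adic cell differ by a root of unity

Proof. Suppose `(u' / u) ^ i ≠ 1` for all `i > 0`. Apply `main_fin` with `τ = u' / u` and `ξ / ξ'`
in place of `ξ`. `av p (τ - 1) ≤ exp (- (m_p L0) lN p) ≤ exp (- (m_p I J) lN p)` for `p ∈ S` by
`sub_av` (`m_p L0 ≥ 1` as `L0 ≥ I J ≥ 16`). With `pair_heights`, the conclusion is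
`(I J) δ ℓ ≤ (I J) ∑ m_p lN p ≤ 2 (12 d (...) + I (2 + d) κ n ℓ + J (24 Q / n + d κ ℓ))`, which
contradicts `ParK.key`.
-/

set_option autoImplicit false

namespace AbcRadK

open Finset AbcRad Pool.Agent.Work.MP_a793bb_nt Pool.Agent.Work.MP_a793bb_nt.BPlus NumberField
  IsDedekindDomain Height

variable {K : Type*} [Field K] [NumberField K]

theorem cellPK (δ κ ℓ Q C : ℝ) (n I J L0 : ℕ)
    (hP : ParK (Module.finrank ℚ K) δ κ ℓ Q n I J L0) (u u' : K)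
    (hu : BaseK δ κ ℓ Q n u) (hu' : BaseK δ κ ℓ Q n u') (hlab : SameLab δ κ ℓ n u u')
    (b : Ideal (𝓞 K)) (ξ ξ' : K) (hd : Dec C n u b ξ) (hd' : Dec C n u' b ξ')
    (harch : ∀ v : InfinitePlace K, ⌊(Real.log (v ξ) - Real.log (v u) / n) / (κ * ℓ)⌋ =
      ⌊(Real.log (v ξ') - Real.log (v u') / n) / (κ * ℓ)⌋)
    (S : Finset (HeightOneSpectrum (𝓞 K))) (m : HeightOneSpectrum (𝓞 K) → ℕ)
    (hm : ∀ p ∈ S, 1 ≤ m p) (hS : δ * ℓ ≤ ∑ p ∈ S, (m p : ℝ) * lN p)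
    (hL : ∀ p ∈ S, ((m p * L0 : ℕ) : ℤ) ≤ kp p (1 - u))
    (hL' : ∀ p ∈ S, ((m p * L0 : ℕ) : ℤ) ≤ kp p (1 - u'))
    (hcl : ∀ p ∈ S, av p (ξ / ξ' - 1) ≤ Real.exp (-(m p * lN p))) :
    ∃ i : ℕ, 0 < i ∧ (u' / u) ^ i = 1 := by
  by_contra hcon
  push Not at hcon
  have hn : 1 ≤ n := by
    have h1 := hP.hJ8
    have h2 := hP.hJn
    omega
  have hℓ : 0 < ℓ := lt_of_lt_of_le one_pos hP.hℓ
  have hIJ0 : 1 ≤ I * J := Nat.one_le_iff_ne_zero.2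
    (Nat.mul_ne_zero (by have := hP.hI; omega) (by have := hP.hJ8; omega))
  obtain ⟨h1, h2⟩ := pair_heights δ κ ℓ Q C n hn hP.hκ hℓ u u' hu hu' hlab b ξ ξ' hd hd' harch
  have h3 := main_fin n I J hP.hJ8 hP.hJn hP.hI S m hm (u' / u) (ξ / ξ')
    (div_ne_zero hu'.ne0 hu.ne0) (div_ne_zero hd.ne0 hd'.ne0) (fun i hi _ => hcon i hi) hcl (by
      intro p hp
      have hN : 1 ≤ m p * L0 := by
        have h4 := hm p hp
        have h5 : 1 ≤ L0 := hIJ0.trans hP.hIJ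
        exact Nat.one_le_iff_ne_zero.2 (Nat.mul_ne_zero (by omega) (by omega))
      refine (sub_av hu.ne0 hu'.ne0 p (m p * L0) hN (hL p hp) (hL' p hp)).trans ?_
      rw [Real.exp_le_exp, neg_le_neg_iff]
      refine mul_le_mul_of_nonneg_right ?_ (lN_pos p).le
      exact_mod_cast Nat.mul_le_mul_left (m p) hP.hIJ)
  have hkey := hP.key
  have h4 : ((I * J : ℕ) : ℝ) * (δ * ℓ) ≤ ((I * J : ℕ) : ℝ) * ∑ p ∈ S, (m p : ℝ) * lN p :=
    mul_le_mul_of_nonneg_left hS (Nat.cast_nonneg _)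
  have h5 : (I : ℝ) * logHeight₁ ((u' / u) * (ξ / ξ') ^ n) ≤
      I * ((2 + (Module.finrank ℚ K : ℝ)) * (κ * n) * ℓ) :=
    mul_le_mul_of_nonneg_left h1 (Nat.cast_nonneg _)
  have h6 : (J : ℝ) * logHeight₁ (ξ / ξ') ≤
      J * (24 * Q / n + (Module.finrank ℚ K : ℝ) * κ * ℓ) :=
    mul_le_mul_of_nonneg_left h2 (Nat.cast_nonneg _)
  linarith

end AbcRadK
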