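import Pool.Agent.Work.MP_a793bb_nt.RadK.DefsK
import Pool.Agent.Work.MP_a793bb_nt.FiniteClass

/-!
# Classes modulo an ideal

Proof. For `p ∈ S` choose `π_p` in the ring of integers with `kp p π_p = 1` and `kp q π_p = 0` for
`q ∈ S`, `q ≠ p` (Chinese remainder theorem: `π_p ∈ p`, `∉ p ^ 2`, `≡ 1` modulo `q`). For
`x ≠ 0` put `β x = ∏_{p ∈ S} π_p ^ (kp p x)`; it depends only on the exponents `kp p x`, `p ∈ S`, and
`x / β x` is a unit at the primes of `S`. By `exists_int_approx` (in `FiniteClass.lean`) and the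
Chinese remainder theorem there is `a x` in the ring of integers with
`av p (a x - x / β x) ≤ exp (- m_p lN p)` for all `p ∈ S` (`a x ≡ a_p mod p ^ m_p`). Let `cl x` be the
number (in an enumeration of `𝓞 K ⧸ M`, which has `N(M) = exp (∑ m_p lN p)` elements,
`M = ∏ p ^ m_p`) of the class of `a x`; numbers are `< N(M)`. If `cl x = cl y` and the exponents on
`S` agree, then `a x ≡ a y` modulo `p ^ m_p`, so `av p (x / β - y / β) ≤ exp (- m_p lN p)`,
and `y / β` is a unit at `p`, hence the claim.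
-/

set_option autoImplicit false

namespace AbcRadK

open Finset AbcRad Pool.Agent.Work.MP_a793bb_nt Pool.Agent.Work.MP_a793bb_nt.BPlus NumberField
  IsDedekindDomain Height

variable {K : Type*} [Field K] [NumberField K]

private theorem exp_eq (p : HeightOneSpectrum (𝓞 K)) (k : ℕ) :
    Real.exp (-(k * lN p)) = (Np p)⁻¹ ^ k := by
  have h0 : 0 < Np p := by have := two_le_Np p; linarith
  have h1 : lN p = Real.log (Np p) := rfl
  rw [Real.exp_neg, Real.exp_nat_mul, h1, Real.exp_log h0, inv_pow]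

/-- the same exponents at the primes of `S` -/
private def expRel (S : Finset (HeightOneSpectrum (𝓞 K))) : Setoid Kˣ where
  r x y := ∀ p ∈ S, kp p (x : K) = kp p (y : K)
  iseqv := ⟨fun _ _ _ => rfl, fun h p hp => (h p hp).symm,
    fun h1 h2 p hp => (h1 p hp).trans (h2 p hp)⟩

private theorem exists_rep (S : Finset (HeightOneSpectrum (𝓞 K))) :
    ∃ rep : Kˣ → Kˣ, (∀ x : Kˣ, ∀ p ∈ S, kp p (x : K) = kp p (rep x : K)) ∧
      ∀ x y : Kˣ, (∀ p ∈ S, kp p (x : K) = kp p (y : K)) → rep x = rep y := by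
  refine ⟨fun x => (Quotient.mk (expRel S) x).out, fun x p hp => ?_, fun x y h => ?_⟩
  · have h : expRel S ((Quotient.mk (expRel S) x).out) x :=
      Quotient.exact (Quotient.out_eq (Quotient.mk (expRel S) x))
    exact (h p hp).symm
  · have h2 : Quotient.mk (expRel S) x = Quotient.mk (expRel S) y := Quotient.sound h
    simp only [h2]

private theorem card_quot (p : HeightOneSpectrum (𝓞 K)) (k : ℕ) :
    (Nat.card (𝓞 K ⧸ p.asIdeal ^ k) : ℝ) = Real.exp (k * lN p) := by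
  have h1 : Nat.card (𝓞 K ⧸ p.asIdeal ^ k) = Ideal.absNorm (p.asIdeal ^ k) := rfl
  have h0 : 0 < Np p := by
    have := two_le_Np p
    linarith
  have h2 : lN p = Real.log (Np p) := rfl
  rw [h1, map_pow, Nat.cast_pow, Real.exp_nat_mul, h2, Real.exp_log h0]
  rfl

private theorem card_pi_quot (S : Finset (HeightOneSpectrum (𝓞 K)))
    (m : HeightOneSpectrum (𝓞 K) → ℕ) :
    (Nat.card ((p : S) → 𝓞 K ⧸ (p : HeightOneSpectrum (𝓞 K)).asIdeal ^ m p) : ℝ) =
      Real.exp (∑ p ∈ S, (m p : ℝ) * lN p) := by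
  have h1 : (Nat.card ((p : S) → 𝓞 K ⧸ (p : HeightOneSpectrum (𝓞 K)).asIdeal ^ m p) : ℝ) =
      ∏ p : S, Real.exp ((m p : ℝ) * lN (p : HeightOneSpectrum (𝓞 K))) := by
    rw [Nat.card_pi, Nat.cast_prod]
    exact Finset.prod_congr rfl fun p _ => card_quot _ _
  rw [h1, Real.exp_sum]
  exact Finset.prod_coe_sort S (fun p => Real.exp ((m p : ℝ) * lN p))

private theorem exists_enum (S : Finset (HeightOneSpectrum (𝓞 K)))
    (m : HeightOneSpectrum (𝓞 K) → ℕ) :
    ∃ e : ((p : S) → 𝓞 K ⧸ (p : HeightOneSpectrum (𝓞 K)).asIdeal ^ m p) → ℕ,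
      (∀ f, (e f : ℝ) < Real.exp (∑ p ∈ S, (m p : ℝ) * lN p)) ∧ Function.Injective e := by
  have hfin : ∀ p : S, Finite (𝓞 K ⧸ (p : HeightOneSpectrum (𝓞 K)).asIdeal ^ m p) := fun p =>
    Ideal.finiteQuotientOfFreeOfNeBot _ (pow_ne_zero _ (p : HeightOneSpectrum (𝓞 K)).ne_bot)
  have e := Finite.equivFin ((p : S) → 𝓞 K ⧸ (p : HeightOneSpectrum (𝓞 K)).asIdeal ^ m p)
  refine ⟨fun f => (e f : ℕ), fun f => ?_, fun f g h => e.injective (Fin.ext h)⟩
  rw [← card_pi_quot]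
  exact Nat.cast_lt.2 (e f).is_lt

private theorem step_av (p : HeightOneSpectrum (𝓞 K)) (k : ℕ) {x y r : K} (hy : y ≠ 0)
    (hr : r ≠ 0) (hw : av p (y / r) = 1) (a b : 𝓞 K)
    (ha : av p ((a : K) - x / r) < Real.exp (-(k * lN p)))
    (hb : av p ((b : K) - y / r) < Real.exp (-(k * lN p))) (hab : a - b ∈ p.asIdeal ^ k) :
    av p (x / y - 1) ≤ Real.exp (-(k * lN p)) := by
  have h3 := av_le_of_mem_pow p k hab
  rw [← exp_eq] at h3
  have h4 : av p (x / r - y / r) ≤ Real.exp (-(k * lN p)) := by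
    have e0 : x / r - y / r = (x / r - (a : K)) + (((a - b : 𝓞 K) : K) + ((b : K) - y / r)) := by
      push_cast
      ring
    rw [e0]
    refine (av_add_le p _ _).trans (max_le ?_ ((av_add_le p _ _).trans (max_le h3 hb.le)))
    rw [av_sub_comm]
    exact ha.le
  have h5 : x / y - 1 = (x / r - y / r) * (y / r)⁻¹ := by
    field_simp
  rw [h5, av_mul, av_inv, hw, inv_one, mul_one]
  exact h4

private theorem exists_approx (S : Finset (HeightOneSpectrum (𝓞 K)))
    (m : HeightOneSpectrum (𝓞 K) → ℕ) :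
    ∃ (rep : Kˣ → Kˣ) (a : Kˣ → HeightOneSpectrum (𝓞 K) → 𝓞 K),
      (∀ x y : Kˣ, (∀ p ∈ S, kp p (x : K) = kp p (y : K)) → rep x = rep y) ∧
      (∀ x : Kˣ, ∀ p ∈ S, av p ((x : K) / (rep x : K)) = 1) ∧
      ∀ x : Kˣ, ∀ p ∈ S, av p ((a x p : K) - (x : K) / (rep x : K)) <
        Real.exp (-(m p * lN p)) := by
  classical
  obtain ⟨rep, hrep, hrep2⟩ := exists_rep (K := K) S
  have hone : ∀ x : Kˣ, ∀ p ∈ S, av p ((x : K) / (rep x : K)) = 1 := by
    intro x p hp
    rw [av_eq_zpow p (div_ne_zero x.ne_zero (rep x).ne_zero), kp_div p x.ne_zero (rep x).ne_zero,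
      hrep x p hp, sub_self, neg_zero, zpow_zero]
  have hap : ∀ x : Kˣ, ∀ p, ∃ a : 𝓞 K, p ∈ S → av p ((a : K) - (x : K) / (rep x : K)) <
        Real.exp (-(m p * lN p)) := by
    intro x p
    by_cases hp : p ∈ S
    · obtain ⟨a, ha⟩ := exists_int_approx p (hone x p hp).le (Real.exp_pos (-(m p * lN p)))
      exact ⟨a, fun _ => ha⟩
    · exact ⟨0, fun h => absurd h hp⟩
  choose a ha using hap
  exact ⟨rep, a, hrep2, hone, fun x p hp => ha x p hp⟩

theorem exists_color_mod (S : Finset (HeightOneSpectrum (𝓞 K)))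
    (m : HeightOneSpectrum (𝓞 K) → ℕ) (hm : ∀ p ∈ S, 1 ≤ m p) :
    ∃ cl : K → ℕ, (∀ x, (cl x : ℝ) < Real.exp (∑ p ∈ S, (m p : ℝ) * lN p)) ∧
      ∀ x y : K, x ≠ 0 → y ≠ 0 → (∀ p ∈ S, kp p x = kp p y) → cl x = cl y →
        ∀ p ∈ S, av p (x / y - 1) ≤ Real.exp (-(m p * lN p)) := by
  classical
  obtain ⟨e, he1, he2⟩ := exists_enum S m
  obtain ⟨rep, a, hrep, hone, ha⟩ := exists_approx (K := K) S m
  refine ⟨fun x => if h : x = 0 then 0 else
    e (fun p => Ideal.Quotient.mk _ (a (Units.mk0 x h) p)), fun x => ?_, ?_⟩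
  · beta_reduce
    by_cases h : x = 0
    · rw [dif_pos h, Nat.cast_zero]
      exact Real.exp_pos _
    · rw [dif_neg h]
      exact he1 _
  · intro x y hx hy hxy hcl p hp
    beta_reduce at hcl
    rw [dif_neg hx, dif_neg hy] at hcl
    have h2 := congrFun (he2 hcl) ⟨p, hp⟩
    rw [Ideal.Quotient.mk_eq_mk_iff_sub_mem] at h2
    have hr : rep (Units.mk0 x hx) = rep (Units.mk0 y hy) := hrep _ _ hxy
    have h3 := ha (Units.mk0 x hx) p hp
    rw [hr] at h3
    exact step_av p (m p) hy (rep (Units.mk0 y hy)).ne_zero (hone (Units.mk0 y hy) p hp) _ _ h3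
      (ha (Units.mk0 y hy) p hp) h2

end AbcRadK
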