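import Pool.Agent.Work.MP_a793bb_nt.RadK.DecK
import Pool.Agent.Work.MP_a793bb_nt.RadK.CellPK
import Pool.Agent.Work.MP_a793bb_nt.RadK.TorsK
import Pool.Agent.Work.MP_a793bb_nt.RadK.ColorM
import Pool.Agent.Work.MP_a793bb_nt.RadK.SumsK
import Pool.Agent.Work.MP_a793bb_nt.RadK.LabK

/-!
# Counting elements in `p`-adic cells

Proof. `C₀, G` from `exists_dec`, `w` from `tors_bound`, `c = ⌈1 / κ⌉₊`, `κ = kapK d δ`,
`A = 2 c + 1`. For `u ∈ F` choose an ideal `M u` as in `PCapK` and `(b u, ξ u)` from `exists_dec`; put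
`D u = smal (δ ℓ) u`, `φ u p = ⌊gr n (kp p u) / (κ n)⌋ ∈ [-c, c]` for `p ∈ D u` (`phi_range` in
`Rad/CountP.lean`), `ω u v = ⌊(log (v (ξ u)) - log (v u) / n) / (κ ℓ)⌋`, an integer of absolute value
at most `(C₀ + ℓ) / (κ ℓ) + 1 ≤ c' := ⌈(C₀ + 1) / κ⌉₊ + 1` (`Dec.arch`, `lsum (supp u) ≤ ℓ`, `ℓ ≥ 1`),
and `γ u = cl (ξ u)` for the `cl` of `exists_color_mod` belonging to `S = ` the primes dividing
`M u`, `m = ex (M u)` (so `∑ m_p lN p = log N(M u)`): a natural number `< N(M u)`. Two elements of `F`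
with the same label `(b, D, M, φ on D, ω, γ)` have a quotient which is a root of unity by `cellPK`
(`ξ u, ξ u'` have the same exponents at `p ∣ M`: `kp p (ξ u) = fr n (kp p u) + ex b p`, and
`kp p u = 0 = kp p u'` since `p` divides `1 - u` and `1 - u'`). So each label is taken at most `w` times,
and the number of labels is at most `#G (2 c' + 1) ^ (number of places) ∑_{(D, M)} A ^ #D N(M)`,
the sum over the pairs `(D, M)` which occur; these satisfy `lsum D + 2 log N(M) ≤ (2/3 + 4 δ) ℓ`. By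
`sum_pairsK` with `η = δ`, `(1 + δ) (2/3 + 4 δ) ≤ 2/3 + 6 δ` for `δ ≤ 1 / 10`.
-/

set_option autoImplicit false

namespace AbcRadK

open Finset AbcRad Pool.Agent.Work.MP_a793bb_nt Pool.Agent.Work.MP_a793bb_nt.BPlus NumberField
  IsDedekindDomain Height

variable {K : Type*} [Field K] [NumberField K]

/-- A class function modulo every ideal. -/
theorem exists_cl (K : Type*) [Field K] [NumberField K] : ∀ M : Ideal (𝓞 K), ∃ cl : K → ℕ,
    M ≠ ⊥ → (∀ x, cl x < Ideal.absNorm M) ∧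
      ∀ x y : K, x ≠ 0 → y ≠ 0 → (∀ p : HeightOneSpectrum (𝓞 K), p.asIdeal ∣ M → kp p x = kp p y) →
        cl x = cl y → ∀ p : HeightOneSpectrum (𝓞 K), p.asIdeal ∣ M →
          av p (x / y - 1) ≤ Real.exp (-(ex M p * lN p)) := by
  intro M
  by_cases hM : M = ⊥
  · exact ⟨fun _ => 0, fun h => absurd hM h⟩
  · obtain ⟨cl, h1, h2⟩ := exists_color_mod (finite_dvd hM).toFinset (ex M)
      (fun p hp => one_le_ex hM ((Set.Finite.mem_toFinset (finite_dvd hM)).1 hp))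
    refine ⟨cl, fun _ => ⟨?_, ?_⟩⟩
    · intro x
      have h3 := h1 x
      rw [sum_ex_lN hM, Real.exp_log (lt_of_lt_of_le one_pos (one_le_absNorm K hM))] at h3
      exact_mod_cast h3
    · intro x y hx hy hk hc p hp
      exact h2 x y hx hy (fun q hq => hk q ((Set.Finite.mem_toFinset (finite_dvd hM)).1 hq)) hc p
        ((Set.Finite.mem_toFinset (finite_dvd hM)).2 hp)

theorem count_PK (K : Type*) [Field K] [NumberField K] (δ : ℝ) (hδ : 0 < δ) (hδ1 : δ ≤ 1 / 10) :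
    ∃ C : ℝ, 1 ≤ C ∧ ∀ (ℓ Q : ℝ) (n I J L0 : ℕ),
      ParK (Module.finrank ℚ K) δ (kapK (Module.finrank ℚ K) δ) ℓ Q n I J L0 →
      ∀ F : Finset K, (∀ u ∈ F, PCapK δ (kapK (Module.finrank ℚ K) δ) ℓ Q
        ((2 / 3 + 4 * δ) * ℓ) n L0 u) →
      (F.card : ℝ) ≤ C * Real.exp ((2 / 3 + 6 * δ) * ℓ) := by
  classical
  obtain ⟨C₀, G, hC₀, hdec⟩ := exists_dec K
  obtain ⟨w, hw⟩ := tors_bound K
  obtain ⟨κ, hκdef⟩ : ∃ κ : ℝ, κ = kapK (Module.finrank ℚ K) δ := ⟨_, rfl⟩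
  rw [← hκdef]
  obtain ⟨c, hc⟩ : ∃ c : ℕ, c = ⌈1 / κ⌉₊ := ⟨_, rfl⟩
  obtain ⟨c', hc'⟩ : ∃ c' : ℕ, c' = ⌈(C₀ + 1) / κ⌉₊ := ⟨_, rfl⟩
  obtain ⟨B, hB⟩ : ∃ B : ℕ, B = (2 * c' + 1) ^ Fintype.card (InfinitePlace K) := ⟨_, rfl⟩
  obtain ⟨C₁, hC₁, hsum⟩ := sum_pairsK K (2 * c + 1) δ hδ
  choose cl hcl using exists_cl K
  refine ⟨(w * B * G.card : ℕ) * C₁ + 1, ?_, ?_⟩
  · have : (0 : ℝ) ≤ (w * B * G.card : ℕ) * C₁ := by positivity
    linarith
  intro ℓ Q n I J L0 hP F hF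
  have hℓ : 1 ≤ ℓ := hP.hℓ
  have hκ : 0 < κ := hP.hκ
  have hn1 : 1 ≤ n := by
    have := hP.hJ8
    have := hP.hJn
    omega
  have hL0 : 1 ≤ L0 := by
    have h1 := hP.hJ8
    have h2 := hP.hI
    have h3 := hP.hIJ
    have h4 : 2 * 8 ≤ I * J := Nat.mul_le_mul h2 h1
    omega
  have hex : ∀ u ∈ F, ∃ M : Ideal (𝓞 K), M ≠ ⊥ ∧
      (∀ p : HeightOneSpectrum (𝓞 K), p.asIdeal ∣ M → ((ex M p * L0 : ℕ) : ℤ) ≤ kp p (1 - u)) ∧
      δ * ℓ ≤ Real.log (Ideal.absNorm M) ∧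
      lsum (smal (δ * ℓ) u) + 2 * Real.log (Ideal.absNorm M) ≤ (2 / 3 + 4 * δ) * ℓ :=
    fun u hu => (hF u hu).2
  choose! Mf hM1 hM2 hM3 hM4 using hex
  have hdx : ∀ u ∈ F, ∃ b ∈ G, ∃ ξ : K, Dec C₀ n u b ξ :=
    fun u hu => hdec n u hn1 (hF u hu).1.ne0
  choose! bf hbG ξf hξ using hdx
  obtain ⟨P, hPdef⟩ : ∃ P : Finset (Finset (HeightOneSpectrum (𝓞 K)) × Ideal (𝓞 K)),
    P = F.image (fun u => (smal (δ * ℓ) u, Mf u)) := ⟨_, rfl⟩
  have hPin : ∀ u ∈ F, (smal (δ * ℓ) u, Mf u) ∈ P := by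
    intro u hu
    rw [hPdef]
    exact Finset.mem_image_of_mem _ hu
  have hPprop : ∀ q ∈ P, q.2 ≠ ⊥ ∧
      lsum q.1 + 2 * Real.log (Ideal.absNorm q.2) ≤ (2 / 3 + 4 * δ) * ℓ := by
    intro q hq
    rw [hPdef, Finset.mem_image] at hq
    obtain ⟨u, hu, rfl⟩ := hq
    exact ⟨hM1 u hu, hM4 u hu⟩
  have hsum' := hsum ((2 / 3 + 4 * δ) * ℓ) (by positivity) P hPprop
  have hfib : ∀ q ∈ G ×ˢ P,
      (F.filter (fun u => (bf u, (smal (δ * ℓ) u, Mf u)) = q)).card ≤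
        w * B * ((2 * c + 1) ^ q.2.1.card * Ideal.absNorm q.2.2) := by
    intro q hq
    rw [Finset.mem_product] at hq
    have hq2 := hPprop q.2 hq.2
    have hle := fiber_bound w hw (F.filter (fun u => (bf u, (smal (δ * ℓ) u, Mf u)) = q))
      (fun x hx => (hF x (Finset.mem_filter.1 hx).1).1.ne0)
      ((q.2.1.pi (fun _ => Icc (-(c : ℤ)) (c : ℤ))) ×ˢ
        ((Fintype.piFinset (fun _ : InfinitePlace K => Icc (-(c' : ℤ)) (c' : ℤ))) ×ˢ
          range (Ideal.absNorm q.2.2)))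
      (fun u => (fun p (_ : p ∈ q.2.1) => ⌊(gr n (kp p u) : ℝ) / (κ * n)⌋,
        (fun v : InfinitePlace K => ⌊(Real.log (v (ξf u)) - Real.log (v u) / n) / (κ * ℓ)⌋,
          cl q.2.2 (ξf u)))) ?_ ?_
    · refine hle.trans (le_of_eq ?_)
      rw [Finset.card_product, Finset.card_product, Finset.card_range, card_pi_Icc,
        card_piF_Icc, ← hB]
      ring
    · intro u hu
      rw [Finset.mem_filter] at hu
      obtain ⟨huF, huq⟩ := hu
      rw [Finset.mem_product, Finset.mem_product]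
      refine ⟨?_, ?_, ?_⟩
      · rw [Finset.mem_pi]
        intro p hp
        rw [hc]
        exact phi_range κ hκ n hn1 _
      · rw [Fintype.mem_piFinset]
        intro v
        rw [hc']
        refine omega_range C₀ κ ℓ _ hC₀ hκ hℓ ?_
        have h1 := (hξ u huF).arch v
        have h2 := (hF u huF).1.hrad
        linarith
      · rw [Finset.mem_range]
        exact (hcl q.2.2 hq2.1).1 _
    · intro x hx y hy hxy
      rw [Finset.mem_filter] at hx hy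
      obtain ⟨hxF, hxq⟩ := hx
      obtain ⟨hyF, hyq⟩ := hy
      simp only [Prod.mk.injEq] at hxy
      obtain ⟨hφ, hω, hγ⟩ := hxy
      have hbx : bf x = q.1 := by rw [← hxq]
      have hby : bf y = q.1 := by rw [← hyq]
      have hDx : smal (δ * ℓ) x = q.2.1 := by rw [← hxq]
      have hDy : smal (δ * ℓ) y = q.2.1 := by rw [← hyq]
      have hMx : Mf x = q.2.2 := by rw [← hxq]
      have hMy : Mf y = q.2.2 := by rw [← hyq]
      have hux := (hF x hxF).1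
      have huy := (hF y hyF).1
      have hdx := hξ x hxF
      have hdy := hξ y hyF
      rw [hbx] at hdx
      rw [hby] at hdy
      have hLx := hM2 x hxF
      have hLy := hM2 y hyF
      rw [hMx] at hLx
      rw [hMy] at hLy
      have hMb := hq2.1
      have hmem : ∀ p : HeightOneSpectrum (𝓞 K), p ∈ (finite_dvd hMb).toFinset ↔
          p.asIdeal ∣ q.2.2 := fun p => Set.Finite.mem_toFinset (finite_dvd hMb)
      have hkp0 : ∀ z : K, z ≠ 0 → (∀ p : HeightOneSpectrum (𝓞 K), p.asIdeal ∣ q.2.2 →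
          ((ex q.2.2 p * L0 : ℕ) : ℤ) ≤ kp p (1 - z)) → ∀ p : HeightOneSpectrum (𝓞 K),
          p.asIdeal ∣ q.2.2 → kp p z = 0 := by
        intro z hz hLz p hp
        refine kp_zero_of_one_sub hz p (lt_of_lt_of_le ?_ (hLz p hp))
        have h1 := one_le_ex hMb hp
        have h2 : 1 ≤ ex q.2.2 p * L0 := Nat.mul_pos h1 hL0
        exact_mod_cast h2
      refine cellPK δ κ ℓ Q C₀ n I J L0 (hκdef ▸ hP) x y hux huy ⟨?_, ?_⟩ q.1 (ξf x) (ξf y)
        hdx hdy ?_ (finite_dvd hMb).toFinset (ex q.2.2) ?_ ?_ ?_ ?_ ?_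
      · rw [hDx, hDy]
      · intro p hp
        rw [hDx] at hp
        exact congrFun (congrFun hφ p) hp
      · intro v
        exact congrFun hω v
      · intro p hp
        exact one_le_ex hMb ((hmem p).1 hp)
      · rw [sum_ex_lN hMb, ← hMx]
        exact hM3 x hxF
      · intro p hp
        exact hLx p ((hmem p).1 hp)
      · intro p hp
        exact hLy p ((hmem p).1 hp)
      · intro p hp
        refine (hcl q.2.2 hMb).2 (ξf x) (ξf y) hdx.ne0 hdy.ne0 ?_ hγ p ((hmem p).1 hp)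
        intro r hr
        rw [hdx.val r, hdy.val r, hkp0 x hux.ne0 hLx r hr, hkp0 y huy.ne0 hLy r hr]
  have hcard := Finset.card_eq_sum_card_fiberwise
    (f := fun u : K => (bf u, (smal (δ * ℓ) u, Mf u))) (s := F) (t := G ×ˢ P)
    (fun u hu => Finset.mem_coe.2 (Finset.mem_product.2 ⟨hbG u hu, hPin u hu⟩))
  have h1 : F.card ≤ ∑ q ∈ G ×ˢ P,
      w * B * ((2 * c + 1) ^ q.2.1.card * Ideal.absNorm q.2.2) := by
    rw [hcard]
    exact Finset.sum_le_sum hfib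
  have h2 : (F.card : ℝ) ≤ (w * B * G.card : ℕ) *
      ∑ q ∈ P, ((2 * c + 1 : ℕ) : ℝ) ^ q.1.card * (Ideal.absNorm q.2 : ℝ) := by
    have h3 : ∑ q ∈ G ×ˢ P, w * B * ((2 * c + 1) ^ q.2.1.card * Ideal.absNorm q.2.2) =
        (w * B * G.card) * ∑ q ∈ P, (2 * c + 1) ^ q.1.card * Ideal.absNorm q.2 := by
      rw [Finset.sum_product]
      simp only []
      rw [Finset.sum_const, ← Finset.mul_sum, smul_eq_mul]
      ring
    rw [h3] at h1
    exact_mod_cast h1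
  have h4 : (1 + δ) * ((2 / 3 + 4 * δ) * ℓ) ≤ (2 / 3 + 6 * δ) * ℓ := by
    rw [← mul_assoc]
    refine mul_le_mul_of_nonneg_right ?_ (by linarith)
    nlinarith
  calc (F.card : ℝ) ≤ (w * B * G.card : ℕ) *
      ∑ q ∈ P, ((2 * c + 1 : ℕ) : ℝ) ^ q.1.card * (Ideal.absNorm q.2 : ℝ) := h2
    _ ≤ (w * B * G.card : ℕ) * (C₁ * Real.exp ((1 + δ) * ((2 / 3 + 4 * δ) * ℓ))) :=
        mul_le_mul_of_nonneg_left hsum' (by positivity)
    _ ≤ (w * B * G.card : ℕ) * (C₁ * Real.exp ((2 / 3 + 6 * δ) * ℓ)) := by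
        refine mul_le_mul_of_nonneg_left ?_ (by positivity)
        exact mul_le_mul_of_nonneg_left (Real.exp_le_exp.2 h4) (by positivity)
    _ ≤ ((w * B * G.card : ℕ) * C₁ + 1) * Real.exp ((2 / 3 + 6 * δ) * ℓ) := by
        have := Real.exp_pos ((2 / 3 + 6 * δ) * ℓ)
        nlinarith

end AbcRadK
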