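import Pool.Agent.Work.MP_a793bb_nt.RadK.BaseExK
import Pool.Agent.Work.MP_a793bb_nt.RadK.SideTypeK
import Pool.Agent.Work.MP_a793bb_nt.RadK.InfType
import Pool.Agent.Work.MP_a793bb_nt.RadK.CostK

/-!
# Every solution in the window lies in a cheap cell

Proof. For `j : Fin 3` let `s_j = sOf j t`, `u_j = - s_j`, so `1 - u_j = 1 + s_j ≠ 0`. `hs s_j = hh t`
(`hs_sOf`) `∈ (Q, 2 Q]`. If `LP (1 + s_j) univ ≥ Q / 2` take `M_j` from `side_typeK` applied to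
`y = 1 + s_j` (`Rs (Zp y) = lsum (zs j t) ≤ Rs (Ip t) ≤ ℓ`), otherwise put `M_j = ⊤` (norm `1`, log `0`).
By `side_costK` (`S = zs j t`) and `three_costsK` some `j` has
`(small part of zs (j+1) t) + (small part of zs (j+2) t) + 2 log N(M_j) ≤ (2/3 + 4 δ) ℓ`, and by
`supp_sOf` `lsum (smal (δ ℓ) u_j)` is at most the sum of the first two terms. If
`LP (1 + s_j) univ ≥ Q / 2` this gives `PCapK`, otherwise `inf_type` gives `v` with
`v (u_j - 1) = v (1 + s_j) ≤ 2 exp (- Q / (2 d))` and `RCapK`. `BaseK` comes from `base_existsK`: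
`logHeight₁ (- s_j) = logHeight₁ s_j ≤ hs s_j = hh t ≤ 2 Q` (`logHeight₁_neg`, `logHeight₁_le_hs`), and
`lsum (supp u_j) ≤ Rs (Ip t) ≤ ℓ` by `supp_sOf`, `zs_sum`.
-/

set_option autoImplicit false

namespace AbcRadK

open Finset AbcRad Pool.Agent.Work.MP_a793bb_nt Pool.Agent.Work.MP_a793bb_nt.BPlus NumberField
  IsDedekindDomain Height

variable {K : Type*} [Field K] [NumberField K]

open Classical in
private theorem lsum_union_le' (A B : Finset (HeightOneSpectrum (𝓞 K))) :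
    lsum (A ∪ B) ≤ lsum A + lsum B := by
  unfold lsum
  rw [← Finset.sum_union_inter]
  exact le_add_of_nonneg_right (Finset.sum_nonneg fun p _ => (lN_pos p).le)

open Classical in
theorem coverK (δ ℓ Q : ℝ) (hδ : 0 < δ) (hδ1 : δ ≤ 1 / 10) (hℓ : 1 ≤ ℓ)
    (hQ : 8 * (Module.finrank ℚ K : ℝ) ≤ Q)
    (hN : 2 * KKK (Module.finrank ℚ K) δ ≤ NNK ℓ Q)
    (hNE : 4 * (4 * (Q / ℓ) / δ) * (KKK (Module.finrank ℚ K) δ : ℝ) ^ 2 ≤
      kapK (Module.finrank ℚ K) δ * (NNK ℓ Q : ℝ) ^ 2)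
    (hL : 1 ≤ LLK (Module.finrank ℚ K) δ ℓ Q)
    (hL2 : (LLK (Module.finrank ℚ K) δ ℓ Q : ℝ) * ℓ ≤ δ * Q / 8) (t : K) (ht : t ∈ wsetK K ℓ Q) :
    ∃ h : ℕ, 1 ≤ h ∧ h ≤ KKK (Module.finrank ℚ K) δ ∧ ∃ j : Fin 3,
      (PCapK δ (kapK (Module.finrank ℚ K) δ) ℓ Q ((2 / 3 + 4 * δ) * ℓ) (NNK ℓ Q / h)
        (LLK (Module.finrank ℚ K) δ ℓ Q) (-sOf j t) ∨
       ∃ v : InfinitePlace K, RCapK δ (kapK (Module.finrank ℚ K) δ) ℓ Q ((2 / 3 + 4 * δ) * ℓ)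
        (NNK ℓ Q / h) v (-sOf j t)) := by
  obtain ⟨h0, h1, hI, hQl, hQu⟩ := ht
  have hd : (1 : ℝ) ≤ (Module.finrank ℚ K : ℝ) := by
    exact_mod_cast Module.finrank_pos (R := ℚ) (M := K)
  have hQ0 : 0 < Q := by linarith
  have hδℓ : 0 < δ * ℓ := by positivity
  have hzs := zs_sum h0 h1
  have hns : ∀ j : Fin 3, 0 ≤ lsum (zs j t) := fun j => lsum_nonneg _
  have hzle : ∀ j : Fin 3, lsum (zs j t) ≤ ℓ := by
    intro j
    have e0 := hns 0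
    have e1 := hns 1
    have e2 := hns 2
    fin_cases j
    · show lsum (zs 0 t) ≤ ℓ
      linarith
    · show lsum (zs 1 t) ≤ ℓ
      linarith
    · show lsum (zs 2 t) ≤ ℓ
      linarith
  have hzmem : ∀ (j : Fin 3) (p : HeightOneSpectrum (𝓞 K)),
      p ∈ zs j t ↔ p ∈ Zp (1 + sOf j t) := by
    intro j p
    unfold zs
    rw [dif_pos (one_add_sOf_ne_zero h0 h1 j), Set.Finite.mem_toFinset]
  have hRs : ∀ j : Fin 3, Rs (Zp (1 + sOf j t)) = lsum (zs j t) := by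
    intro j
    rw [← Rs_finset]
    congr 1
    ext p
    rw [Finset.mem_coe, hzmem]
  -- the three ideals
  have hM : ∀ j : Fin 3, ∃ M : Ideal (𝓞 K), M ≠ ⊥ ∧
      lsum ((zs j t).filter (fun p => lN p ≤ δ * ℓ)) + Real.log (Ideal.absNorm M) ≤
        lsum (zs j t) + 2 * (δ * ℓ) ∧ 0 ≤ Real.log (Ideal.absNorm M) ∧
      (Q / 2 ≤ LP (1 + sOf j t) Set.univ →
        (∀ p : HeightOneSpectrum (𝓞 K), p.asIdeal ∣ M →
          ((ex M p * LLK (Module.finrank ℚ K) δ ℓ Q : ℕ) : ℤ) ≤ kp p (1 + sOf j t)) ∧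
        δ * ℓ ≤ Real.log (Ideal.absNorm M)) := by
    intro j
    by_cases hc : Q / 2 ≤ LP (1 + sOf j t) Set.univ
    · obtain ⟨M, hM0, hM1, hM2, hM3⟩ := side_typeK δ ℓ Q hδ hδ1 hℓ hQ0 _ hL hL2 (1 + sOf j t)
        (one_add_sOf_ne_zero h0 h1 j) hc (by rw [hRs]; exact hzle j)
      refine ⟨M, hM0, ?_, by linarith, fun _ => ⟨fun p hp => (hM1 p hp).2, hM2⟩⟩
      apply side_costK δ ℓ hδ hℓ
      rcases hM3 with h | ⟨p, hp, hpl⟩
      · exact Or.inl h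
      · refine Or.inr ⟨p, hp, hpl, ?_⟩
        rw [hzmem]
        exact (hM1 p (by rw [hp])).1
    · refine ⟨⊤, top_ne_bot, ?_, ?_, fun h => absurd h hc⟩
      · apply side_costK δ ℓ hδ hℓ
        left
        rw [Ideal.absNorm_top, Nat.cast_one, Real.log_one]
        positivity
      · rw [Ideal.absNorm_top, Nat.cast_one, Real.log_one]
  obtain ⟨M0, a1, a2, a3, a4⟩ := hM 0
  obtain ⟨M1, b1, b2, b3, b4⟩ := hM 1
  obtain ⟨M2, c1, c2, c3, c4⟩ := hM 2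
  -- the final step for one `j`
  have hfin : ∀ (j : Fin 3) (M : Ideal (𝓞 K)), M ≠ ⊥ → 0 ≤ Real.log (Ideal.absNorm M) →
      (Q / 2 ≤ LP (1 + sOf j t) Set.univ →
        (∀ p : HeightOneSpectrum (𝓞 K), p.asIdeal ∣ M →
          ((ex M p * LLK (Module.finrank ℚ K) δ ℓ Q : ℕ) : ℤ) ≤ kp p (1 + sOf j t)) ∧
        δ * ℓ ≤ Real.log (Ideal.absNorm M)) →
      lsum (zs (j + 1) t) + lsum (zs (j + 2) t) ≤ ℓ →
      lsum ((zs (j + 1) t).filter (fun p => lN p ≤ δ * ℓ)) +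
        lsum ((zs (j + 2) t).filter (fun p => lN p ≤ δ * ℓ)) + 2 * Real.log (Ideal.absNorm M) ≤
          (2 / 3 + 4 * δ) * ℓ →
      ∃ h : ℕ, 1 ≤ h ∧ h ≤ KKK (Module.finrank ℚ K) δ ∧ ∃ j : Fin 3,
      (PCapK δ (kapK (Module.finrank ℚ K) δ) ℓ Q ((2 / 3 + 4 * δ) * ℓ) (NNK ℓ Q / h)
        (LLK (Module.finrank ℚ K) δ ℓ Q) (-sOf j t) ∨
       ∃ v : InfinitePlace K, RCapK δ (kapK (Module.finrank ℚ K) δ) ℓ Q ((2 / 3 + 4 * δ) * ℓ)
        (NNK ℓ Q / h) v (-sOf j t)) := by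
    intro j M m1 m2 m3 m4 m5
    have hu : -sOf j t ≠ 0 := neg_ne_zero.2 (sOf_ne_zero h0 h1 j)
    have hs1 : hs (sOf j t) = hh t := hs_sOf h0 h1 j
    have hH : logHeight₁ (-sOf j t) ≤ 2 * Q := by
      rw [logHeight₁_neg]
      exact (logHeight₁_le_hs _).trans (by rw [hs1]; exact hQu)
    have hr : lsum (supp (-sOf j t)) ≤ ℓ := by
      rw [supp_sOf h0 h1 j]
      exact (lsum_union_le' _ _).trans m4
    have hsm : lsum (smal (δ * ℓ) (-sOf j t)) ≤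
        lsum ((zs (j + 1) t).filter (fun p => lN p ≤ δ * ℓ)) +
        lsum ((zs (j + 2) t).filter (fun p => lN p ≤ δ * ℓ)) := by
      unfold smal
      rw [supp_sOf h0 h1 j, Finset.filter_union]
      exact lsum_union_le' _ _
    obtain ⟨h, hh1, hhK, hB⟩ := base_existsK δ ℓ Q hδ hδ1 hℓ hQ0 hN hNE (-sOf j t) hu hH hr
    refine ⟨h, hh1, hhK, j, ?_⟩
    by_cases hc : Q / 2 ≤ LP (1 + sOf j t) Set.univ
    · left
      obtain ⟨m6, m7⟩ := m3 hc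
      refine ⟨hB, M, m1, ?_, m7, by linarith⟩
      intro p hp
      rw [sub_neg_eq_add]
      exact m6 p hp
    · right
      obtain ⟨v, hv⟩ := inf_type Q hQ (sOf j t) (one_add_sOf_ne_zero h0 h1 j)
        (by rw [hs1]; exact hQl) (not_le.1 hc)
      refine ⟨v, hB, ?_, by linarith⟩
      have e1 : -sOf j t - 1 = -(1 + sOf j t) := by ring
      rw [e1, show v (-(1 + sOf j t)) = v (1 + sOf j t) from v.1.map_neg _]
      exact hv
  rcases three_costsK δ ℓ _ _ _ _ _ _ _ _ _ a2 b2 c2 (hzs.trans hI) with h | h | h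
  · exact hfin 0 M0 a1 a3 a4 (by
      show lsum (zs 1 t) + lsum (zs 2 t) ≤ ℓ
      linarith [hns 0]) h
  · exact hfin 1 M1 b1 b3 b4 (by
      show lsum (zs 2 t) + lsum (zs 0 t) ≤ ℓ
      linarith [hns 1]) h
  · exact hfin 2 M2 c1 c3 c4 (by
      show lsum (zs 0 t) + lsum (zs 1 t) ≤ ℓ
      linarith [hns 2]) h

end AbcRadK
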