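import Pool.Agent.Work.MP_a793bb_nt.RadK.DefsK

/-!
# Elementary properties of `supp`, `smal`, `lsum`

Proofs. `mem_supp`: `av_one_iff_kp`. The others are immediate (`lN_pos`). `Rs_supp`: definition
of `Rs` as a finite sum (`finsum_mem_eq_finite_toFinset_sum` or similar).
`supp_one_sub`... `sub_av`: if `p` divides `1 - u` and `1 - u'` at least to the order `N ≥ 1`
(`kp p (1 - u) ≥ N`, in particular `u ≠ 1` since `kp p 0 = 0`) then `av p u = 1` and
`av p (u' / u - 1) ≤ exp (- N lN p)`: `u' / u - 1 = ((1 - u) - (1 - u')) / u`, `av_eq_zpow`,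
`log_av`.
-/

set_option autoImplicit false

namespace AbcRadK

open Finset AbcRad Pool.Agent.Work.MP_a793bb_nt Pool.Agent.Work.MP_a793bb_nt.BPlus NumberField
  IsDedekindDomain Height

variable {K : Type*} [Field K] [NumberField K]

theorem mem_supp {u : K} (hu : u ≠ 0) (p : HeightOneSpectrum (𝓞 K)) :
    p ∈ supp u ↔ kp p u ≠ 0 := by
  unfold supp
  rw [dif_pos hu, Set.Finite.mem_toFinset, ← not_iff_not, not_not]
  rw [← av_one_iff_kp p hu]
  exact not_not

theorem lsum_nonneg (S : Finset (HeightOneSpectrum (𝓞 K))) : 0 ≤ lsum S :=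
  Finset.sum_nonneg fun p _ => (lN_pos p).le

theorem lsum_mono {S T : Finset (HeightOneSpectrum (𝓞 K))} (h : S ⊆ T) : lsum S ≤ lsum T :=
  Finset.sum_le_sum_of_subset_of_nonneg h fun p _ _ => (lN_pos p).le

theorem Rs_finset (S : Finset (HeightOneSpectrum (𝓞 K))) :
    Rs (S : Set (HeightOneSpectrum (𝓞 K))) = lsum S := by
  unfold Rs lsum
  exact finsum_mem_coe_finset _ _

theorem gr_kp_zero {u : K} (hu : u ≠ 0) (n : ℕ) (hn : 1 ≤ n) (p : HeightOneSpectrum (𝓞 K))
    (hp : p ∉ supp u) : gr n (kp p u) = 0 := by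
  rw [mem_supp hu, not_not] at hp
  rw [hp]
  unfold gr fr
  have h1 : (2 * 0 + (n : ℤ)) / (2 * n) = 0 := by
    apply Int.ediv_eq_zero_of_lt <;> omega
  rw [h1]
  ring

theorem sub_av {u u' : K} (hu : u ≠ 0) (hu' : u' ≠ 0) (p : HeightOneSpectrum (𝓞 K)) (N : ℕ)
    (hN : 1 ≤ N) (h : (N : ℤ) ≤ kp p (1 - u)) (h' : (N : ℤ) ≤ kp p (1 - u')) :
    av p (u' / u - 1) ≤ Real.exp (-(N * lN p)) := by
  have key : ∀ w : K, (N : ℤ) ≤ kp p (1 - w) → av p (1 - w) ≤ Real.exp (-(N * lN p)) := by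
    intro w hw
    have hne : 1 - w ≠ 0 := by
      intro h0
      rw [h0] at hw
      have h1 : kp p (0 : K) = 0 := by
        unfold kp
        simp
      rw [h1] at hw
      omega
    rw [← Real.log_le_iff_le_exp (av_pos p hne), log_av hne]
    have h2 : (N : ℝ) ≤ (kp p (1 - w) : ℝ) := by exact_mod_cast hw
    have h3 := lN_pos p
    nlinarith
  have h1 := key u h
  have h2 := key u' h'
  have h3 : av p u = 1 := by
    have h4 : Real.exp (-(N * lN p)) < 1 := by
      rw [Real.exp_lt_one_iff]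
      have h3 := lN_pos p
      have h5 : (1 : ℝ) ≤ N := by exact_mod_cast hN
      nlinarith
    apply av_eq_one_of_near
    have h5 : u - 1 = -(1 - u) := by ring
    rw [h5, av_neg]
    exact h1.trans_lt h4
  have h4 : u' / u - 1 = ((1 - u) + -(1 - u')) * u⁻¹ := by
    field_simp
    ring
  rw [h4, av_mul, av_inv, h3, inv_one, mul_one]
  refine (av_add_le p _ _).trans (max_le h1 ?_)
  rw [av_neg]
  exact h2

end AbcRadK
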