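import Pool.Agent.Work.MP_a793bb_nt.RadK.SuppK
import Pool.Agent.Work.MP_a793bb_nt.RadK.HtEq
import Pool.Agent.Work.MP_a793bb_nt.Rad.FrGr

/-!
# Heights for two elements of a cell

Proof. Let `w_v = log (v ξ) - log (v u) / n`, `w'_v` the same for `u', ξ'`. By `harch`,
`|w_v - w'_v| ≤ κ ℓ`. Let `t = (u' / u) (ξ / ξ') ^ n`. `log (v t) = n (w_v - w'_v)`, and
`kp p t = kp p u' - kp p u + n (f_p - f'_p) = g'_p - g_p` (`Dec.val`; `ex b p` cancels;
definition of `gr`). By `ht_le` with `T = supp u ∪ supp u'`,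
`logHeight₁ t ≤ ∑_v mult n κ ℓ + ∑_{p ∈ T} |g'_p - g_p| lN p`. For `p` small (`lN p ≤ δ ℓ`) in `T`, `p`
is in both `smal` sets and the floors agree, so `|g'_p - g_p| ≤ κ n`; for large `p` it is at most
`κ n` times the number of the sets `supp u`, `supp u'` which contain `p` (`hlarge`, `gr_kp_zero`).
So the second sum is at most `κ n (lsum (supp u) + lsum (supp u')) ≤ 2 κ n ℓ`.
Similarly, `kp p (ξ / ξ') = f_p - f'_p`, `|f_p| ≤ 2 |kp p u| / n` (`fr_abs`), so
`∑ |kp p (ξ / ξ')| lN p ≤ (2 / n) (2 logHeight₁ u + 2 logHeight₁ u') ≤ 16 Q / n` (`sum_kp_le`), and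
`log (v (ξ / ξ')) = (log (v u) - log (v u')) / n + w_v - w'_v`, so (`sum_inf_le`)
`∑_v mult |log (v (ξ / ξ'))| ≤ (2 logHeight₁ u + 2 logHeight₁ u') / n + d κ ℓ ≤ 8 Q / n + d κ ℓ`.
-/

set_option autoImplicit false

namespace AbcRadK

open Finset AbcRad Pool.Agent.Work.MP_a793bb_nt Pool.Agent.Work.MP_a793bb_nt.BPlus NumberField
  IsDedekindDomain Height

variable {K : Type*} [Field K] [NumberField K]

private theorem sum_mult_real :
    ∑ v : InfinitePlace K, (v.mult : ℝ) = (Module.finrank ℚ K : ℝ) := by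
  rw [← InfinitePlace.sum_mult_eq]
  push_cast
  rfl

omit [NumberField K] in
private theorem val_pos (v : InfinitePlace K) {x : K} (hx : x ≠ 0) : 0 < v x :=
  InfinitePlace.pos_iff.2 hx

omit [NumberField K] in
/-- the archimedean difference -/
private theorem arch_close {κ ℓ : ℝ} {n : ℕ} (hκ : 0 < κ) (hℓ : 0 < ℓ) {u u' ξ ξ' : K}
    (harch : ∀ v : InfinitePlace K, ⌊(Real.log (v ξ) - Real.log (v u) / n) / (κ * ℓ)⌋ =
      ⌊(Real.log (v ξ') - Real.log (v u') / n) / (κ * ℓ)⌋) (v : InfinitePlace K) :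
    |(Real.log (v ξ) - Real.log (v u) / n) - (Real.log (v ξ') - Real.log (v u') / n)| ≤ κ * ℓ := by
  have h1 := Int.abs_sub_lt_one_of_floor_eq_floor (harch v)
  have h0 : 0 < κ * ℓ := mul_pos hκ hℓ
  rw [← sub_div, abs_div, abs_of_pos h0, div_lt_one h0] at h1
  exact h1.le

private theorem kp_t {C C' : ℝ} {n : ℕ} {u u' ξ ξ' : K} (hu : u ≠ 0) (hu' : u' ≠ 0)
    {b : Ideal (𝓞 K)} (hd : Dec C n u b ξ) (hd' : Dec C' n u' b ξ')
    (p : HeightOneSpectrum (𝓞 K)) :
    kp p ((u' / u) * (ξ / ξ') ^ n) = gr n (kp p u') - gr n (kp p u) := by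
  have h1 := hd.ne0
  have h2 := hd'.ne0
  rw [kp_mul p (div_ne_zero hu' hu) (pow_ne_zero n (div_ne_zero h1 h2)),
    kp_pow p (div_ne_zero h1 h2), kp_div p hu' hu, kp_div p h1 h2, hd.val p,
    hd'.val p]
  unfold gr
  ring

private theorem kp_xi {C C' : ℝ} {n : ℕ} {u u' ξ ξ' : K}
    {b : Ideal (𝓞 K)} (hd : Dec C n u b ξ) (hd' : Dec C' n u' b ξ')
    (p : HeightOneSpectrum (𝓞 K)) :
    kp p (ξ / ξ') = fr n (kp p u) - fr n (kp p u') := by
  rw [kp_div p hd.ne0 hd'.ne0, hd.val p, hd'.val p]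
  ring

open Classical in
private theorem gr_sub_le {δ κ ℓ Q : ℝ} {n : ℕ} (hn : 1 ≤ n) (hκ : 0 < κ) {u u' : K}
    (hu : BaseK δ κ ℓ Q n u) (hu' : BaseK δ κ ℓ Q n u') (hlab : SameLab δ κ ℓ n u u')
    (p : HeightOneSpectrum (𝓞 K)) :
    |((gr n (kp p u') - gr n (kp p u) : ℤ) : ℝ)| ≤
      (if p ∈ supp u then κ * n else 0) + (if p ∈ supp u' then κ * n else 0) := by
  have hn0 : (0 : ℝ) < n := by exact_mod_cast hn
  have hκn : 0 < κ * n := mul_pos hκ hn0
  push_cast
  by_cases hp : lN p ≤ δ * ℓ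
  · by_cases h1 : p ∈ smal (δ * ℓ) u
    · have h2 : p ∈ smal (δ * ℓ) u' := by
        rw [← hlab.1]
        exact h1
      have h3 : p ∈ supp u := (mem_filter.1 h1).1
      have h4 : p ∈ supp u' := (mem_filter.1 h2).1
      rw [if_pos h3, if_pos h4]
      have h5 := Int.abs_sub_lt_one_of_floor_eq_floor (hlab.2 p h1)
      rw [← sub_div, abs_div, abs_of_pos hκn, div_lt_one hκn, abs_sub_comm] at h5
      linarith
    · have h2 : p ∉ smal (δ * ℓ) u' := by
        rw [← hlab.1]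
        exact h1
      have h3 : p ∉ supp u := fun h => h1 (mem_filter.2 ⟨h, hp⟩)
      have h4 : p ∉ supp u' := fun h => h2 (mem_filter.2 ⟨h, hp⟩)
      rw [if_neg h3, if_neg h4, gr_kp_zero hu.ne0 n hn p h3, gr_kp_zero hu'.ne0 n hn p h4]
      simp
  · rw [not_le] at hp
    have h1 : |(gr n (kp p u) : ℝ)| ≤ if p ∈ supp u then κ * n else 0 := by
      by_cases h : p ∈ supp u
      · rw [if_pos h]
        exact hu.hlarge p h hp
      · rw [if_neg h, gr_kp_zero hu.ne0 n hn p h]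
        simp
    have h2 : |(gr n (kp p u') : ℝ)| ≤ if p ∈ supp u' then κ * n else 0 := by
      by_cases h : p ∈ supp u'
      · rw [if_pos h]
        exact hu'.hlarge p h hp
      · rw [if_neg h, gr_kp_zero hu'.ne0 n hn p h]
        simp
    have h3 := abs_sub (gr n (kp p u') : ℝ) (gr n (kp p u))
    linarith

open Classical in
private theorem sum_ite (T S : Finset (HeightOneSpectrum (𝓞 K))) (h : S ⊆ T) (c : ℝ) :
    ∑ p ∈ T, (if p ∈ S then c else 0) * lN p = c * lsum S := by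
  have h1 : ∀ p ∈ T, (if p ∈ S then c else 0) * lN p = if p ∈ S then c * lN p else 0 := by
    intro p _
    split_ifs <;> ring
  rw [sum_congr rfl h1, ← sum_filter, lsum, mul_sum]
  congr 1
  ext p
  rw [mem_filter]
  exact ⟨fun h => h.2, fun h' => ⟨h h', h'⟩⟩

private theorem fr_le {n : ℕ} (hn : 1 ≤ n) (e : ℤ) : |(fr n e : ℝ)| ≤ 2 / n * |(e : ℝ)| := by
  have hn0 : (0 : ℝ) < n := by exact_mod_cast hn
  have h1 := fr_abs n hn e
  have h2 : (n : ℝ) * |(fr n e : ℝ)| ≤ 2 * |(e : ℝ)| := by exact_mod_cast h1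
  rw [div_mul_eq_mul_div, le_div_iff₀ hn0, mul_comm]
  exact h2

theorem pair_heights (δ κ ℓ Q C : ℝ) (n : ℕ) (hn : 1 ≤ n) (hκ : 0 < κ) (hℓ : 0 < ℓ) (u u' : K)
    (hu : BaseK δ κ ℓ Q n u) (hu' : BaseK δ κ ℓ Q n u') (hlab : SameLab δ κ ℓ n u u')
    (b : Ideal (𝓞 K)) (ξ ξ' : K) (hd : Dec C n u b ξ) (hd' : Dec C n u' b ξ')
    (harch : ∀ v : InfinitePlace K, ⌊(Real.log (v ξ) - Real.log (v u) / n) / (κ * ℓ)⌋ =
      ⌊(Real.log (v ξ') - Real.log (v u') / n) / (κ * ℓ)⌋) :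
    logHeight₁ ((u' / u) * (ξ / ξ') ^ n) ≤ (2 + (Module.finrank ℚ K : ℝ)) * (κ * n) * ℓ ∧
      logHeight₁ (ξ / ξ') ≤ 24 * Q / n + (Module.finrank ℚ K : ℝ) * κ * ℓ := by
  classical
  have hn0 : (0 : ℝ) < n := by exact_mod_cast hn
  have hu0 := hu.ne0
  have hu0' := hu'.ne0
  have hξ := hd.ne0
  have hξ' := hd'.ne0
  have ht0 : (u' / u) * (ξ / ξ') ^ n ≠ 0 :=
    mul_ne_zero (div_ne_zero hu0' hu0) (pow_ne_zero n (div_ne_zero hξ hξ'))
  have hclose := arch_close (n := n) hκ hℓ harch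
  constructor
  · have h1 := ht_le _ ht0 (supp u ∪ supp u') (by
      intro p hp
      by_contra hcon
      rw [mem_union, not_or] at hcon
      rw [kp_t hu0 hu0' hd hd' p, gr_kp_zero hu0 n hn p hcon.1, gr_kp_zero hu0' n hn p hcon.2,
        sub_zero] at hp
      exact hp rfl)
    have h2 : ∑ v : InfinitePlace K, (v.mult : ℝ) * |Real.log (v ((u' / u) * (ξ / ξ') ^ n))| ≤
        (Module.finrank ℚ K : ℝ) * (n * (κ * ℓ)) := by
      rw [← sum_mult_real, sum_mul]
      refine sum_le_sum fun v _ => mul_le_mul_of_nonneg_left ?_ (Nat.cast_nonneg _)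
      have h3 : Real.log (v ((u' / u) * (ξ / ξ') ^ n)) = n * ((Real.log (v ξ) - Real.log (v u) / n) -
          (Real.log (v ξ') - Real.log (v u') / n)) := by
        have a1 := (val_pos v hu0).ne'
        have a2 := (val_pos v hu0').ne'
        have a3 := (val_pos v hξ).ne'
        have a4 := (val_pos v hξ').ne'
        rw [map_mul, map_pow, map_div₀, map_div₀, Real.log_mul (div_ne_zero a2 a1)
          (pow_ne_zero n (div_ne_zero a3 a4)), Real.log_pow, Real.log_div a2 a1, Real.log_div a3 a4]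
        field_simp
        ring
      rw [h3, abs_mul, abs_of_pos hn0]
      exact mul_le_mul_of_nonneg_left (hclose v) hn0.le
    have h4 : ∑ p ∈ supp u ∪ supp u', |(kp p ((u' / u) * (ξ / ξ') ^ n) : ℝ)| * lN p ≤
        κ * n * lsum (supp u) + κ * n * lsum (supp u') := by
      rw [← sum_ite (supp u ∪ supp u') (supp u) subset_union_left,
        ← sum_ite (supp u ∪ supp u') (supp u') subset_union_right, ← sum_add_distrib]
      refine sum_le_sum fun p _ => ?_
      rw [← add_mul, kp_t hu0 hu0' hd hd' p]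
      exact mul_le_mul_of_nonneg_right (gr_sub_le hn hκ hu hu' hlab p) (lN_pos p).le
    have h5 : κ * n * lsum (supp u) ≤ κ * n * ℓ :=
      mul_le_mul_of_nonneg_left hu.hrad (mul_pos hκ hn0).le
    have h6 : κ * n * lsum (supp u') ≤ κ * n * ℓ :=
      mul_le_mul_of_nonneg_left hu'.hrad (mul_pos hκ hn0).le
    nlinarith [h1, h2, h4, h5, h6]
  · have h1 := ht_le _ (div_ne_zero hξ hξ') (supp u ∪ supp u') (by
      intro p hp
      by_contra hcon
      rw [mem_union, not_or, mem_supp hu0, mem_supp hu0', not_not, not_not] at hcon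
      rw [kp_xi hd hd' p, hcon.1, hcon.2, sub_self] at hp
      exact hp rfl)
    have h2 : ∑ v : InfinitePlace K, (v.mult : ℝ) * |Real.log (v (ξ / ξ'))| ≤
        1 / n * (∑ v : InfinitePlace K, (v.mult : ℝ) * |Real.log (v u)| +
          ∑ v : InfinitePlace K, (v.mult : ℝ) * |Real.log (v u')|) +
          (Module.finrank ℚ K : ℝ) * (κ * ℓ) := by
      rw [← sum_mult_real, sum_mul, ← sum_add_distrib, mul_sum, ← sum_add_distrib]
      refine sum_le_sum fun v _ => ?_
      have h3 : Real.log (v (ξ / ξ')) = ((Real.log (v ξ) - Real.log (v u) / n) -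
          (Real.log (v ξ') - Real.log (v u') / n)) + (Real.log (v u) / n - Real.log (v u') / n) := by
        rw [map_div₀, Real.log_div (val_pos v hξ).ne' (val_pos v hξ').ne']
        ring
      have h4 : |Real.log (v (ξ / ξ'))| ≤ κ * ℓ + 1 / n * (|Real.log (v u)| + |Real.log (v u')|) := by
        rw [h3]
        refine (abs_add_le _ _).trans (add_le_add (hclose v) ?_)
        refine (abs_sub _ _).trans (le_of_eq ?_)
        rw [abs_div, abs_div, abs_of_pos hn0]
        ring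
      calc (v.mult : ℝ) * |Real.log (v (ξ / ξ'))|
          ≤ (v.mult : ℝ) * (κ * ℓ + 1 / n * (|Real.log (v u)| + |Real.log (v u')|)) :=
            mul_le_mul_of_nonneg_left h4 (Nat.cast_nonneg _)
        _ = _ := by ring
    have h3 : ∑ p ∈ supp u ∪ supp u', |(kp p (ξ / ξ') : ℝ)| * lN p ≤
        2 / n * (∑ p ∈ supp u ∪ supp u', |(kp p u : ℝ)| * lN p +
          ∑ p ∈ supp u ∪ supp u', |(kp p u' : ℝ)| * lN p) := by
      rw [← sum_add_distrib, mul_sum]
      refine sum_le_sum fun p _ => ?_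
      rw [kp_xi hd hd' p]
      push_cast
      have h4 := fr_le hn (kp p u)
      have h5 := fr_le hn (kp p u')
      have h6 := abs_sub (fr n (kp p u) : ℝ) (fr n (kp p u'))
      calc |(fr n (kp p u) : ℝ) - (fr n (kp p u') : ℝ)| * lN p
          ≤ (2 / n * |(kp p u : ℝ)| + 2 / n * |(kp p u' : ℝ)|) * lN p :=
            mul_le_mul_of_nonneg_right (by linarith) (lN_pos p).le
        _ = _ := by ring
    have a1 := sum_kp_le u hu0 (supp u ∪ supp u')
    have a2 := sum_kp_le u' hu0' (supp u ∪ supp u')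
    have a3 := sum_inf_le u hu0
    have a4 := sum_inf_le u' hu0'
    have b1 := hu.hH
    have b2 := hu'.hH
    have c1 : 1 / (n : ℝ) * (∑ v : InfinitePlace K, (v.mult : ℝ) * |Real.log (v u)| +
          ∑ v : InfinitePlace K, (v.mult : ℝ) * |Real.log (v u')|) ≤ 1 / n * (8 * Q) :=
      mul_le_mul_of_nonneg_left (by linarith) (by positivity)
    have c2 : 2 / (n : ℝ) * (∑ p ∈ supp u ∪ supp u', |(kp p u : ℝ)| * lN p +
          ∑ p ∈ supp u ∪ supp u', |(kp p u' : ℝ)| * lN p) ≤ 2 / n * (8 * Q) :=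
      mul_le_mul_of_nonneg_left (by linarith) (by positivity)
    have c3 : 24 * Q / n + (Module.finrank ℚ K : ℝ) * κ * ℓ =
        1 / n * (8 * Q) + (Module.finrank ℚ K : ℝ) * (κ * ℓ) + 2 / n * (8 * Q) := by ring
    rw [c3]
    linarith

end AbcRadK
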