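import Pool.Agent.Work.MP_a793bb_nt.RadK.DefsK

/-!
# The parameters exist

Proof (compare `Rad/ParEx.lean`, which can be adapted). Fix `d ≥ 1`, `δ`. `X = Q / ℓ ≥ C0`,
`κ = kapK d δ = δ ^ 3 / (400000 d (d + 2))`, `j = δ ^ 2 / (8192 d)`, `N = NNK ℓ Q = ⌊X / 4⌋₊`,
`L0 = LLK d δ ℓ Q = ⌊δ X / (8 d)⌋₊`, `K = KKK d δ ≥ 1`, `n = N / h`, `J = ⌊j n⌋₊`, `I = L0 / J`.
Choose `C0` so large that for `X ≥ C0`: `N ≥ 2 K`, `N ≥ X / 8`, `18 K ≤ j N`, `4 (4 X / δ) K ^ 2 ≤ κ N ^ 2`,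
`δ X / (8 d) ≥ 2`, `X ≥ 8 d`; and `ℓ0 ≥ 1` so large that `δ ℓ0 / 2 > 82 d * 8192 d / δ ^ 2`. Then
`Q ≥ 8 d ℓ ≥ 8 d`, `j n ≥ 9`, `8 ≤ J ≤ j n ≤ n`, and
* `L0 ≥ δ X / (16 d)`, `J ≤ j n ≤ j X / 4 = δ ^ 2 X / (32768 d) ≤ δ L0 / 2048`; so `I ≥ 2`,
  `I J ≥ L0 - J ≥ (1 - 1 / 2048) L0`, `I J ≤ L0`;
* `L0 δ ℓ ≤ δ ^ 2 X ℓ / (8 d) ≤ Q / (8 d)`;
* `J ≥ j n / 2`, so `n I ≤ 2 L0 / j`, `24 d (log (n I) + n I log 2) ≤ 41 d n I ≤ 82 d L0 / j`;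
* `2 I (2 + d) κ n ℓ ≤ 4 (d + 2) κ L0 ℓ / j = 32768 / 400000 δ L0 ℓ ≤ 0.082 δ L0 ℓ`;
* `48 J Q / n ≤ 48 j Q = 48 j X ℓ ≤ 768 d j L0 ℓ / δ = (768 / 8192) δ L0 ℓ ≤ 0.094 δ L0 ℓ`;
* `2 J d κ ℓ ≤ δ L0 ℓ / 1024` (as `d κ ≤ 1`);
* altogether the left side of `key` is at most `82 d L0 / j + 0.18 δ L0 ℓ < 0.68 δ L0 ℓ`, the right side
  at least `(1 - 1 / 2048) δ L0 ℓ`.
-/

set_option autoImplicit false

namespace AbcRadK

open Finset AbcRad Pool.Agent.Work.MP_a793bb_nt Pool.Agent.Work.MP_a793bb_nt.BPlus NumberField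
  IsDedekindDomain Height

theorem par_coreK (D δ ℓ X κ : ℝ) (K N L0 h : ℕ) (hD : 1 ≤ D) (hδ : 0 < δ) (hδ1 : δ ≤ 1 / 10)
    (hℓ : 0 < ℓ) (hκ : κ = δ ^ 3 / (400000 * D * (D + 2)))
    (hℓ2 : 671744 * D ^ 2 / δ ^ 2 < δ * ℓ / 2)
    (hN1 : (N : ℝ) ≤ X / 4) (hN2 : 2 * K ≤ N) (hN3 : 18 * K ≤ δ ^ 2 / (8192 * D) * (N : ℝ))
    (hL2 : δ * X / (16 * D) ≤ (L0 : ℝ)) (hX : 0 < X)
    (h1 : 1 ≤ h) (hK : h ≤ K) :
    ∃ I J : ℕ, 8 ≤ J ∧ J ≤ N / h ∧ 2 ≤ I ∧ I * J ≤ L0 ∧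
      2 * (12 * D * (Real.log (((N / h) * I : ℕ) : ℝ) + ((N / h) * I : ℕ) * Real.log 2) +
        I * ((2 + D) * (κ * ((N / h : ℕ) : ℝ)) * ℓ) +
        J * (24 * (X * ℓ) / ((N / h : ℕ) : ℝ) + D * κ * ℓ)) < (I * J : ℕ) * (δ * ℓ) := by
  have hK1 : 1 ≤ K := le_trans h1 hK
  have hD0 : 0 < D := by linarith
  have hκ0 : 0 < κ := by rw [hκ]; positivity
  set n : ℕ := N / h with hn
  set j : ℝ := δ ^ 2 / (8192 * D) with hj
  have hj0 : 0 < j := by positivity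
  have hj1 : j ≤ 1 := by
    rw [hj, div_le_one (by positivity)]; nlinarith
  have hhR : (1 : ℝ) ≤ h := by exact_mod_cast h1
  have hKR : (h : ℝ) ≤ K := by exact_mod_cast hK
  have hNK : (2 : ℝ) * K ≤ N := by exact_mod_cast hN2
  have hn_lt : (N : ℝ) < h * n + h := by
    have := Nat.lt_mul_div_succ N (show 0 < h from h1)
    have h3 : N < h * (n + 1) := by rw [hn]; exact this
    have h4 : (N : ℝ) < h * (n + 1) := by exact_mod_cast h3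
    linarith
  have hnN : (n : ℝ) ≤ N := by
    have : n ≤ N := Nat.div_le_self _ _
    exact_mod_cast this
  have hn2 : (N : ℝ) ≤ 2 * (h * n) := by linarith
  have hjn : 9 ≤ j * n := by
    have h5 : 18 * (K : ℝ) ≤ j * (2 * (h * n)) := le_trans hN3 (by gcongr)
    have h6 : 18 * (h : ℝ) ≤ j * (2 * (h * n)) := by linarith
    have h7 : 0 < (h : ℝ) := by linarith
    have h8 : (h : ℝ) * 9 ≤ h * (j * n) := by linarith
    exact le_of_mul_le_mul_left h8 h7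
  have hn0 : 0 < (n : ℝ) := by
    rcases (Nat.cast_nonneg (α := ℝ) n).lt_or_eq with h9 | h9
    · exact h9
    · rw [← h9] at hjn; norm_num at hjn
  set J : ℕ := ⌊j * n⌋₊ with hJ
  have hJle : (J : ℝ) ≤ j * n := Nat.floor_le (by positivity)
  have hJlt : j * n < J + 1 := Nat.lt_floor_add_one _
  have hJ9 : 9 ≤ J := Nat.le_floor (by exact_mod_cast hjn)
  have hJR : (9 : ℝ) ≤ J := by exact_mod_cast hJ9
  have hJhalf : j * n ≤ 2 * J := by linarith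
  have hJn : J ≤ n := by
    have : (J : ℝ) ≤ n := le_trans hJle (by nlinarith)
    exact_mod_cast this
  set I : ℕ := L0 / J with hI
  have hIJ : I * J ≤ L0 := Nat.div_mul_le_self _ _
  have hIJR : (I : ℝ) * J ≤ L0 := by exact_mod_cast hIJ
  have hJpos : 0 < J := by omega
  have hIJ2 : (L0 : ℝ) < I * J + J := by
    have := Nat.lt_mul_div_succ L0 hJpos
    have h3 : L0 < J * (I + 1) := by rw [hI]; exact this
    have h4 : (L0 : ℝ) < J * (I + 1) := by exact_mod_cast h3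
    linarith
  have hJL : (J : ℝ) * 2048 ≤ δ * L0 := by
    have e1 : (J : ℝ) ≤ j * (X / 4) := le_trans hJle (by gcongr; linarith)
    have e2 : j * (X / 4) * 2048 = δ * (δ * X / (16 * D)) := by
      rw [hj]; field_simp; ring
    calc (J : ℝ) * 2048 ≤ j * (X / 4) * 2048 := by gcongr
      _ = δ * (δ * X / (16 * D)) := e2
      _ ≤ δ * L0 := by gcongr
  have hL0pos : 0 < (L0 : ℝ) := lt_of_lt_of_le (by positivity) hL2
  have hJL2 : (J : ℝ) * 20480 ≤ L0 := by nlinarith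
  have hI2 : 2 ≤ I := by
    rw [hI, Nat.le_div_iff_mul_le hJpos]
    have : (2 : ℝ) * J ≤ L0 := by nlinarith
    exact_mod_cast this
  have hIR : (2 : ℝ) ≤ I := by exact_mod_cast hI2
  have hnI : ((n * I : ℕ) : ℝ) * j ≤ 2 * L0 := by
    push_cast
    calc (n : ℝ) * I * j = I * (j * n) := by ring
      _ ≤ I * (2 * J) := by gcongr
      _ = 2 * (I * J) := by ring
      _ ≤ 2 * L0 := by linarith
  have hnI0 : 0 < ((n * I : ℕ) : ℝ) := by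
    push_cast; positivity
  refine ⟨I, J, by omega, hJn, hI2, hIJ, ?_⟩
  have hlog : Real.log ((n * I : ℕ) : ℝ) ≤ ((n * I : ℕ) : ℝ) := by
    have := Real.log_le_sub_one_of_pos hnI0
    linarith
  have hl2 : Real.log 2 ≤ 0.7 := by
    have := Real.log_two_lt_d9
    linarith
  have t1 : 24 * D * (Real.log ((n * I : ℕ) : ℝ) + ((n * I : ℕ) : ℝ) * Real.log 2) ≤
      82 * D * L0 / j := by
    have e1 : ((n * I : ℕ) : ℝ) * Real.log 2 ≤ ((n * I : ℕ) : ℝ) * 0.7 := by gcongr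
    have e2 : 24 * (Real.log ((n * I : ℕ) : ℝ) + ((n * I : ℕ) : ℝ) * Real.log 2) ≤
        41 * ((n * I : ℕ) : ℝ) := by linarith
    have e3 : ((n * I : ℕ) : ℝ) ≤ 2 * L0 / j := by
      rw [le_div_iff₀ hj0]; exact hnI
    calc 24 * D * (Real.log ((n * I : ℕ) : ℝ) + ((n * I : ℕ) : ℝ) * Real.log 2)
        = D * (24 * (Real.log ((n * I : ℕ) : ℝ) + ((n * I : ℕ) : ℝ) * Real.log 2)) := by ring
      _ ≤ D * (41 * ((n * I : ℕ) : ℝ)) := by gcongr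
      _ ≤ D * (41 * (2 * L0 / j)) := by gcongr
      _ = 82 * D * L0 / j := by ring
  have t2 : 2 * (I * ((2 + D) * (κ * (n : ℝ)) * ℓ)) ≤ δ * L0 * ℓ / 12 := by
    have e0 : (2 + D) * κ = δ / (400000 / 8192) * j := by
      rw [hκ, hj]; field_simp; ring
    have e1 : 2 * (I * ((2 + D) * (κ * (n : ℝ)) * ℓ)) =
        2 * (((2 + D) * κ) * ((n * I : ℕ) : ℝ) * ℓ) := by
      push_cast; ring
    rw [e1, e0]
    calc 2 * (δ / (400000 / 8192) * j * ((n * I : ℕ) : ℝ) * ℓ)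
        = (2 * δ / (400000 / 8192) * ℓ) * (((n * I : ℕ) : ℝ) * j) := by ring
      _ ≤ (2 * δ / (400000 / 8192) * ℓ) * (2 * L0) := by gcongr
      _ = (4 * 8192 / 400000) * (δ * L0 * ℓ) := by ring
      _ ≤ (1 / 12) * (δ * L0 * ℓ) := by
          have h9 : 0 < δ * L0 * ℓ := by positivity
          linarith
      _ = δ * L0 * ℓ / 12 := by ring
  have t3 : 2 * (J * (24 * (X * ℓ) / (n : ℝ))) ≤ δ * L0 * ℓ / 10 := by
    have e1 : (J : ℝ) / n ≤ j := by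
      rw [div_le_iff₀ hn0]; exact hJle
    have e2 : 2 * (J * (24 * (X * ℓ) / (n : ℝ))) = 48 * (X * ℓ) * (J / n) := by ring
    rw [e2]
    calc 48 * (X * ℓ) * (J / n) ≤ 48 * (X * ℓ) * j := by gcongr
      _ = (768 / 8192) * (δ * ℓ) * (δ * X / (16 * D)) := by
          rw [hj]; field_simp; ring
      _ ≤ (768 / 8192) * (δ * ℓ) * L0 := by gcongr
      _ ≤ (1 / 10) * (δ * ℓ) * L0 := by
          have h9 : 0 < (δ * ℓ) * L0 := by positivity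
          linarith
      _ = δ * L0 * ℓ / 10 := by ring
  have t3b : 2 * (J * (D * κ * ℓ)) ≤ δ * L0 * ℓ / 1024 := by
    have e1 : D * κ ≤ 1 := by
      rw [hκ, ← mul_div_assoc, div_le_one (by positivity)]
      have : δ ^ 3 ≤ 1 := pow_le_one₀ hδ.le (by linarith)
      nlinarith [mul_pos hD0 hD0]
    calc 2 * (J * (D * κ * ℓ)) = 2 * J * (D * κ) * ℓ := by ring
      _ ≤ 2 * J * 1 * ℓ := by gcongr
      _ = (J * 2048) * ℓ / 1024 := by ring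
      _ ≤ (δ * L0) * ℓ / 1024 := by gcongr
  have t4 : 82 * D * L0 / j < δ * ℓ / 2 * L0 := by
    have : 82 * D * (L0 : ℝ) / j = 671744 * D ^ 2 / δ ^ 2 * L0 := by
      rw [hj]; field_simp; ring
    rw [this]
    gcongr
  have t5 : (L0 : ℝ) * (1 - 1 / 20480) ≤ (I * J : ℕ) := by
    push_cast
    nlinarith
  have t6 : (L0 : ℝ) * (1 - 1 / 20480) * (δ * ℓ) ≤ (I * J : ℕ) * (δ * ℓ) := by
    gcongr
  have t7 : 0 < L0 * (δ * ℓ) := by positivity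
  calc 2 * (12 * D * (Real.log ((n * I : ℕ) : ℝ) + ((n * I : ℕ) : ℝ) * Real.log 2) +
        I * ((2 + D) * (κ * (n : ℝ)) * ℓ) + J * (24 * (X * ℓ) / (n : ℝ) + D * κ * ℓ))
      = 24 * D * (Real.log ((n * I : ℕ) : ℝ) + ((n * I : ℕ) : ℝ) * Real.log 2) +
        2 * (I * ((2 + D) * (κ * (n : ℝ)) * ℓ)) +
        2 * (J * (24 * (X * ℓ) / (n : ℝ))) + 2 * (J * (D * κ * ℓ)) := by ring
    _ ≤ 82 * D * L0 / j + δ * L0 * ℓ / 12 + δ * L0 * ℓ / 10 + δ * L0 * ℓ / 1024 := by linarith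
    _ < (L0 : ℝ) * (1 - 1 / 20480) * (δ * ℓ) := by nlinarith
    _ ≤ _ := t6

theorem par_existsK (d : ℕ) (hd : 1 ≤ d) (δ : ℝ) (hδ : 0 < δ) (hδ1 : δ ≤ 1 / 10) :
    ∃ ℓ0 C0 : ℝ, 1 ≤ ℓ0 ∧ 1 ≤ C0 ∧ ∀ ℓ Q : ℝ, ℓ0 ≤ ℓ → C0 * ℓ ≤ Q →
      (∀ h : ℕ, 1 ≤ h → h ≤ KKK d δ →
        ∃ I J : ℕ, ParK d δ (kapK d δ) ℓ Q (NNK ℓ Q / h) I J (LLK d δ ℓ Q)) ∧
      2 * KKK d δ ≤ NNK ℓ Q ∧
      4 * (4 * (Q / ℓ) / δ) * (KKK d δ : ℝ) ^ 2 ≤ kapK d δ * (NNK ℓ Q : ℝ) ^ 2 ∧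
      1 ≤ LLK d δ ℓ Q ∧ (LLK d δ ℓ Q : ℝ) * ℓ ≤ δ * Q / 8 := by
  have hdR : (1 : ℝ) ≤ d := by exact_mod_cast hd
  have hd0 : (0 : ℝ) < d := by linarith
  have hκ : 0 < kapK d δ := by unfold kapK; positivity
  set K : ℕ := KKK d δ with hK
  have hK0 : (0 : ℝ) ≤ K := Nat.cast_nonneg _
  set j : ℝ := δ ^ 2 / (8192 * d) with hj
  have hj0 : 0 < j := by positivity
  refine ⟨1343488 * d ^ 2 / δ ^ 3 + 1,
    8 * d + 12 * K + 144 * K / j + 1024 * K ^ 2 / (δ * kapK d δ) + 16 * d / δ + 16 * d / δ,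
    ?_, ?_, ?_⟩
  · have : 0 ≤ 1343488 * (d : ℝ) ^ 2 / δ ^ 3 := by positivity
    linarith
  · have h1 : 0 ≤ 144 * K / j := by positivity
    have h2 : 0 ≤ 1024 * (K : ℝ) ^ 2 / (δ * kapK d δ) := by positivity
    have h3 : 0 ≤ 16 * (d : ℝ) / δ := by positivity
    linarith
  intro ℓ Q hℓ0 hQ
  have hpos : 0 ≤ 1343488 * (d : ℝ) ^ 2 / δ ^ 3 := by positivity
  have hℓ1 : 1 ≤ ℓ := by linarith
  have hℓ : 0 < ℓ := by linarith
  set X : ℝ := Q / ℓ with hX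
  have hXC : 8 * d + 12 * K + 144 * K / j + 1024 * K ^ 2 / (δ * kapK d δ) + 16 * d / δ +
      16 * d / δ ≤ X := by
    rw [hX, le_div_iff₀ hℓ]; exact hQ
  have c1 : 0 ≤ 144 * K / j := by positivity
  have c2 : 0 ≤ 1024 * (K : ℝ) ^ 2 / (δ * kapK d δ) := by positivity
  have c3 : 0 ≤ 16 * (d : ℝ) / δ := by positivity
  have hX8 : 8 * d ≤ X := by linarith
  have hX0 : 0 < X := by linarith
  have hQX : Q = X * ℓ := by rw [hX]; field_simp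
  have hNle : (NNK ℓ Q : ℝ) ≤ X / 4 := Nat.floor_le (by positivity)
  have hNlt : X / 4 < NNK ℓ Q + 1 := Nat.lt_floor_add_one _
  have hN8 : X / 8 ≤ NNK ℓ Q := by linarith
  have hLle : (LLK d δ ℓ Q : ℝ) ≤ δ * X / (8 * d) := Nat.floor_le (by positivity)
  have hLlt : δ * X / (8 * d) < LLK d δ ℓ Q + 1 := Nat.lt_floor_add_one _
  have hδX : 16 * d ≤ δ * X := by
    have : 16 * d / δ ≤ X := by linarith
    rw [div_le_iff₀ hδ] at this; linarith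
  have hdX : 2 ≤ δ * X / (8 * d) := by
    rw [le_div_iff₀ (by positivity)]; linarith
  have hL16 : δ * X / (16 * d) ≤ LLK d δ ℓ Q := by
    have e : δ * X / (16 * d) = (δ * X / (8 * d)) / 2 := by field_simp; ring
    rw [e]; linarith
  have hN2 : 2 * K ≤ NNK ℓ Q := by
    have : (2 : ℝ) * K ≤ NNK ℓ Q := by linarith
    exact_mod_cast this
  have hN3 : 18 * (K : ℝ) ≤ δ ^ 2 / (8192 * d) * (NNK ℓ Q : ℝ) := by
    have h1 : 144 * K / j ≤ X := by linarith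
    rw [div_le_iff₀ hj0] at h1
    calc 18 * (K : ℝ) ≤ X * j / 8 := by linarith
      _ = j * (X / 8) := by ring
      _ ≤ j * (NNK ℓ Q : ℝ) := by gcongr
  have hQ0 : 0 < Q := by rw [hQX]; positivity
  refine ⟨?_, hN2, ?_, ?_, ?_⟩
  · intro h h1 hhK
    have hℓ2 : 671744 * (d : ℝ) ^ 2 / δ ^ 2 < δ * ℓ / 2 := by
      have e1 : δ * (1343488 * (d : ℝ) ^ 2 / δ ^ 3 + 1) / 2 =
          671744 * (d : ℝ) ^ 2 / δ ^ 2 + δ / 2 := by
        field_simp; ring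
      have e2 : δ * (1343488 * (d : ℝ) ^ 2 / δ ^ 3 + 1) / 2 ≤ δ * ℓ / 2 := by gcongr
      have : 0 < δ / 2 := by positivity
      linarith
    obtain ⟨I, J, hJ8, hJn, hI2, hIJ, hkey⟩ := par_coreK d δ ℓ X (kapK d δ) K (NNK ℓ Q)
      (LLK d δ ℓ Q) h hdR hδ hδ1 hℓ rfl hℓ2 hNle hN2 hN3 hL16 hX0 h1 hhK
    refine ⟨I, J, hδ, hκ, hℓ1, ?_, hJ8, hJn, hI2, hIJ, ?_, ?_⟩
    · rw [hQX]
      nlinarith
    · calc (LLK d δ ℓ Q : ℝ) * (δ * ℓ) ≤ (δ * X / (8 * d)) * (δ * ℓ) := by gcongr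
        _ = δ ^ 2 * (Q / (8 * d)) := by rw [hQX]; ring
        _ ≤ 1 * (Q / (8 * d)) := by
          have : δ ^ 2 ≤ 1 := by nlinarith
          gcongr
        _ = Q / (8 * d) := one_mul _
    · rw [← hQX] at hkey
      exact hkey
  · have h2 : 1024 * (K : ℝ) ^ 2 / (δ * kapK d δ) ≤ X := by linarith
    rw [div_le_iff₀ (by positivity)] at h2
    calc 4 * (4 * X / δ) * (K : ℝ) ^ 2 = X / (64 * δ) * (1024 * K ^ 2) := by
          field_simp; ring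
      _ ≤ X / (64 * δ) * (X * (δ * kapK d δ)) := by gcongr
      _ = kapK d δ * (X / 8) ^ 2 := by field_simp; ring
      _ ≤ kapK d δ * (NNK ℓ Q : ℝ) ^ 2 := by gcongr
  · have : (1 : ℝ) ≤ LLK d δ ℓ Q := by linarith
    exact_mod_cast this
  · calc (LLK d δ ℓ Q : ℝ) * ℓ ≤ (δ * X / (8 * d)) * ℓ := by gcongr
      _ = (1 / d) * (δ * Q / 8) := by rw [hQX]; field_simp
      _ ≤ 1 * (δ * Q / 8) := by
        have : 1 / (d : ℝ) ≤ 1 := by rw [div_le_one hd0]; exact hdR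
        gcongr
      _ = δ * Q / 8 := one_mul _

end AbcRadK
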