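import Pool.Agent.Work.MP_a793bb_nt.RadK.CoverK
import Pool.Agent.Work.MP_a793bb_nt.RadK.ParExK
import Pool.Agent.Work.MP_a793bb_nt.RadK.CountPK
import Pool.Agent.Work.MP_a793bb_nt.RadK.CountRK

/-!
# The number of solutions in a window

Proof. `ℓ0, C0` from `par_existsK` (`d = finrank ≥ 1`; `ParK` contains `8 d ≤ Q`, take any `h`, for
instance `h = 1 ≤ KKK d δ`). The window is finite: `logHeight₁ t ≤ hh t ≤ 2 Q` (`logHeight₁_le_triple`)
and Northcott (`NumberField.finite_setOfPred_mulHeight₁_le`). By `coverK` it is covered by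
`KKK d δ * 3 * (1 + number of infinite places)` sets; for each the map `t ↦ - sOf j t` is injective
(`sOf_injective`), and the image is a finite set to which `count_PK` or `count_RK` applies.
-/

set_option autoImplicit false

namespace AbcRadK

open Finset AbcRad Pool.Agent.Work.MP_a793bb_nt Pool.Agent.Work.MP_a793bb_nt.BPlus NumberField
  IsDedekindDomain Height

variable {K : Type*} [Field K] [NumberField K]

private lemma KKK_pos (d : ℕ) (hd : 1 ≤ d) (δ : ℝ) (hδ : 0 < δ) : 1 ≤ KKK d δ := by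
  have hdR : (1 : ℝ) ≤ d := by exact_mod_cast hd
  unfold KKK
  apply Nat.one_le_pow
  rw [Nat.ceil_pos]
  unfold kapK
  positivity

private lemma wsetK_finite (ℓ Q : ℝ) : (wsetK K ℓ Q).Finite := by
  refine (NumberField.finite_setOfPred_mulHeight₁_le K (Real.exp (2 * Q))).subset ?_
  rintro t ⟨-, -, -, -, h⟩
  have h1 : logHeight₁ t ≤ 2 * Q := (logHeight₁_le_triple t).trans h
  have h2 : 0 < mulHeight₁ t := mulHeight₁_pos t
  exact (Real.log_le_iff_le_exp h2).mp h1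

private lemma card_side (j : Fin 3) (W : Finset K) (hW : ∀ t ∈ W, t ≠ 1) (P : K → Prop)
    (B : ℝ) (hB : ∀ F : Finset K, (∀ u ∈ F, P u) → (F.card : ℝ) ≤ B)
    (S : Finset K) (hS : S ⊆ W) (hSP : ∀ t ∈ S, P (-sOf j t)) : (S.card : ℝ) ≤ B := by
  classical
  have hinj : Set.InjOn (fun t : K => -sOf j t) (S : Set K) := by
    intro t ht t' ht' h
    exact sOf_injective j (hW t (hS ht)) (hW t' (hS ht')) (neg_injective h)
  rw [← Finset.card_image_of_injOn hinj]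
  refine hB _ ?_
  intro u hu
  rw [Finset.mem_image] at hu
  obtain ⟨t, ht, rfl⟩ := hu
  exact hSP t ht

theorem window_countK (K : Type*) [Field K] [NumberField K] (δ : ℝ) (hδ : 0 < δ)
    (hδ1 : δ ≤ 1 / 10) :
    ∃ ℓ0 C0 C : ℝ, 1 ≤ ℓ0 ∧ 1 ≤ C0 ∧ 0 ≤ C ∧ ∀ ℓ Q : ℝ, ℓ0 ≤ ℓ → C0 * ℓ ≤ Q →
      (wsetK K ℓ Q).Finite ∧
        ((wsetK K ℓ Q).ncard : ℝ) ≤ C * Real.exp ((2 / 3 + 8 * δ) * ℓ) := by
  classical
  have hd : 1 ≤ Module.finrank ℚ K := Module.finrank_pos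
  obtain ⟨ℓ0, C0, hℓ0, hC0, hpar⟩ := par_existsK (Module.finrank ℚ K) hd δ hδ hδ1
  obtain ⟨CP, hCP1, hCP⟩ := count_PK K δ hδ hδ1
  obtain ⟨CR, hCR1, hCR⟩ := count_RK K δ hδ hδ1
  obtain ⟨d, hdd⟩ : ∃ d : ℕ, d = Module.finrank ℚ K := ⟨_, rfl⟩
  obtain ⟨r, hr⟩ : ∃ r : ℕ, r = Fintype.card (InfinitePlace K) := ⟨_, rfl⟩
  refine ⟨ℓ0, C0, KKK (Module.finrank ℚ K) δ * (3 * (CP + r * CR)), hℓ0, hC0, by positivity, ?_⟩
  intro ℓ Q hℓ hQ
  have hℓ1 : 1 ≤ ℓ := hℓ0.trans hℓ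
  obtain ⟨hPar, hN, hNE, hL, hL2⟩ := hpar ℓ Q hℓ hQ
  have hK1 : 1 ≤ KKK (Module.finrank ℚ K) δ := KKK_pos _ hd δ hδ
  have hQ8 : 8 * (Module.finrank ℚ K : ℝ) ≤ Q := by
    obtain ⟨I, J, hP⟩ := hPar 1 le_rfl hK1
    exact hP.hQ
  have hfin := wsetK_finite (K := K) ℓ Q
  refine ⟨hfin, ?_⟩
  rw [Set.ncard_eq_toFinset_card _ hfin]
  obtain ⟨W, hWdef⟩ : ∃ W : Finset K, W = hfin.toFinset := ⟨_, rfl⟩
  rw [← hWdef]
  have hW : ∀ p, p ∈ W ↔ p ∈ wsetK K ℓ Q := by
    intro p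
    rw [hWdef, Set.Finite.mem_toFinset]
  have hW1 : ∀ t ∈ W, t ≠ 1 := fun t ht => ((hW t).mp ht).2.1
  obtain ⟨B, hB⟩ : ∃ B : ℝ, B = Real.exp ((2 / 3 + 8 * δ) * ℓ) := ⟨_, rfl⟩
  have hB0 : 0 ≤ B := by
    rw [hB]
    exact (Real.exp_pos _).le
  have hB6 : Real.exp ((2 / 3 + 6 * δ) * ℓ) ≤ B := by
    rw [hB, Real.exp_le_exp]
    have : 0 ≤ δ * ℓ := by positivity
    linarith
  set PP : ℕ → Fin 3 → K → Prop := fun h j t =>
    PCapK δ (kapK (Module.finrank ℚ K) δ) ℓ Q ((2 / 3 + 4 * δ) * ℓ) (NNK ℓ Q / h)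
        (LLK (Module.finrank ℚ K) δ ℓ Q) (-sOf j t) with hPP
  set RR : ℕ → Fin 3 → InfinitePlace K → K → Prop := fun h j v t =>
    RCapK δ (kapK (Module.finrank ℚ K) δ) ℓ Q ((2 / 3 + 4 * δ) * ℓ)
        (NNK ℓ Q / h) v (-sOf j t) with hRR
  have hcov : W ⊆ (Finset.Icc 1 (KKK (Module.finrank ℚ K) δ)).biUnion (fun h =>
      (Finset.univ : Finset (Fin 3)).biUnion (fun j =>
        (W.filter (fun t => PP h j t)) ∪
          (Finset.univ : Finset (InfinitePlace K)).biUnion (fun v =>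
            W.filter (fun t => RR h j v t)))) := by
    intro t ht
    obtain ⟨h, hh1, hh2, j, hc⟩ := coverK δ ℓ Q hδ hδ1 hℓ1 hQ8 hN hNE hL hL2 t ((hW t).mp ht)
    rw [Finset.mem_biUnion]
    refine ⟨h, Finset.mem_Icc.mpr ⟨hh1, hh2⟩, ?_⟩
    rw [Finset.mem_biUnion]
    refine ⟨j, Finset.mem_univ _, ?_⟩
    rw [Finset.mem_union]
    rcases hc with hc | ⟨v, hc⟩
    · exact Or.inl (Finset.mem_filter.mpr ⟨ht, hc⟩)
    · refine Or.inr ?_
      rw [Finset.mem_biUnion]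
      exact ⟨v, Finset.mem_univ _, Finset.mem_filter.mpr ⟨ht, hc⟩⟩
  have hcell : ∀ h ∈ Finset.Icc 1 (KKK (Module.finrank ℚ K) δ), ∀ j : Fin 3,
      ((((W.filter (fun t => PP h j t)) ∪
          (Finset.univ : Finset (InfinitePlace K)).biUnion (fun v =>
            W.filter (fun t => RR h j v t))).card : ℕ) : ℝ) ≤ (CP + r * CR) * B := by
    intro h hh j
    rw [Finset.mem_Icc] at hh
    obtain ⟨I, J, hP⟩ := hPar h hh.1 hh.2
    have e1 : ((W.filter (fun t => PP h j t)).card : ℝ) ≤ CP * B := by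
      refine (card_side j W hW1 _ _ (hCP ℓ Q _ I J _ hP) _ (Finset.filter_subset _ _)
        (fun t ht => (Finset.mem_filter.mp ht).2)).trans ?_
      exact mul_le_mul_of_nonneg_left hB6 (by linarith)
    have e2 : ∀ v : InfinitePlace K, ((W.filter (fun t => RR h j v t)).card : ℝ) ≤ CR * B := by
      intro v
      rw [hB]
      exact card_side j W hW1 _ _ (hCR ℓ Q _ I J _ v hP) _ (Finset.filter_subset _ _)
        (fun t ht => (Finset.mem_filter.mp ht).2)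
    have e3 : ((((Finset.univ : Finset (InfinitePlace K)).biUnion (fun v =>
            W.filter (fun t => RR h j v t))).card : ℕ) : ℝ) ≤ r * (CR * B) := by
      have h1 := Finset.card_biUnion_le (s := (Finset.univ : Finset (InfinitePlace K)))
        (t := fun v => W.filter (fun t => RR h j v t))
      refine (Nat.cast_le (α := ℝ).mpr h1).trans ?_
      push_cast
      refine (Finset.sum_le_sum (fun v _ => e2 v)).trans ?_
      rw [Finset.sum_const, Finset.card_univ, nsmul_eq_mul, hr]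
    have e4 := Finset.card_union_le (W.filter (fun t => PP h j t))
      ((Finset.univ : Finset (InfinitePlace K)).biUnion (fun v =>
            W.filter (fun t => RR h j v t)))
    rw [← Nat.cast_le (α := ℝ)] at e4
    push_cast at e4
    linarith
  have hfinal : (W.card : ℝ) ≤ ∑ h ∈ Finset.Icc 1 (KKK (Module.finrank ℚ K) δ),
      ∑ j : Fin 3, (CP + r * CR) * B := by
    have h1 := (Finset.card_le_card hcov).trans Finset.card_biUnion_le
    refine (Nat.cast_le (α := ℝ).mpr h1).trans ?_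
    rw [Nat.cast_sum]
    refine Finset.sum_le_sum ?_
    intro h hh
    refine (Nat.cast_le (α := ℝ).mpr Finset.card_biUnion_le).trans ?_
    rw [Nat.cast_sum]
    exact Finset.sum_le_sum (fun j _ => hcell h hh j)
  refine hfinal.trans (le_of_eq ?_)
  rw [Finset.sum_const, Finset.sum_const, Nat.card_Icc, Finset.card_univ, Fintype.card_fin,
    nsmul_eq_mul, nsmul_eq_mul, Nat.add_sub_cancel, hB]
  push_cast
  ring

end AbcRadK
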