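import Pool.Agent.Work.MP_a793bb_nt.RadK.SuppK
import Pool.Agent.Work.MP_a793bb_nt.Rad.FrGr
import Pool.Agent.Work.MP_a793bb_nt.Units

/-!
# Approximate `n`-th roots

Proof. Let `f_p = fr n (kp p u)` (zero outside `supp u`, `fr_zero`), and let `A` be the fractional
ideal `∏ p ^ f_p`. The class group is finite; let `G` be a finite set of nonzero ideals
representing all classes (`ClassGroup.mk0` is surjective). So there is `b ∈ G` with `A b`
principal, `A b = (ξ₁)`: `kp p ξ₁ = f_p + ex b p`. (To avoid fractional ideals: with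
`I = ∏ p ^ f_p⁺`, `J = ∏ p ^ f_p⁻` nonzero ideals, choose `b ∈ G` such that `I b` and `J` have the
same class, so `(x) I b = (y) J` with nonzero `x, y` in the ring of integers
(`ClassGroup.mk0_eq_mk0_iff`), and `ξ₁ = y / x`.)
Let `σ = (1 / d) (log N(b) - ∑_p (g_p / n) lN p)`, `g_p = gr n (kp p u)`. By the product formula
(`prodFormula_log`, `log_av`) `∑_v mult log (v u) = ∑ kp p u lN p` and
`∑_v mult log (v ξ₁) = ∑ (f_p + ex b p) lN p`, so `y_v = log (v u) / n + σ - log (v ξ₁)` satisfies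
`∑_v mult y_v = ∑ (kp p u / n - f_p - g_p / n) lN p = 0` (`∑ ex b p lN p = log N(b)`, `∑_v mult = d`).
By `exists_unit_near` there is a unit `ε` with `|log (v ε) - y_v| ≤ C₁` for all `v`; `ξ = ξ₁ ε`.
Then `|log (v ξ) - log (v u) / n| ≤ C₁ + |σ| ≤ C₁ + C₂ + (1 / 2) lsum (supp u)` by `gr_abs`
(`C₂` the maximum of `log N(b)`, `b ∈ G`; `d ≥ 1`).
-/

set_option autoImplicit false

namespace AbcRadK

open Finset AbcRad Pool.Agent.Work.MP_a793bb_nt Pool.Agent.Work.MP_a793bb_nt.BPlus NumberField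
  IsDedekindDomain Height

variable {K : Type*} [Field K] [NumberField K]

private theorem dk_ex_self (p : HeightOneSpectrum (𝓞 K)) : ex p.asIdeal p = 1 := by
  refine ex_eq_iff p p.ne_bot fun k => ?_
  constructor
  · intro h
    by_contra hk
    have h1 : p.asIdeal ^ 2 ∣ p.asIdeal ^ 1 := by
      rw [pow_one]
      exact (pow_dvd_pow _ (by omega)).trans h
    have h2 := (pow_dvd_pow_iff p.ne_bot p.prime.not_isUnit).1 h1
    omega
  · intro h
    calc p.asIdeal ^ k ∣ p.asIdeal ^ 1 := pow_dvd_pow _ h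
      _ = p.asIdeal := pow_one _

private theorem dk_ex_ne {p q : HeightOneSpectrum (𝓞 K)} (h : q ≠ p) : ex q.asIdeal p = 0 := by
  apply ex_eq_zero
  intro h2
  apply h
  have h4 := Ideal.le_of_dvd h2
  exact HeightOneSpectrum.ext (Ideal.IsMaximal.eq_of_le q.isMaximal p.isPrime.ne_top h4)

private theorem dk_exists_ideal (g : HeightOneSpectrum (𝓞 K) → ℕ)
    (S : Finset (HeightOneSpectrum (𝓞 K))) (hS : ∀ p, g p ≠ 0 → p ∈ S) :
    ∃ A : Ideal (𝓞 K), A ≠ ⊥ ∧ ∀ p, ex A p = g p := by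
  classical
  have key : ∀ S : Finset (HeightOneSpectrum (𝓞 K)), (∏ q ∈ S, q.asIdeal ^ g q) ≠ ⊥ ∧
      ∀ p, ex (∏ q ∈ S, q.asIdeal ^ g q) p = if p ∈ S then g p else 0 := by
    intro S
    induction S using Finset.induction_on with
    | empty =>
      refine ⟨?_, fun p => ?_⟩
      · rw [Finset.prod_empty]
        exact one_ne_zero
      · rw [Finset.prod_empty, if_neg (Finset.notMem_empty p)]
        apply ex_eq_zero
        intro h
        exact p.prime.not_isUnit (isUnit_of_dvd_one h)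
    | insert a S ha ih =>
      obtain ⟨ih1, ih2⟩ := ih
      have h1 : a.asIdeal ^ g a ≠ ⊥ := pow_ne_zero _ a.ne_bot
      rw [Finset.prod_insert ha]
      refine ⟨mul_ne_zero h1 ih1, fun p => ?_⟩
      rw [ex_mul h1 ih1, ex_pow a.ne_bot, ih2]
      by_cases hp : p = a
      · subst hp
        rw [dk_ex_self, if_neg ha, if_pos (Finset.mem_insert_self _ _)]
        ring
      · rw [dk_ex_ne (Ne.symm hp)]
        simp [Finset.mem_insert, hp]
  refine ⟨∏ q ∈ S, q.asIdeal ^ g q, (key S).1, fun p => ?_⟩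
  rw [(key S).2]
  by_cases hp : p ∈ S
  · rw [if_pos hp]
  · rw [if_neg hp]
    by_contra h
    exact hp (hS p (Ne.symm h))

private theorem dk_reps (K : Type*) [Field K] [NumberField K] :
    ∃ G : Finset (Ideal (𝓞 K)), (∀ b ∈ G, b ≠ ⊥) ∧ ∀ A B : Ideal (𝓞 K), A ≠ ⊥ → B ≠ ⊥ →
      ∃ b ∈ G, ∃ x y : 𝓞 K, x ≠ 0 ∧ y ≠ 0 ∧ Ideal.span {x} * (A * b) = Ideal.span {y} * B := by
  classical
  choose r hr using ClassGroup.mk0_surjective (R := 𝓞 K)
  refine ⟨Finset.univ.image fun c => (r c : Ideal (𝓞 K)), ?_, ?_⟩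
  · intro b hb
    obtain ⟨c, -, rfl⟩ := Finset.mem_image.1 hb
    exact mem_nonZeroDivisors_iff_ne_zero.1 (r c).2
  · intro A B hA hB
    have hA' : A ∈ nonZeroDivisors (Ideal (𝓞 K)) := mem_nonZeroDivisors_iff_ne_zero.2 hA
    have hB' : B ∈ nonZeroDivisors (Ideal (𝓞 K)) := mem_nonZeroDivisors_iff_ne_zero.2 hB
    set c : ClassGroup (𝓞 K) := (ClassGroup.mk0 ⟨A, hA'⟩)⁻¹ * ClassGroup.mk0 ⟨B, hB'⟩ with hc
    refine ⟨(r c : Ideal (𝓞 K)), Finset.mem_image.2 ⟨c, Finset.mem_univ _, rfl⟩, ?_⟩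
    have h1 : ClassGroup.mk0 (⟨A, hA'⟩ * r c) =
        ClassGroup.mk0 ⟨B, hB'⟩ := by
      rw [map_mul, hr, hc, mul_inv_cancel_left]
    obtain ⟨x, y, hx, hy, h⟩ := ClassGroup.mk0_eq_mk0_iff.1 h1
    exact ⟨x, y, hx, hy, h⟩

private theorem dk_sum_ex {b : Ideal (𝓞 K)} (hb : b ≠ ⊥) (T : Finset (HeightOneSpectrum (𝓞 K)))
    (hT : ∀ p : HeightOneSpectrum (𝓞 K), p.asIdeal ∣ b → p ∈ T) :
    ∑ p ∈ T, (ex b p : ℝ) * lN p = Real.log (Ideal.absNorm b : ℝ) := by
  rw [absNorm_prod_ex hb T hT, Real.log_prod]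
  · refine Finset.sum_congr rfl fun p _ => ?_
    rw [Real.log_pow]
    rfl
  · intro p _
    have := two_le_Np p
    positivity

private theorem dk_prod {x : K} (hx : x ≠ 0) (T : Finset (HeightOneSpectrum (𝓞 K)))
    (hT : ∀ p, kp p x ≠ 0 → p ∈ T) :
    ∑ v : InfinitePlace K, (v.mult : ℝ) * Real.log (v x) = ∑ p ∈ T, (kp p x : ℝ) * lN p := by
  have h := prodFormula_log hx T fun p hp => hT p fun h => hp ((av_one_iff_kp p hx).2 h)
  have h2 : ∑ p ∈ T, Real.log (av p x) = -∑ p ∈ T, (kp p x : ℝ) * lN p := by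
    rw [← Finset.sum_neg_distrib]
    refine Finset.sum_congr rfl fun p _ => ?_
    rw [log_av hx]
    ring
  rw [h2] at h
  linarith

theorem exists_dec (K : Type*) [Field K] [NumberField K] :
    ∃ (C : ℝ) (G : Finset (Ideal (𝓞 K))), 0 ≤ C ∧ ∀ (n : ℕ) (u : K), 1 ≤ n → u ≠ 0 →
      ∃ b ∈ G, ∃ ξ : K, Dec C n u b ξ := by
  classical
  obtain ⟨G, hG, hrep⟩ := dk_reps K
  obtain ⟨C₁, hC₁, hunit⟩ := exists_unit_near K
  have hlogN : ∀ b ∈ G, 0 ≤ Real.log (Ideal.absNorm b : ℝ) := fun b hb =>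
    Real.log_nonneg (one_le_absNorm K (hG b hb))
  have hd : (1 : ℝ) ≤ (Module.finrank ℚ K : ℝ) := by
    exact_mod_cast Module.finrank_pos
  refine ⟨C₁ + ∑ b ∈ G, Real.log (Ideal.absNorm b : ℝ), G,
    add_nonneg hC₁ (Finset.sum_nonneg hlogN), fun n u hn hu => ?_⟩
  -- the ideals
  have hf0 : ∀ p, fr n (kp p u) ≠ 0 → p ∈ supp u := by
    intro p hp
    rw [mem_supp hu]
    intro h
    rw [h, fr_zero n hn] at hp
    exact hp rfl
  obtain ⟨A, hA, hexA⟩ := dk_exists_ideal (fun p => (fr n (kp p u)).toNat) (supp u)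
    fun p hp => hf0 p fun h => hp (by rw [h]; rfl)
  obtain ⟨B, hB, hexB⟩ := dk_exists_ideal (fun p => (-fr n (kp p u)).toNat) (supp u)
    fun p hp => hf0 p fun h => hp (by rw [h]; rfl)
  obtain ⟨b, hbG, x, y, hx, hy, hxy⟩ := hrep A B hA hB
  have hb := hG b hbG
  have hxK : (x : K) ≠ 0 := by exact_mod_cast hx
  have hyK : (y : K) ≠ 0 := by exact_mod_cast hy
  have hξ0 : (y : K) / (x : K) ≠ 0 := div_ne_zero hyK hxK
  have hkp : ∀ p, kp p ((y : K) / (x : K)) = fr n (kp p u) + ex b p := by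
    intro p
    have hsx : Ideal.span {x} ≠ (⊥ : Ideal (𝓞 K)) := by simpa using hx
    have hsy : Ideal.span {y} ≠ (⊥ : Ideal (𝓞 K)) := by simpa using hy
    have h1 : ex (Ideal.span {x} * (A * b)) p = ex (Ideal.span {y} * B) p := by rw [hxy]
    rw [ex_mul hsx (mul_ne_zero hA hb), ex_mul hA hb, ex_mul hsy hB, hexA, hexB] at h1
    rw [kp_div p hyK hxK, ← ex_span hx, ← ex_span hy]
    omega
  -- the finite set of primes
  obtain ⟨T, hTs, hTb⟩ : ∃ T : Finset (HeightOneSpectrum (𝓞 K)), (∀ p ∈ supp u, p ∈ T) ∧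
      ∀ p : HeightOneSpectrum (𝓞 K), p.asIdeal ∣ b → p ∈ T :=
    ⟨supp u ∪ (finite_dvd hb).toFinset, fun p hp => Finset.mem_union_left _ hp,
      fun p hp => Finset.mem_union_right _ ((Set.Finite.mem_toFinset _).2 hp)⟩
  have hPu := dk_prod hu T fun p hp => hTs p ((mem_supp hu p).2 hp)
  have hPξ := dk_prod hξ0 T fun p hp => by
    rw [hkp] at hp
    by_cases h1 : fr n (kp p u) = 0
    · rw [h1, zero_add] at hp
      apply hTb
      by_contra h2
      rw [ex_eq_zero h2] at hp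
      exact hp rfl
    · exact hTs p (hf0 p h1)
  have hNb := dk_sum_ex hb T hTb
  have hmult : ∑ v : InfinitePlace K, (v.mult : ℝ) = (Module.finrank ℚ K : ℝ) := by
    have h := InfinitePlace.sum_mult_eq (K := K)
    exact_mod_cast h
  have hn0 : (0 : ℝ) < n := by exact_mod_cast hn
  obtain ⟨Γ, hΓ⟩ : ∃ Γ : ℝ, Γ = ∑ p ∈ T, (gr n (kp p u) : ℝ) * lN p := ⟨_, rfl⟩
  obtain ⟨σ, hσ⟩ : ∃ σ : ℝ, σ = (Real.log (Ideal.absNorm b : ℝ) - Γ / n) /
      (Module.finrank ℚ K : ℝ) := ⟨_, rfl⟩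
  have hdσ : (Module.finrank ℚ K : ℝ) * σ = Real.log (Ideal.absNorm b : ℝ) - Γ / n := by
    rw [hσ]
    field_simp
  have hsum : ∑ v : InfinitePlace K, (v.mult : ℝ) *
      (Real.log (v u) / n + σ - Real.log (v ((y : K) / (x : K)))) = 0 := by
    have e1 : ∑ v : InfinitePlace K, (v.mult : ℝ) *
        (Real.log (v u) / n + σ - Real.log (v ((y : K) / (x : K)))) =
        (∑ v : InfinitePlace K, (v.mult : ℝ) * Real.log (v u)) / n +
        (∑ v : InfinitePlace K, (v.mult : ℝ)) * σ -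
        ∑ v : InfinitePlace K, (v.mult : ℝ) * Real.log (v ((y : K) / (x : K))) := by
      rw [Finset.sum_div, Finset.sum_mul, ← Finset.sum_add_distrib, ← Finset.sum_sub_distrib]
      refine Finset.sum_congr rfl fun v _ => ?_
      ring
    rw [e1, hmult, hPu, hPξ, hdσ, ← hNb, hΓ, Finset.sum_div, Finset.sum_div,
      ← Finset.sum_sub_distrib, ← Finset.sum_add_distrib, ← Finset.sum_sub_distrib]
    refine Finset.sum_eq_zero fun p _ => ?_
    rw [hkp]
    have h1 : (gr n (kp p u) : ℝ) = (kp p u : ℝ) - n * (fr n (kp p u) : ℝ) := by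
      unfold gr
      push_cast
      ring
    rw [h1]
    push_cast
    field_simp
    ring
  obtain ⟨ε, hε⟩ := hunit _ hsum
  have hεK : ((ε : 𝓞 K) : K) ≠ 0 := by
    have := ε.ne_zero
    exact_mod_cast this
  refine ⟨b, hbG, (y : K) / (x : K) * ((ε : 𝓞 K) : K), mul_ne_zero hξ0 hεK, fun p => ?_,
    fun v => ?_⟩
  · rw [kp_mul p hξ0 hεK, hkp]
    have h1 : kp p ((ε : 𝓞 K) : K) = 0 := by
      have h2 : (ex (Ideal.span {(ε : 𝓞 K)}) p : ℤ) = kp p ((ε : 𝓞 K) : K) :=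
        ex_span ε.ne_zero p
      rw [← h2, Ideal.span_singleton_eq_top.2 ε.isUnit]
      have h3 : ex (⊤ : Ideal (𝓞 K)) p = 0 := by
        apply ex_eq_zero
        intro h
        apply p.prime.not_isUnit
        apply isUnit_of_dvd_one
        rwa [Ideal.one_eq_top]
      rw [h3]
      rfl
    rw [h1, add_zero]
  · have h1 := hε v
    have h2 : Real.log (v ((y : K) / (x : K) * ((ε : 𝓞 K) : K))) - Real.log (v u) / n =
        (Real.log (v ((ε : 𝓞 K) : K)) -
          (Real.log (v u) / n + σ - Real.log (v ((y : K) / (x : K))))) + σ := by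
      rw [map_mul, Real.log_mul (InfinitePlace.pos_iff.2 hξ0).ne' (InfinitePlace.pos_iff.2 hεK).ne']
      ring
    rw [h2]
    refine (abs_add_le _ _).trans ?_
    have h3 : |σ| ≤ ∑ b ∈ G, Real.log (Ideal.absNorm b : ℝ) + lsum (supp u) := by
      have h4 : |σ| ≤ |(Real.log (Ideal.absNorm b : ℝ) - Γ / n)| := by
        rw [hσ, abs_div, abs_of_pos (lt_of_lt_of_le one_pos hd)]
        exact div_le_self (abs_nonneg _) hd
      have h5 : |Γ / n| ≤ lsum (supp u) := by
        have h6 : Γ = ∑ p ∈ supp u, (gr n (kp p u) : ℝ) * lN p := by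
          rw [hΓ]
          symm
          apply Finset.sum_subset hTs
          intro p _ hp
          rw [gr_kp_zero hu n hn p hp]
          simp
        rw [abs_div, abs_of_pos hn0, div_le_iff₀ hn0, h6]
        refine (Finset.abs_sum_le_sum_abs _ _).trans ?_
        unfold lsum
        rw [Finset.sum_mul]
        refine Finset.sum_le_sum fun p _ => ?_
        have h7 := gr_abs n hn (kp p u)
        have h8 : 2 * |(gr n (kp p u) : ℝ)| ≤ n := by exact_mod_cast h7
        rw [abs_mul, abs_of_pos (lN_pos p)]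
        have h9 := lN_pos p
        have h10 := abs_nonneg (gr n (kp p u) : ℝ)
        nlinarith
      have h6 : |Real.log (Ideal.absNorm b : ℝ)| ≤ ∑ b ∈ G, Real.log (Ideal.absNorm b : ℝ) := by
        rw [abs_of_nonneg (hlogN b hbG)]
        exact Finset.single_le_sum hlogN hbG
      have h7 := abs_sub (Real.log (Ideal.absNorm b : ℝ)) (Γ / n)
      linarith
    linarith

end AbcRadK
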