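import Pool.Agent.Work.MP_a793bb_nt.RadK.DefsK
import Pool.Agent.Work.MP_a793bb_nt.Rad.ZeroEst
import Pool.Agent.Work.MP_a793bb_nt.Rad.Hasse

/-!
# Some derivative does not vanish (any field of characteristic zero)

Proof. As `nonvanish` in `Rad/Nonvan.lean`. With `Q_τ = Qpol F c n I J τ`, `hasse_eval` gives
`ξ ^ l * (hasseDeriv l Q_τ).eval ξ = ∑∑ c_{kj} (n k + j).choose l τ ^ k ξ ^ (n k + j)
= Vl c n I J l (τ * ξ ^ n) ξ`. If this is zero for all `l < l0 := I (J + 1) - 1 - L`, then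
`(X - C ξ) ^ l0 ∣ Q_τ` (`dvd_of_hasse`), `(X - 1) ^ L ∣ Q_1` (`dvd_Q1`), and `zero_est` gives
`L + l0 + 2 ≤ I (J + 1)`, a contradiction. `τ ^ k1 ≠ τ ^ k2` for `k1 < k2 < I` follows from
`hτ1` applied to `k2 - k1`.
-/

set_option autoImplicit false

namespace AbcRadK

open Finset AbcRad

theorem nonvanish_field {F : Type*} [Field F] [CharZero F] (c : ℕ → ℕ → ℤ) (n I J L : ℕ)
    (hJn : J ≤ n) (hJL : J ≤ L) (hI : 2 ≤ I) (hLI : L ≤ I * J)
    (hp : ∃ k < I, ∃ j < J, c k j ≠ 0) (hz : ∀ l < L, tay c n I J l = 0) (τ ξ : F) (hξ : ξ ≠ 0)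
    (hτ : τ ≠ 0) (hτ1 : ∀ m : ℕ, 0 < m → m < I → τ ^ m ≠ 1) :
    ∃ l : ℕ, l + L + 2 ≤ I * (J + 1) ∧ Vl c n I J l (τ * ξ ^ n) ξ ≠ 0 := by
  by_contra hcon
  push Not at hcon
  have e1 : I * (J + 1) = I * J + I := by ring
  have hτinj : ∀ k1 k2 : ℕ, k1 < k2 → k2 < I → τ ^ k1 ≠ τ ^ k2 := by
    intro k1 k2 hk hk2 h
    obtain ⟨m, rfl⟩ : ∃ m, k2 = k1 + m := ⟨k2 - k1, by omega⟩
    refine hτ1 m (by omega) (by omega) ?_
    rw [pow_add] at h
    have h3 := mul_left_cancel₀ (pow_ne_zero k1 hτ) ((mul_one (τ ^ k1)).trans h)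
    exact h3.symm
  have hl : ∀ l < I * (J + 1) - 1 - L, (Polynomial.hasseDeriv l (Qpol F c n I J τ)).eval ξ = 0 := by
    intro l hl
    have h3 := hcon l (by omega)
    have h4 := hasse_eval c n I J l τ ξ
    have h5 : Vl c n I J l (τ * ξ ^ n) ξ =
        ∑ k ∈ range I, ∑ j ∈ range J,
          (c k j : F) * ((n * k + j).choose l : F) * τ ^ k * ξ ^ (n * k + j) := by
      unfold Vl
      refine Finset.sum_congr rfl fun k _ => Finset.sum_congr rfl fun j _ => ?_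
      rw [mul_pow, pow_add, pow_mul]
      ring
    rw [← h5, h3] at h4
    rcases mul_eq_zero.1 h4 with h7 | h7
    · exact absurd h7 (pow_ne_zero _ hξ)
    · exact h7
  have h3 := zero_est c n I J L (I * (J + 1) - 1 - L) hJn hJL hp τ ξ hτinj hξ
    (dvd_Q1 c n I J L hz) (dvd_of_hasse _ ξ _ hl)
  omega

end AbcRadK
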