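import Pool.Agent.Work.MP_a793bb_nt.RadK.WindowK

/-!
# The upper bound over a number field

Proof. `δ = min (ε / 32) (1 / 10)`, `ℓ0, C0, C1` from `window_countK`. Let `ℓ ≥ ℓ0` and
`t` with `t ≠ 0, 1`, `Rs (Ip t) ≤ ℓ`, `hh t ≤ H := d exp (exp (ε ℓ / 2))`.
If `hh t ≤ C0 ℓ`: these `t` lie in `smallRad K (exp (C0 ℓ)) (exp ℓ)` (`logHeight₁ t ≤ hh t`), whose
cardinality is at most `C exp (η C0 ℓ) exp ((2/3) (1 + η) ℓ)` (`card_smallRad_le` with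
`η = ε / (2 (C0 + 1))`) `≤ C exp ((2/3 + ε) ℓ)`.
Otherwise `t ∈ wsetK K ℓ (2 ^ i C0 ℓ)` for an `i ≥ 0` with `2 ^ i ≤ H / (C0 ℓ) ≤ H`, so
`i ≤ log H / log 2 ≤ 2 (log d + exp (ε ℓ / 2))`, and there are at most `C exp (ε ℓ / 2)` such `i`. Total:
`C exp (ε ℓ / 2 + (2/3 + 8 δ) ℓ) ≤ C exp ((2/3 + ε) ℓ)` as `8 δ ≤ ε / 4`.
For `0 ≤ ℓ < ℓ0` the set is contained in the finite set `{hh t ≤ d exp (exp (ε ℓ0 / 2))}`.
-/

set_option autoImplicit false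

namespace AbcRadK

open Finset AbcRad Pool.Agent.Work.MP_a793bb_nt Pool.Agent.Work.MP_a793bb_nt.BPlus NumberField
  IsDedekindDomain Height

variable {K : Type*} [Field K] [NumberField K]

private theorem UpperK_scale (x : ℝ) (N : ℕ) (hx : 1 < x) (hN : x ≤ 2 ^ N) :
    ∃ i < N, (2 : ℝ) ^ i < x ∧ x ≤ 2 ^ (i + 1) := by
  classical
  have hN0 : N ≠ 0 := by
    rintro rfl
    simp only [pow_zero] at hN
    linarith
  obtain ⟨k, rfl⟩ := Nat.exists_eq_succ_of_ne_zero hN0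
  have hex : ∃ i : ℕ, x ≤ (2 : ℝ) ^ (i + 1) := ⟨k, hN⟩
  refine ⟨Nat.find hex, Nat.lt_succ_of_le (Nat.find_min' hex hN), ?_, Nat.find_spec hex⟩
  rcases Nat.eq_zero_or_pos (Nat.find hex) with h0 | h0
  · rw [h0, pow_zero]
    exact hx
  · have h1 := Nat.find_min hex (show Nat.find hex - 1 < Nat.find hex by omega)
    rw [show Nat.find hex - 1 + 1 = Nat.find hex by omega] at h1
    exact not_le.mp h1

private theorem UpperK_exp_le (t : ℝ) (ht : 0 ≤ t) (d N : ℕ) (hN : 2 * t + d ≤ N) :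
    (d : ℝ) * Real.exp t ≤ 2 ^ N := by
  have h1 : Real.exp t ≤ (2 : ℝ) ^ (2 * t) := by
    rw [Real.rpow_def_of_pos (by norm_num)]
    apply Real.exp_le_exp.mpr
    have h2 := Real.log_two_gt_d9
    nlinarith
  have h0 : (d : ℝ) ≤ (2 : ℝ) ^ (d : ℝ) := by
    rw [Real.rpow_natCast]
    exact_mod_cast (Nat.lt_two_pow_self (n := d)).le
  have h3 : (2 : ℝ) ^ N = (2 : ℝ) ^ (N : ℝ) := (Real.rpow_natCast 2 N).symm
  rw [h3]
  calc (d : ℝ) * Real.exp t ≤ (2 : ℝ) ^ (d : ℝ) * (2 : ℝ) ^ (2 * t) := by gcongr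
    _ = (2 : ℝ) ^ ((d : ℝ) + 2 * t) := by rw [Real.rpow_add (by norm_num)]
    _ ≤ (2 : ℝ) ^ (N : ℝ) := Real.rpow_le_rpow_of_exponent_le (by norm_num) (by linarith)

private theorem UpperK_fin (K : Type*) [Field K] [NumberField K] (B : ℝ) :
    {t : K | hh t ≤ B}.Finite := by
  refine (NumberField.finite_setOfPred_mulHeight₁_le K (Real.exp B)).subset ?_
  intro t ht
  simp only [Set.mem_ofPred_eq] at ht ⊢
  have h1 : logHeight₁ t ≤ hh t := logHeight₁_le_triple t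
  rw [logHeight₁_eq_log_mulHeight₁] at h1
  exact (Real.log_le_iff_le_exp (mulHeight₁_pos t)).mp (h1.trans ht)

theorem upperK (K : Type*) [Field K] [NumberField K] (ε : ℝ) (hε : 0 < ε) :
    ∃ C : ℝ, ∀ ℓ : ℝ, 0 ≤ ℓ →
      {t : K | t ≠ 0 ∧ t ≠ 1 ∧ Rs (Ip t) ≤ ℓ ∧
        hh t ≤ (Module.finrank ℚ K : ℝ) * Real.exp (Real.exp (ε / 2 * ℓ))}.Finite ∧
      ({t : K | t ≠ 0 ∧ t ≠ 1 ∧ Rs (Ip t) ≤ ℓ ∧
        hh t ≤ (Module.finrank ℚ K : ℝ) * Real.exp (Real.exp (ε / 2 * ℓ))}.ncard : ℝ) ≤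
        C * Real.exp ((2 / 3 + ε) * ℓ) := by
  classical
  obtain ⟨d, hd⟩ : ∃ d : ℕ, d = Module.finrank ℚ K := ⟨_, rfl⟩
  rw [← hd]
  obtain ⟨δ, hδdef⟩ : ∃ δ : ℝ, δ = min (ε / 32) (1 / 10) := ⟨_, rfl⟩
  have hδ : 0 < δ := by
    rw [hδdef]
    exact lt_min (by linarith) (by norm_num)
  have hδ1 : δ ≤ 1 / 10 := by
    rw [hδdef]
    exact min_le_right _ _
  have hδ2 : δ ≤ ε / 32 := by
    rw [hδdef]
    exact min_le_left _ _
  obtain ⟨ℓ0, C0, C1, hℓ0, hC0, hC1, hwin⟩ := window_countK K δ hδ hδ1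
  obtain ⟨η, hη⟩ : ∃ η : ℝ, η = ε / (2 * (C0 + 1)) := ⟨_, rfl⟩
  have hη0 : 0 < η := by
    rw [hη]
    positivity
  have hη1 : (C0 + 1) * η = ε / 2 := by
    rw [hη]
    field_simp
  obtain ⟨C2, hC2, hsmall⟩ := card_smallRad_le (K := K) hη0
  obtain ⟨S0, hS0⟩ : ∃ S0 : Set K,
      S0 = {t : K | hh t ≤ (d : ℝ) * Real.exp (Real.exp (ε / 2 * ℓ0))} := ⟨_, rfl⟩
  have hS0f : S0.Finite := by
    rw [hS0]
    exact UpperK_fin K _
  refine ⟨C2 + (d + 3) * C1 + (S0.ncard : ℝ), ?_⟩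
  intro ℓ hℓ
  have hsetfin : {t : K | t ≠ 0 ∧ t ≠ 1 ∧ Rs (Ip t) ≤ ℓ ∧
      hh t ≤ (d : ℝ) * Real.exp (Real.exp (ε / 2 * ℓ))}.Finite :=
    (UpperK_fin K ((d : ℝ) * Real.exp (Real.exp (ε / 2 * ℓ)))).subset
      (fun t ht => ht.2.2.2)
  refine ⟨hsetfin, ?_⟩
  have hd0 : (0 : ℝ) ≤ d := Nat.cast_nonneg d
  have hS00 : (0 : ℝ) ≤ (S0.ncard : ℝ) := Nat.cast_nonneg _
  have hpow1 : 1 ≤ Real.exp ((2 / 3 + ε) * ℓ) := Real.one_le_exp (by positivity)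
  rcases lt_or_ge ℓ ℓ0 with hRR | hRR
  · -- bounded range
    have hsub : {t : K | t ≠ 0 ∧ t ≠ 1 ∧ Rs (Ip t) ≤ ℓ ∧
        hh t ≤ (d : ℝ) * Real.exp (Real.exp (ε / 2 * ℓ))} ⊆ S0 := by
      rintro t ⟨-, -, -, h⟩
      rw [hS0]
      simp only [Set.mem_ofPred_eq]
      refine h.trans (mul_le_mul_of_nonneg_left ?_ hd0)
      refine Real.exp_le_exp.mpr (Real.exp_le_exp.mpr ?_)
      exact mul_le_mul_of_nonneg_left hRR.le (by linarith)
    have h4 := Set.ncard_le_ncard hsub hS0f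
    have h5 : ((({t : K | t ≠ 0 ∧ t ≠ 1 ∧ Rs (Ip t) ≤ ℓ ∧
        hh t ≤ (d : ℝ) * Real.exp (Real.exp (ε / 2 * ℓ))}).ncard : ℕ) : ℝ) ≤
        (S0.ncard : ℝ) := Nat.cast_le.mpr h4
    refine h5.trans ?_
    have h6 : (S0.ncard : ℝ) * 1 ≤ (S0.ncard : ℝ) * Real.exp ((2 / 3 + ε) * ℓ) :=
      mul_le_mul_of_nonneg_left hpow1 hS00
    have h7 : 0 ≤ (C2 + (d + 3) * C1) * Real.exp ((2 / 3 + ε) * ℓ) := by positivity
    linarith
  · -- main range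
    have hℓ1 : 1 ≤ ℓ := hℓ0.trans hRR
    obtain ⟨τ, hτ⟩ : ∃ τ : ℝ, τ = Real.exp (ε / 2 * ℓ) := ⟨_, rfl⟩
    have hτ1 : 1 ≤ τ := by
      rw [hτ]
      exact Real.one_le_exp (by positivity)
    obtain ⟨N, hN⟩ : ∃ N : ℕ, N = ⌈2 * τ + d⌉₊ := ⟨_, rfl⟩
    have hN1 : 2 * τ + d ≤ N := by
      rw [hN]
      exact Nat.le_ceil _
    have hN2 : (N : ℝ) ≤ (d + 3) * τ := by
      have h1 : (N : ℝ) < 2 * τ + d + 1 := by
        rw [hN]
        exact Nat.ceil_lt_add_one (by positivity)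
      nlinarith
    obtain ⟨hsf, hsc⟩ := hsmall (Real.exp (C0 * ℓ)) (Real.exp ℓ)
      (Real.one_le_exp (by positivity)) (Real.one_le_exp hℓ)
    have hC0R : 1 ≤ C0 * ℓ := by nlinarith
    have hC0R0 : 0 < C0 * ℓ := by linarith
    have hQi : ∀ i : ℕ, C0 * ℓ ≤ 2 ^ i * (C0 * ℓ) := by
      intro i
      exact le_mul_of_one_le_left hC0R0.le (one_le_pow₀ (by norm_num))
    have hwi : ∀ i : ℕ, (wsetK K ℓ (2 ^ i * (C0 * ℓ))).Finite := fun i =>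
      (hwin ℓ _ hRR (hQi i)).1
    have hsub : {t : K | t ≠ 0 ∧ t ≠ 1 ∧ Rs (Ip t) ≤ ℓ ∧
        hh t ≤ (d : ℝ) * Real.exp (Real.exp (ε / 2 * ℓ))} ⊆
        ((hsf.toFinset ∪ (Finset.range N).biUnion (fun i => (hwi i).toFinset) :
          Finset K) : Set K) := by
      rintro t ⟨ht0, ht1, hr, h⟩
      rw [Finset.mem_coe, Finset.mem_union]
      rcases le_or_gt (hh t) (C0 * ℓ) with hl | hl
      · left
        rw [Set.Finite.mem_toFinset]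
        refine ⟨ht0, ht1, ?_, Real.exp_le_exp.mpr hr⟩
        have h1 : logHeight₁ t ≤ hh t := logHeight₁_le_triple t
        rw [logHeight₁_eq_log_mulHeight₁] at h1
        exact (Real.log_le_iff_le_exp (mulHeight₁_pos t)).mp (h1.trans hl)
      · right
        have hx1 : 1 < hh t / (C0 * ℓ) := by
          rw [lt_div_iff₀ hC0R0, one_mul]
          exact hl
        have hx2 : hh t / (C0 * ℓ) ≤ 2 ^ N := by
          rw [div_le_iff₀ hC0R0]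
          have h2 := UpperK_exp_le τ (by linarith) d N hN1
          have h4 : (0 : ℝ) < 2 ^ N := by positivity
          rw [← hτ] at h
          nlinarith
        obtain ⟨i, hi, h5, h6⟩ := UpperK_scale _ N hx1 hx2
        rw [Finset.mem_biUnion]
        refine ⟨i, Finset.mem_range.mpr hi, ?_⟩
        rw [Set.Finite.mem_toFinset]
        refine ⟨ht0, ht1, hr, ?_, ?_⟩
        · rw [lt_div_iff₀ hC0R0] at h5
          exact h5
        · rw [div_le_iff₀ hC0R0, pow_succ] at h6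
          linarith
    have h4 := Set.ncard_le_ncard hsub (Finset.finite_toSet _)
    rw [Set.ncard_coe_finset] at h4
    have h5 := h4.trans ((Finset.card_union_le _ _).trans
      (Nat.add_le_add_left Finset.card_biUnion_le _))
    have h6 : ((({t : K | t ≠ 0 ∧ t ≠ 1 ∧ Rs (Ip t) ≤ ℓ ∧
        hh t ≤ (d : ℝ) * Real.exp (Real.exp (ε / 2 * ℓ))}).ncard : ℕ) : ℝ) ≤
        ((hsf.toFinset.card + ∑ i ∈ Finset.range N, ((hwi i).toFinset).card : ℕ) : ℝ) :=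
      Nat.cast_le.mpr h5
    refine h6.trans ?_
    obtain ⟨A, hA⟩ : ∃ A : ℕ, A = hsf.toFinset.card := ⟨_, rfl⟩
    have hA2 : (A : ℝ) ≤ C2 * Real.exp ((2 / 3 + ε) * ℓ) := by
      rw [hA, ← Set.ncard_eq_toFinset_card _ hsf]
      refine hsc.trans ?_
      rw [mul_assoc, ← Real.exp_mul, ← Real.exp_mul, ← Real.exp_add]
      refine mul_le_mul_of_nonneg_left (Real.exp_le_exp.mpr ?_) (by linarith)
      have e1 : C0 * ℓ * η + ℓ * (2 / 3 * (1 + η)) = ((C0 + 1) * η + 2 / 3 - η / 3) * ℓ := by ring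
      rw [e1, hη1]
      refine mul_le_mul_of_nonneg_right ?_ hℓ
      linarith
    rw [← hA, Nat.cast_add, Nat.cast_sum]
    have h7 : ∑ i ∈ Finset.range N, (((hwi i).toFinset).card : ℝ) ≤
        ∑ i ∈ Finset.range N, C1 * Real.exp ((2 / 3 + 8 * δ) * ℓ) := by
      refine Finset.sum_le_sum ?_
      intro i _
      rw [← Set.ncard_eq_toFinset_card _ (hwi i)]
      exact (hwin ℓ _ hRR (hQi i)).2
    rw [Finset.sum_const, Finset.card_range, nsmul_eq_mul] at h7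
    have hb2 : τ * Real.exp ((2 / 3 + 8 * δ) * ℓ) ≤ Real.exp ((2 / 3 + ε) * ℓ) := by
      rw [hτ, ← Real.exp_add]
      refine Real.exp_le_exp.mpr ?_
      nlinarith
    have h8 : (N : ℝ) * (C1 * Real.exp ((2 / 3 + 8 * δ) * ℓ)) ≤
        (d + 3) * C1 * Real.exp ((2 / 3 + ε) * ℓ) := by
      calc (N : ℝ) * (C1 * Real.exp ((2 / 3 + 8 * δ) * ℓ))
          ≤ ((d + 3) * τ) * (C1 * Real.exp ((2 / 3 + 8 * δ) * ℓ)) :=
            mul_le_mul_of_nonneg_right hN2 (mul_nonneg hC1 (Real.exp_pos _).le)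
        _ = (d + 3) * C1 * (τ * Real.exp ((2 / 3 + 8 * δ) * ℓ)) := by ring
        _ ≤ (d + 3) * C1 * Real.exp ((2 / 3 + ε) * ℓ) :=
            mul_le_mul_of_nonneg_left hb2 (by positivity)
    have h10 : 0 ≤ (S0.ncard : ℝ) * Real.exp ((2 / 3 + ε) * ℓ) := by positivity
    linarith

end AbcRadK
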